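import Pool.Agent.U516.P2.Spec
import Pool.Agent.R236.DenE

set_option autoImplicit false

/-!
Project P2, package RAT: character ratios at the elements with few fixed points.
-/

namespace P2516
open RC14 RD516 R3516 Finset Filter Topology
open Pool.Agent.R236.Den

noncomputable section

theorem t_RAT : S_RAT := by
  refine ⟨1 / 16, by norm_num, ?_⟩
  filter_upwards [ev_const (1 / 8) 100 (by norm_num), ev_le (1 / 8) 1 48384 (by norm_num),
    ev_le (7 / 8) 1 4 (by norm_num), ev_le (-(1 / 8)) (-(1 / 8 / 2)) 10 (by norm_num),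
    ev_log 0 (3 / 4) 32514048 (by norm_num), eventually_ge_atTop 1000]
    with n h7 h8 h9 h10 h11 h12
  intro z hz V _ _ _ ρ hirr hnt
  rw [Real.rpow_one] at h8 h9
  rw [Real.rpow_zero, mul_one] at h11
  have hnr : (1000 : ℝ) ≤ n := by exact_mod_cast h12
  have hn0 : (0 : ℝ) < n := by linarith only [hnr]
  have hlg : 0 < Real.log n := Real.log_pos (by linarith only [hnr])
  set F : ℕ := ⌈(n : ℝ) ^ (7 / 8 : ℝ)⌉₊ with hF
  set N : ℕ := ⌈(n : ℝ) ^ (1 / 8 : ℝ)⌉₊ with hN
  have hN1 : (n : ℝ) ^ (1 / 8 : ℝ) ≤ N := Nat.le_ceil _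
  have hN2 : (N : ℝ) ≤ 2 * (n : ℝ) ^ (1 / 8 : ℝ) := by
    have : (N : ℝ) < (n : ℝ) ^ (1 / 8 : ℝ) + 1 := Nat.ceil_lt_add_one (by positivity)
    linarith
  have hN100 : 100 ≤ N := by
    have : (100 : ℝ) ≤ N := h7.trans hN1
    exact_mod_cast this
  have hpF : 1 ≤ (n : ℝ) ^ (7 / 8 : ℝ) := Real.one_le_rpow (by linarith) (by norm_num)
  have hF2 : (F : ℝ) ≤ 2 * (n : ℝ) ^ (7 / 8 : ℝ) := by
    have : (F : ℝ) < (n : ℝ) ^ (7 / 8 : ℝ) + 1 := Nat.ceil_lt_add_one (by positivity)
    linarith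
  have hzF : nfix (z : Equiv.Perm (Fin n)) ≤ F := by
    refine hz.trans (Nat.ceil_mono ?_)
    exact Real.rpow_le_rpow_of_exponent_le (by linarith) (by norm_num)
  obtain ⟨j, hj1, hjJ, -, hch⟩ := char_det n N F 1 ((n : ℝ) ^ (-(1 / 16) : ℝ)) (by positivity)
    hN100 (by
      have : ((2 * (12096 * N) : ℕ) : ℝ) ≤ n := by
        push_cast
        linarith
      exact_mod_cast this) h12 (by
      have : ((2 * F : ℕ) : ℝ) ≤ n := by
        push_cast
        linarith
      exact_mod_cast this) le_rfl (by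
      intro j j1 hj hj1
      have := bb_le n N F 1 (1 / 8) (by norm_num) (by norm_num) h12 hN100 hN1
        (by
          have e : (1 : ℝ) - 1 / 8 = 7 / 8 := by norm_num
          rw [e]
          exact hF2)
        (by
          push_cast
          exact Real.one_le_rpow (by linarith) (by norm_num)) h10 j j1 hj hj1
      have e : (-(1 / 16) : ℝ) = -(1 / 8 / 2) := by norm_num
      rw [e]
      exact this) (by
      rw [pow_one, Real.rpow_def_of_pos hn0]
      apply Real.exp_le_exp.mpr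
      have hNpos : (0 : ℝ) < N := by
        have : (100 : ℝ) ≤ N := by exact_mod_cast hN100
        linarith
      have hNsq : (N : ℝ) ^ 2 ≤ 4 * (n : ℝ) ^ (1 / 4 : ℝ) := by
        have e : (n : ℝ) ^ (1 / 4 : ℝ) = ((n : ℝ) ^ (1 / 8 : ℝ)) ^ 2 := by
          rw [← Real.rpow_natCast, ← Real.rpow_mul hn0.le]
          congr 1
          norm_num
        rw [e]
        have := pow_le_pow_left₀ hNpos.le hN2 2
        linarith
      have e2 : (n : ℝ) = (n : ℝ) ^ (3 / 4 : ℝ) * (n : ℝ) ^ (1 / 4 : ℝ) := by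
        rw [← Real.rpow_add hn0]
        norm_num
      have hP : 0 < (n : ℝ) ^ (3 / 4 : ℝ) := by positivity
      have h13 : (1 / 16) * Real.log n ≤ (n : ℝ) ^ (3 / 4 : ℝ) / 32514048 := by
        rw [le_div_iff₀ (by norm_num)]
        linarith
      have h15 : (n : ℝ) ^ (3 / 4 : ℝ) / 32514048 ≤
          1 / (2 * 336 * 12096 * (N : ℝ) ^ 2) * n := by
        rw [div_mul_eq_mul_div, one_mul, div_le_div_iff₀ (by norm_num) (by positivity)]
        have h16 : (n : ℝ) ^ (3 / 4 : ℝ) * (2 * 336 * 12096 * (N : ℝ) ^ 2) ≤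
            (n : ℝ) ^ (3 / 4 : ℝ) * (2 * 336 * 12096 * (4 * (n : ℝ) ^ (1 / 4 : ℝ))) := by gcongr
        refine h16.trans (le_of_eq ?_)
        conv_rhs => rw [e2]
        ring
      linarith) ρ hirr hnt
  have hj : j = 1 := le_antisymm hjJ hj1
  subst hj
  have := hch z hzF
  rw [pow_one] at this
  exact this

end

end P2516
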