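import Pool.Agent.U516.P2.Spec

/-! Project P2, package SEC (helper981): the second moment argument -/

set_option autoImplicit false

namespace P2516
open RC14 RD516 R3516 Finset Filter Topology
open Pool.Agent.R236.Den

namespace SEC

theorem sec_core {A : Type} [Group A] [Fintype A] [DecidableEq A] (E : Finset A)
    (hE : ∀ g h : A, g * h ∈ E ↔ h * g ∈ E) (c β : ℝ) (hc : 0 < c) (hβ : 0 ≤ β)
    (hcE : c * Fintype.card A ≤ (#E : ℝ)) (y : A) (M : ℕ)
    (hy : ∀ i : ℕ, 1 ≤ i → i ≤ M → ∀ f : A → ℝ, (∀ g h, f (g * h) = f (h * g)) → ∑ g, f g = 0 →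
      ∑ g, f g * f (g * y ^ i) ≤ β * ∑ g, f g ^ 2) :
    (#{g : A | ¬ ∃ i ≤ M, g * y ^ i ∈ E} : ℝ) * (((M : ℝ) + 1) ^ 2 * c ^ 2) ≤
      Fintype.card A * (((M : ℝ) + 1) + ((M : ℝ) + 1) ^ 2 * β) := by
  have hA : (0 : ℝ) < Fintype.card A := by exact_mod_cast Fintype.card_pos
  set d : ℝ := (#E : ℝ) / Fintype.card A with hd
  have hd0 : 0 ≤ d := by positivity
  have hdc : c ≤ d := by
    rw [hd, le_div_iff₀ hA]
    exact hcE
  have hd1 : d ≤ 1 := by
    rw [hd, div_le_one hA]
    exact_mod_cast card_le_univ E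
  set f : A → ℝ := fun g => (if g ∈ E then 1 else 0) - d with hf
  have hcl : ∀ g h, f (g * h) = f (h * g) := by
    intro g h
    simp only [hf, hE g h]
  have hs : ∑ g, f g = 0 := by
    simp only [hf, sum_sub_distrib, sum_const, card_univ, nsmul_eq_mul, hd, sum_boole]
    rw [mul_div_cancel₀ _ hA.ne']
    simp
  have hf1 : ∀ g, f g ^ 2 ≤ 1 := by
    intro g
    simp only [hf]
    split_ifs
    · nlinarith
    · nlinarith
  have hf2 : ∑ g, f g ^ 2 ≤ Fintype.card A := by
    calc ∑ g, f g ^ 2 ≤ ∑ _g : A, (1 : ℝ) := sum_le_sum fun g _ => hf1 g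
      _ = Fintype.card A := by simp
  -- the correlations
  have hlt : ∀ i j : ℕ, i < j → j ≤ M → ∑ g, f (g * y ^ i) * f (g * y ^ j) ≤
      β * Fintype.card A := by
    intro i j hij hj
    have h1 : ∑ g, f (g * y ^ i) * f (g * y ^ j) = ∑ g, f g * f (g * y ^ (j - i)) := by
      rw [← Equiv.sum_comp (Equiv.mulRight (y ^ i)) (fun g => f g * f (g * y ^ (j - i)))]
      refine sum_congr rfl fun g _ => ?_
      simp only [Equiv.coe_mulRight]
      rw [mul_assoc g, ← pow_add, Nat.add_sub_cancel' hij.le]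
    rw [h1]
    exact (hy (j - i) (by omega) (by omega) f hcl hs).trans (mul_le_mul_of_nonneg_left hf2 hβ)
  have hij : ∀ i ∈ range (M + 1), ∀ j ∈ range (M + 1), ∑ g, f (g * y ^ i) * f (g * y ^ j) ≤
      (if i = j then (Fintype.card A : ℝ) else 0) + β * Fintype.card A := by
    intro i hi j hj
    rw [mem_range] at hi hj
    rcases lt_trichotomy i j with h | h | h
    · rw [if_neg h.ne, zero_add]
      exact hlt i j h (by omega)
    · subst h
      rw [if_pos rfl]
      have h1 : ∑ g, f (g * y ^ i) * f (g * y ^ i) = ∑ g, f g ^ 2 := by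
        rw [← Equiv.sum_comp (Equiv.mulRight (y ^ i)) (fun g => f g ^ 2)]
        refine sum_congr rfl fun g _ => ?_
        simp only [Equiv.coe_mulRight]
        ring
      rw [h1]
      have : 0 ≤ β * Fintype.card A := by positivity
      linarith
    · rw [if_neg h.ne', zero_add]
      have h1 := hlt j i h (by omega)
      refine le_trans (le_of_eq ?_) h1
      exact sum_congr rfl fun g _ => mul_comm _ _
  have hS : ∑ g, (∑ i ∈ range (M + 1), f (g * y ^ i)) ^ 2 ≤
      Fintype.card A * (((M : ℝ) + 1) + ((M : ℝ) + 1) ^ 2 * β) := by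
    calc ∑ g, (∑ i ∈ range (M + 1), f (g * y ^ i)) ^ 2
        = ∑ i ∈ range (M + 1), ∑ j ∈ range (M + 1), ∑ g, f (g * y ^ i) * f (g * y ^ j) := by
          simp only [sq, sum_mul_sum]
          rw [sum_comm]
          refine sum_congr rfl fun i _ => ?_
          rw [sum_comm]
      _ ≤ ∑ i ∈ range (M + 1), ∑ j ∈ range (M + 1),
          ((if i = j then (Fintype.card A : ℝ) else 0) + β * Fintype.card A) :=
          sum_le_sum fun i hi => sum_le_sum fun j hj => hij i hi j hj
      _ = _ := by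
          simp only [sum_add_distrib, sum_ite_eq, sum_const, card_range, nsmul_eq_mul]
          rw [sum_ite_mem, inter_self, sum_const, card_range, nsmul_eq_mul]
          push_cast
          ring
  refine le_trans ?_ hS
  calc (#{g : A | ¬ ∃ i ≤ M, g * y ^ i ∈ E} : ℝ) * (((M : ℝ) + 1) ^ 2 * c ^ 2)
      = ∑ _g ∈ ({g : A | ¬ ∃ i ≤ M, g * y ^ i ∈ E} : Finset A), (((M : ℝ) + 1) ^ 2 * c ^ 2) := by
        rw [sum_const, nsmul_eq_mul]
    _ ≤ ∑ g ∈ ({g : A | ¬ ∃ i ≤ M, g * y ^ i ∈ E} : Finset A),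
          (∑ i ∈ range (M + 1), f (g * y ^ i)) ^ 2 := by
        refine sum_le_sum fun g hg => ?_
        have hg' := (mem_filter.1 hg).2
        have h1 : ∑ i ∈ range (M + 1), f (g * y ^ i) = -(((M : ℝ) + 1) * d) := by
          have h2 : ∀ i ∈ range (M + 1), f (g * y ^ i) = -d := by
            intro i hi
            rw [mem_range] at hi
            simp only [hf]
            rw [if_neg (fun h => hg' ⟨i, by omega, h⟩), zero_sub]
          rw [sum_congr rfl h2, sum_const, card_range, nsmul_eq_mul]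
          push_cast
          ring
        rw [h1, neg_sq, mul_pow]
        apply mul_le_mul_of_nonneg_left _ (by positivity)
        exact pow_le_pow_left₀ hc.le hdc 2
    _ ≤ ∑ g, (∑ i ∈ range (M + 1), f (g * y ^ i)) ^ 2 :=
        sum_le_sum_of_subset_of_nonneg (subset_univ _) fun g _ _ => sq_nonneg _

theorem num (b : ℝ) (hb : 0 < b) (δ : ℝ) (hδ : 0 < δ) : ∀ᶠ n : ℕ in atTop,
    1 / Real.log n + (n : ℝ) ^ (-b) ≤ δ ∧ Real.log n ≤ (n : ℝ) ^ (1 / 8 : ℝ) ∧ 1 ≤ Real.log n := by
  have h1 : Tendsto (fun n : ℕ => Real.log n) atTop atTop :=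
    Real.tendsto_log_atTop.comp tendsto_natCast_atTop_atTop
  have h2 : Tendsto (fun n : ℕ => 1 / Real.log n) atTop (𝓝 0) :=
    tendsto_const_nhds.div_atTop h1
  have h3 : Tendsto (fun n : ℕ => (n : ℝ) ^ (-b)) atTop (𝓝 0) :=
    (tendsto_rpow_neg_atTop hb).comp tendsto_natCast_atTop_atTop
  have h4 : Tendsto (fun n : ℕ => 1 / Real.log n + (n : ℝ) ^ (-b)) atTop (𝓝 0) := by
    simpa using h2.add h3
  have h5 := (isLittleO_log_rpow_atTop (by norm_num : (0 : ℝ) < 1 / 8)).bound (c := 1) one_pos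
  have h6 := tendsto_natCast_atTop_atTop.eventually h5
  filter_upwards [h4.eventually_le_const hδ, h6, h1.eventually_ge_atTop 1] with n a1 a2 a3
  refine ⟨a1, ?_, a3⟩
  rw [one_mul, Real.norm_eq_abs, Real.norm_eq_abs, abs_of_nonneg (by linarith),
    abs_of_nonneg (by positivity)] at a2
  exact a2

end SEC

open SEC

open Classical in
theorem t_SEC : S_RAT → S_VAR → S_FF → S_SEC := by
  rintro ⟨b, hb, hR⟩ hV hF c hc e he
  have hF' := hF 2 (1 / 8) (1 / 2) (by norm_num) (by norm_num) (by norm_num) (by norm_num) (e / 2)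
    (by positivity)
  filter_upwards [hR, hF', num b hb (c ^ 2 * (e / 2)) (by positivity)] with n hRn hFn hn
  obtain ⟨hn1, hn2, hn3⟩ := hn
  intro E hE hcE
  set M : ℕ := ⌊Real.log n⌋₊ with hM
  have hA : (0 : ℝ) < Fintype.card (Alt n) := by exact_mod_cast Fintype.card_pos
  let good : Alt n → Prop := fun y => ∀ i : ℕ, 1 ≤ i → i ≤ M →
    nfix ((y ^ i : Alt n) : Equiv.Perm (Fin n)) ≤ ⌈(n : ℝ) ^ (1 / 2 : ℝ)⌉₊
  have hgood : ∀ x : Fin 2 → Alt n, FewFixK n ⌊(n : ℝ) ^ (1 / 8 : ℝ)⌋₊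
      ⌈(n : ℝ) ^ (1 / 2 : ℝ)⌉₊ (fun i => (x i : Equiv.Perm (Fin n))) → good (x 1) := by
    intro x hx i hi hiM
    have h0 : (FreeGroup.of (1 : Fin 2) ^ i).norm = i := FreeGroup.norm_of_pow _ _
    have h1 := hx (FreeGroup.of 1 ^ i) (by
      intro h
      rw [h, FreeGroup.norm_one] at h0
      omega) (by
      rw [h0]
      exact hiM.trans (Nat.floor_mono hn2))
    rw [map_pow, FreeGroup.lift_apply_of] at h1
    exact h1.le
  have hbad : ∀ y, good y → (#{g : Alt n | ¬ ∃ i ≤ M, g * y ^ i ∈ E} : ℝ) ≤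
      Fintype.card (Alt n) * (e / 2) := by
    intro y hy
    have h := sec_core E hE c ((n : ℝ) ^ (-b)) hc (by positivity) hcE y M
      (fun i hi hiM f hf1 hf2 => hV n (y ^ i) _ (by positivity) (hRn (y ^ i) (hy i hi hiM)) f hf1 hf2)
    set X : ℝ := (#{g : Alt n | ¬ ∃ i ≤ M, g * y ^ i ∈ E} : ℝ) with hX
    have hM1 : Real.log n ≤ (M : ℝ) + 1 := (Nat.lt_floor_add_one _).le
    have hM0 : (0 : ℝ) < (M : ℝ) + 1 := by positivity
    have h2 : 1 / ((M : ℝ) + 1) ≤ 1 / Real.log n :=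
      one_div_le_one_div_of_le (by linarith) hM1
    have h3 : X * c ^ 2 ≤ Fintype.card (Alt n) * (1 / ((M : ℝ) + 1) + (n : ℝ) ^ (-b)) := by
      have h4 : (X * c ^ 2) * ((M : ℝ) + 1) ^ 2 ≤
          (Fintype.card (Alt n) * (1 / ((M : ℝ) + 1) + (n : ℝ) ^ (-b))) * ((M : ℝ) + 1) ^ 2 := by
        refine le_trans (le_of_eq (by ring)) (h.trans (le_of_eq ?_))
        field_simp
      exact le_of_mul_le_mul_right h4 (by positivity)
    have h5 : X * c ^ 2 ≤ (Fintype.card (Alt n) * (e / 2)) * c ^ 2 := by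
      refine h3.trans ?_
      calc (Fintype.card (Alt n) : ℝ) * (1 / ((M : ℝ) + 1) + (n : ℝ) ^ (-b))
          ≤ Fintype.card (Alt n) * (c ^ 2 * (e / 2)) := by
            apply mul_le_mul_of_nonneg_left _ hA.le
            linarith
        _ = _ := by ring
    exact le_of_mul_le_mul_right h5 (by positivity)
  -- counting
  rw [Nat.card_eq_fintype_card, Fintype.card_subtype]
  rw [Nat.card_eq_fintype_card, Fintype.card_subtype] at hFn
  set F1 : Finset (Fin 2 → Alt n) := univ.filter fun x => ¬ FewFixK n ⌊(n : ℝ) ^ (1 / 8 : ℝ)⌋₊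
      ⌈(n : ℝ) ^ (1 / 2 : ℝ)⌉₊ (fun i => (x i : Equiv.Perm (Fin n))) with hF1
  set F2 : Finset (Fin 2 → Alt n) := univ.filter fun x => good (x 1) ∧
      ¬ ∃ i ≤ M, x 0 * x 1 ^ i ∈ E with hF2
  have hsub : (univ.filter fun x : Fin 2 → Alt n => ¬ ∃ i ≤ M, x 0 * x 1 ^ i ∈ E) ⊆ F1 ∪ F2 := by
    intro x hx
    have hx' := (mem_filter.1 hx).2
    by_cases h : FewFixK n ⌊(n : ℝ) ^ (1 / 8 : ℝ)⌋₊
      ⌈(n : ℝ) ^ (1 / 2 : ℝ)⌉₊ (fun i => (x i : Equiv.Perm (Fin n)))
    · exact mem_union_right _ (mem_filter.2 ⟨mem_univ _, hgood x h, hx'⟩)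
    · exact mem_union_left _ (mem_filter.2 ⟨mem_univ _, h⟩)
  have hc2 : (#F2 : ℝ) ≤ (e / 2) * (Fintype.card (Alt n) : ℝ) ^ 2 := by
    rw [card_eq_sum_card_fiberwise (f := fun x : Fin 2 → Alt n => x 1) (t := univ)
      (fun x _ => mem_univ _)]
    push_cast
    calc ∑ y : Alt n, (#{x ∈ F2 | x 1 = y} : ℝ) ≤
          ∑ _y : Alt n, (Fintype.card (Alt n) : ℝ) * (e / 2) := by
          refine sum_le_sum fun y _ => ?_
          by_cases hy : good y
          · refine le_trans ?_ (hbad y hy)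
            have h1 : #{x ∈ F2 | x 1 = y} ≤ #{g : Alt n | ¬ ∃ i ≤ M, g * y ^ i ∈ E} := by
              refine card_le_card_of_injOn (fun x => x 0) ?_ ?_
              · intro x hx
                have hx1 := mem_filter.1 hx
                have hx2 := (mem_filter.1 hx1.1).2.2
                rw [hx1.2] at hx2
                exact mem_filter.2 ⟨mem_univ _, hx2⟩
              · intro x hx x' hx' h
                have hx1 := (mem_filter.1 hx).2
                have hx2 := (mem_filter.1 hx').2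
                funext i
                fin_cases i
                · exact h
                · exact hx1.trans hx2.symm
            exact_mod_cast h1
          · have h1 : #{x ∈ F2 | x 1 = y} = 0 := by
              rw [card_eq_zero, filter_eq_empty_iff]
              intro x hx h
              apply hy
              rw [← h]
              exact (mem_filter.1 hx).2.1
            rw [h1]
            push_cast
            positivity
      _ = (e / 2) * (Fintype.card (Alt n) : ℝ) ^ 2 := by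
          rw [sum_const, card_univ, nsmul_eq_mul]
          ring
  have h1 : (#(univ.filter fun x : Fin 2 → Alt n => ¬ ∃ i ≤ M, x 0 * x 1 ^ i ∈ E) : ℝ) ≤
      #F1 + #F2 := by
    exact_mod_cast (card_le_card hsub).trans (card_union_le _ _)
  calc _ ≤ (#F1 : ℝ) + #F2 := h1
    _ ≤ (e / 2) * (Fintype.card (Alt n) : ℝ) ^ 2 + (e / 2) * (Fintype.card (Alt n) : ℝ) ^ 2 :=
        add_le_add hFn hc2
    _ = e * (Fintype.card (Alt n) : ℝ) ^ 2 := by ring

end P2516
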