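import Pool.Agent.U516.P2.Spec
import Pool.Agent.U516.RD.Cls

/-!
Package VAR of the project P2 (helper324 for helper516): correlation of a class function on the
alternating group with its translate by `z`.
-/

namespace P2516
open RC14 RD516 Finset
open scoped InnerProductSpace

noncomputable section

/-- the real part of the operator of `z` -/
def Az {n : ℕ} {W : Type} [NormedAddCommGroup W] [InnerProductSpace ℂ W]
    (ρ : Alt n →* (W ≃ₗᵢ[ℂ] W)) (z : Alt n) : Module.End ℂ W :=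
  (1 / 2 : ℂ) • (op ρ z + op ρ z⁻¹)

lemma Az_apply {n : ℕ} {W : Type} [NormedAddCommGroup W] [InnerProductSpace ℂ W]
    (ρ : Alt n →* (W ≃ₗᵢ[ℂ] W)) (z : Alt n) (w : W) :
    Az ρ z w = (1 / 2 : ℂ) • (ρ z w + ρ z⁻¹ w) := rfl

lemma Az_res {n : ℕ} (ρ : Alt n →* (FA n ≃ₗᵢ[ℂ] FA n)) (W : Submodule ℂ (FA n)) (hW : Inv ρ W)
    (z : Alt n) (w : W) : ((Az (res ρ W hW) z w : W) : FA n) = Az ρ z w := by
  rw [Az_apply, Az_apply, Submodule.coe_smul, Submodule.coe_add]
  rfl

lemma Az_symm {n : ℕ} (ρ : Alt n →* (FA n ≃ₗᵢ[ℂ] FA n)) (z : Alt n) : (Az ρ z).IsSymmetric := by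
  intro u v
  have h1 := inner_op ρ z u v
  have h2 := inner_op ρ z⁻¹ u v
  rw [inv_inv] at h2
  rw [op_apply, op_apply] at h1 h2
  rw [Az_apply, Az_apply, inner_smul_left, inner_smul_right, inner_add_left, inner_add_right,
    h1, h2, add_comm]
  have h3 : (starRingEnd ℂ) (1 / 2 : ℂ) = 1 / 2 := by
    rw [map_div₀, map_one]
    congr 1
    exact Complex.conj_ofNat 2
  rw [h3]

lemma rtr_inv {n : ℕ} {W : Type} [NormedAddCommGroup W] [InnerProductSpace ℂ W]
    [FiniteDimensional ℂ W] (ρ : Alt n →* (W ≃ₗᵢ[ℂ] W)) (z : Alt n) :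
    rtr (op ρ z⁻¹) = rtr (op ρ z) := by
  unfold rtr
  rw [LinearMap.trace_eq_sum_inner (op ρ z⁻¹) (stdOrthonormalBasis ℂ W),
    LinearMap.trace_eq_sum_inner (op ρ z) (stdOrthonormalBasis ℂ W), Complex.re_sum,
    Complex.re_sum]
  refine Finset.sum_congr rfl fun i _ => ?_
  generalize stdOrthonormalBasis ℂ W i = b
  rw [op_apply, op_apply]
  have h1 : ρ z (ρ z⁻¹ b) = b := by
    have h := congrArg (fun A : Module.End ℂ W => A b)
      (show op ρ z * op ρ z⁻¹ = 1 by rw [← op_mul, mul_inv_cancel, op_one])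
    exact h
  have h2 : ⟪b, ρ z⁻¹ b⟫_ℂ = ⟪ρ z b, b⟫_ℂ := by
    calc ⟪b, ρ z⁻¹ b⟫_ℂ = ⟪ρ z b, ρ z (ρ z⁻¹ b)⟫_ℂ := ((ρ z).inner_map_map _ _).symm
      _ = ⟪ρ z b, b⟫_ℂ := by rw [h1]
  rw [h2, ← inner_conj_symm, Complex.conj_re]

lemma rtr_Az {n : ℕ} {W : Type} [NormedAddCommGroup W] [InnerProductSpace ℂ W]
    [FiniteDimensional ℂ W] (ρ : Alt n →* (W ≃ₗᵢ[ℂ] W)) (z : Alt n) :
    rtr (Az ρ z) ≤ ‖chr ρ z‖ := by
  have h1 := rtr_inv ρ z
  have h2 : rtr (Az ρ z) = (1 / 2 : ℝ) * (rtr (op ρ z) + rtr (op ρ z⁻¹)) := by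
    unfold rtr Az
    rw [map_smul, map_add, smul_eq_mul, ← Complex.add_re]
    have h3 : (1 / 2 : ℂ) = ((1 / 2 : ℝ) : ℂ) := by push_cast; rfl
    rw [h3, Complex.re_ofReal_mul]
  rw [h2, h1]
  have h4 : rtr (op ρ z) ≤ ‖chr ρ z‖ := Complex.re_le_norm _
  linarith

/-- the quadratic form of the conjugation average is bounded on functions of sum zero -/
theorem cavgz_le {n : ℕ} (z : Alt n) (β : ℝ)
    (hx : ∀ (V : Type) [NormedAddCommGroup V] [InnerProductSpace ℂ V] [FiniteDimensional ℂ V]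
      (ρ : Alt n →* (V ≃ₗᵢ[ℂ] V)), Irr ρ ⊤ → (∃ g v, ρ g v ≠ v) →
      ‖chr ρ z‖ ≤ β * Module.finrank ℂ V) (v : FA n) (hv : v ∈ V0 n) :
    (⟪cavg (RR n) (Az (RR n) z) v, v⟫_ℂ).re ≤ Fintype.card (Alt n) * β * ‖v‖ ^ 2 := by
  classical
  set A := Az (RR n) z with hAdef
  have hA : A.IsSymmetric := Az_symm (RR n) z
  set B := cavg (RR n) A with hB
  have hBs : B.IsSymmetric := cavg_symm _ _ hA
  -- invariance of `V0`
  have hop : ∀ h : Alt n, ∀ v ∈ V0 n, op (RR n) h v ∈ V0 n := fun h v hv => V0_inv h v hv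
  have hAV : ∀ v ∈ V0 n, A v ∈ V0 n := by
    intro v hv
    rw [hAdef, ← Az_res (RR n) (V0 n) V0_inv z ⟨v, hv⟩]
    exact Subtype.mem _
  have hBV : ∀ v ∈ V0 n, B v ∈ V0 n := by
    intro v hv
    rw [hB]
    unfold cavg
    rw [LinearMap.sum_apply]
    refine Submodule.sum_mem _ fun h _ => ?_
    exact hop _ _ (hAV _ (hop _ _ hv))
  have hB0s := hBs.restrict_invariant hBV
  generalize hB0 : LinearMap.restrict B hBV = B0 at hB0s
  have hB0v : ∀ w : V0 n, ((B0 w : V0 n) : FA n) = B w := fun w => by rw [← hB0]; rfl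
  set c : ℝ := Fintype.card (Alt n) * β with hc
  -- every eigenvalue of `B0` is at most `c`
  have heig : ∀ i, hB0s.eigenvalues rfl i ≤ c := by
    intro i
    set lam := hB0s.eigenvalues rfl i with hlam
    have hbi : B0 (hB0s.eigenvectorBasis rfl i) = (lam : ℂ) • hB0s.eigenvectorBasis rfl i :=
      hB0s.apply_eigenvectorBasis rfl i
    set w0 := hB0s.eigenvectorBasis rfl i with hw0
    have hw0ne : (w0 : FA n) ≠ 0 := by
      intro h
      have h1 : ‖w0‖ = 1 := (hB0s.eigenvectorBasis rfl).norm_eq_one i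
      have h2 : w0 = 0 := Subtype.ext h
      rw [h2, norm_zero] at h1
      exact zero_ne_one h1
    let U : Submodule ℂ (FA n) := V0 n ⊓ LinearMap.ker (B - (lam : ℂ) • 1)
    have hUmem : ∀ v, v ∈ U ↔ v ∈ V0 n ∧ B v = (lam : ℂ) • v := by
      intro v
      rw [Submodule.mem_inf, LinearMap.mem_ker, LinearMap.sub_apply, sub_eq_zero]
      rfl
    have hUinv : Inv (RR n) U := by
      intro g v hv
      rw [hUmem] at hv ⊢
      refine ⟨V0_inv g v hv.1, ?_⟩
      have h1 := congrArg (fun F : Module.End ℂ (FA n) => F v) (cavg_comm (RR n) A g)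
      change op (RR n) g (B v) = B (op (RR n) g v) at h1
      change B (op (RR n) g v) = _
      rw [← h1, hv.2, map_smul]
      rfl
    have hU0 : U ≠ ⊥ := by
      intro h
      apply hw0ne
      have h1 : (w0 : FA n) ∈ U := by
        rw [hUmem]
        refine ⟨w0.2, ?_⟩
        have := congrArg Subtype.val hbi
        rw [hB0v] at this
        exact this
      rw [h, Submodule.mem_bot] at h1
      exact h1
    obtain ⟨W, hW, hWU⟩ := DECOMP.exists_irr (RR n) U hUinv hU0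
    set ρ' := res (RR n) W hW.2.1 with hρ'
    have hirr : Irr ρ' ⊤ := AMP1.irr_res (RR n) W hW
    have hnt : ∃ g v, ρ' g v ≠ v := by
      by_contra hcon
      push Not at hcon
      apply hW.1
      rw [Submodule.eq_bot_iff]
      intro w hw
      have h1 : ∀ g : Alt n, RR n g w = w := fun g => congrArg Subtype.val (hcon g ⟨w, hw⟩)
      have h2 : ∀ g : Alt n, w g = w 1 := by
        intro g
        have h3 := congrArg (fun u : FA n => u 1) (h1 g)
        simp only [RR_apply, one_mul] at h3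
        exact h3
      have h3 : ∑ g, w g = 0 := ((hUmem w).1 (hWU hw)).1
      rw [Finset.sum_congr rfl fun g _ => h2 g, Finset.sum_const, Finset.card_univ,
        nsmul_eq_mul] at h3
      have h4 : w 1 = 0 := by
        rcases mul_eq_zero.1 h3 with h | h
        · exact absurd h (by exact_mod_cast Fintype.card_ne_zero)
        · exact h
      ext g
      rw [h2 g, h4]
      rfl
    have hfew := hx W ρ' hirr hnt
    have htr : rtr (Az ρ' z) ≤ β * Module.finrank ℂ W := (rtr_Az ρ' z).trans hfew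
    have hBW : cavg ρ' (Az ρ' z) = (lam : ℂ) • 1 := by
      apply LinearMap.ext
      intro w
      apply Subtype.ext
      have h1 : ((cavg ρ' (Az ρ' z) w : W) : FA n) = B w := by
        unfold cavg
        rw [LinearMap.sum_apply, hB]
        unfold cavg
        rw [LinearMap.sum_apply, Submodule.coe_sum]
        refine Finset.sum_congr rfl fun h _ => ?_
        change RR n h (((Az ρ' z) (ρ' h⁻¹ w) : W) : FA n) = _
        rw [Az_res]
        rfl
      rw [h1, ((hUmem w).1 (hWU w.2)).2]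
      rfl
    have h5 := cavg_trace ρ' (Az ρ' z)
    have h6 : rtr ((lam : ℂ) • (1 : Module.End ℂ W)) = lam * Module.finrank ℂ W := by
      unfold rtr
      rw [map_smul, LinearMap.trace_one, smul_eq_mul, Complex.re_ofReal_mul, Complex.natCast_re]
    rw [hBW, h6] at h5
    have hd : (0 : ℝ) < Module.finrank ℂ W := by
      have : 0 < Module.finrank ℂ W := by
        rw [Module.finrank_pos_iff_exists_ne_zero]
        obtain ⟨w, hw, hw0⟩ := Submodule.exists_mem_ne_zero_of_ne_bot hW.1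
        exact ⟨⟨w, hw⟩, fun h => hw0 (congrArg Subtype.val h)⟩
      exact_mod_cast this
    have h7 : lam * Module.finrank ℂ W ≤ c * Module.finrank ℂ W := by
      rw [h5, hc, mul_assoc]
      exact mul_le_mul_of_nonneg_left htr (Nat.cast_nonneg _)
    exact le_of_mul_le_mul_right h7 hd
  -- conclusion
  have h1 : (⟪B v, v⟫_ℂ).re = (⟪B0 ⟨v, hv⟩, (⟨v, hv⟩ : V0 n)⟫_ℂ).re := by
    rw [← hB0]
    rfl
  have h3 := quad_eigen (V := V0 n) B0 hB0s rfl ⟨v, hv⟩
  have h2 : ‖v‖ ^ 2 = ‖(⟨v, hv⟩ : V0 n)‖ ^ 2 := rfl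
  refine h1.trans_le (h3.trans_le ?_)
  rw [h2, ← ((hB0s.eigenvectorBasis rfl).sum_sq_norm_inner_right (⟨v, hv⟩ : V0 n)), Finset.mul_sum]
  exact Finset.sum_le_sum fun i _ => mul_le_mul_of_nonneg_right (heig i) (by positivity)

lemma Az_LTr {n : ℕ} (z h : Alt n) (v : FA n) :
    Az (RR n) z (LTr h v) = LTr h (Az (RR n) z v) := by
  rw [Az_apply, Az_apply]
  ext g
  rw [LTr_apply]
  simp only [PiLp.smul_apply, PiLp.add_apply, RR_apply, LTr_apply, mul_assoc]

/-- package VAR -/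
theorem t_VAR : S_VAR := by
  intro n z β hβ hx f hcl h0
  set F : FA n := WithLp.toLp 2 fun g => (f g : ℂ) with hF
  have hFa : ∀ g, F g = (f g : ℂ) := fun g => rfl
  have hcl' : ∀ g h : Alt n, F (g * h) = F (h * g) := by
    intro g h
    rw [hFa, hFa, hcl]
  have h0' : F ∈ V0 n := by
    rw [mem_V0]
    simp only [hFa]
    rw [← Complex.ofReal_sum, h0, Complex.ofReal_zero]
  have h1 := cavgz_le z β hx F h0'
  have h2 : ⟪cavg (RR n) (Az (RR n) z) F, F⟫_ℂ =
      (Fintype.card (Alt n) : ℂ) * ⟪Az (RR n) z F, F⟫_ℂ := by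
    unfold cavg
    rw [LinearMap.sum_apply, sum_inner]
    have h3 : ∀ h : Alt n, ⟪(op (RR n) h * Az (RR n) z * op (RR n) h⁻¹) F, F⟫_ℂ =
        ⟪Az (RR n) z F, F⟫_ℂ := by
      intro h
      have h4 : op (RR n) h⁻¹ F = LTr h F := by
        ext g
        rw [LTr_apply, ← hcl']
        exact RR_apply _ _ _
      rw [Module.End.mul_apply, Module.End.mul_apply, inner_op, h4, Az_LTr, inner_LTr]
    rw [Finset.sum_congr rfl fun h _ => h3 h, Finset.sum_const, Finset.card_univ, nsmul_eq_mul]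
  have hN : (0 : ℝ) < Fintype.card (Alt n) := by exact_mod_cast Fintype.card_pos
  rw [h2] at h1
  have h5 : ((Fintype.card (Alt n) : ℂ) * ⟪Az (RR n) z F, F⟫_ℂ).re =
      (Fintype.card (Alt n) : ℝ) * (⟪Az (RR n) z F, F⟫_ℂ).re := by
    rw [← Complex.ofReal_natCast, Complex.re_ofReal_mul]
  rw [h5, mul_assoc] at h1
  have h6 := le_of_mul_le_mul_left h1 hN
  have h7 : ‖F‖ ^ 2 = ∑ g, f g ^ 2 := by
    rw [EuclideanSpace.norm_sq_eq]
    refine Finset.sum_congr rfl fun g _ => ?_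
    rw [hFa, Complex.norm_real, Real.norm_eq_abs, sq_abs]
  have h8 : (⟪Az (RR n) z F, F⟫_ℂ).re = ∑ g, f g * f (g * z) := by
    rw [PiLp.inner_apply, Complex.re_sum]
    have h9 : ∀ g, (⟪(Az (RR n) z F) g, F g⟫_ℂ).re =
        (1 / 2) * (f g * f (g * z)) + (1 / 2) * (f (g * z⁻¹) * f g) := by
      intro g
      have h10 : (Az (RR n) z F) g = (((1 / 2) * (f (g * z) + f (g * z⁻¹)) : ℝ) : ℂ) := by
        rw [Az_apply, PiLp.smul_apply, PiLp.add_apply, RR_apply, RR_apply, hFa, hFa, smul_eq_mul]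
        push_cast
        rfl
      rw [h10, hFa, RCLike.inner_apply, Complex.conj_ofReal, ← Complex.ofReal_mul,
        Complex.ofReal_re]
      ring
    rw [Finset.sum_congr rfl fun g _ => h9 g, Finset.sum_add_distrib, ← Finset.mul_sum,
      ← Finset.mul_sum]
    have h11 : ∑ g, f (g * z⁻¹) * f g = ∑ g, f g * f (g * z) := by
      rw [← Equiv.sum_comp (Equiv.mulRight z) fun g => f (g * z⁻¹) * f g]
      refine Finset.sum_congr rfl fun g _ => ?_
      rw [Equiv.coe_mulRight, mul_inv_cancel_right]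
    rw [h11]
    ring
  rw [h8, h7] at h6
  exact h6

end

end P2516
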