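import Pool.Agent.U516.P2.Spec

/-!
Project P2: adaptive exploration of `k` independent uniform permutations.
-/

namespace P2516X
open RC14 P2516 Finset Filter Topology

noncomputable section

variable {n k : ℕ}

lemma hist_congr (σ : List (Fin n) → Fin k × Fin n) (x y : Fin k → Equiv.Perm (Fin n)) (M : ℕ)
    (h : ∀ l < M, y (σ (hist x σ l)).1 (σ (hist x σ l)).2 = x (σ (hist x σ l)).1 (σ (hist x σ l)).2) :
    ∀ l ≤ M, hist y σ l = hist x σ l := by
  intro l
  induction l with
  | zero => intro _; rfl
  | succ l ih =>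
    intro hl
    have h1 := ih (by omega)
    show y (σ (hist y σ l)).1 (σ (hist y σ l)).2 :: hist y σ l =
      x (σ (hist x σ l)).1 (σ (hist x σ l)).2 :: hist x σ l
    rw [h1, h l (by omega)]

lemma hist_length (σ : List (Fin n) → Fin k × Fin n) (x : Fin k → Equiv.Perm (Fin n)) (M : ℕ) :
    (hist x σ M).length = M := by
  induction M with
  | zero => rfl
  | succ M ih => show (_ :: _).length = _; rw [List.length_cons, ih]

lemma hist_eq_of (σ : List (Fin n) → Fin k × Fin n) (x y : Fin k → Equiv.Perm (Fin n)) (M : ℕ)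
    (h : hist y σ M = hist x σ M) : (∀ l ≤ M, hist y σ l = hist x σ l) ∧
      ∀ l < M, y (σ (hist x σ l)).1 (σ (hist x σ l)).2 = x (σ (hist x σ l)).1 (σ (hist x σ l)).2 := by
  induction M with
  | zero => exact ⟨fun l hl => by obtain rfl : l = 0 := by omega
                                  exact h, fun l hl => by omega⟩
  | succ M ih =>
    have h' : y (σ (hist y σ M)).1 (σ (hist y σ M)).2 :: hist y σ M =
      x (σ (hist x σ M)).1 (σ (hist x σ M)).2 :: hist x σ M := h
    rw [List.cons.injEq] at h'
    obtain ⟨h1, h2⟩ := ih h'.2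
    refine ⟨fun l hl => ?_, fun l hl => ?_⟩
    · rcases Nat.lt_or_ge l (M + 1) with hl' | hl'
      · exact h1 l (by omega)
      · obtain rfl : l = M + 1 := by omega
        exact h
    · rcases Nat.lt_or_ge l M with hl' | hl'
      · exact h2 l hl'
      · obtain rfl : l = M := by omega
        rw [h'.2] at h'
        exact h'.1

open Classical in
/-- the answers to the earlier queries with label `i` -/
def Rset (x : Fin k → Equiv.Perm (Fin n)) (σ : List (Fin n) → Fin k × Fin n) (M : ℕ)
    (i : Fin k) : Finset (Fin n) :=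
  ((range M).filter fun l => (σ (hist x σ l)).1 = i).image fun l => x i (σ (hist x σ l)).2

open Classical in
lemma key_count (σ : List (Fin n) → Fin k × Fin n) (M N : ℕ) (hMN : M ≤ N)
    (x0 : Fin k → Equiv.Perm (Fin n)) (hnew : NewQ x0 σ M) (v : Fin n) :
    ((n : ℝ) - N) * #{x : Fin k → Equiv.Perm (Fin n) | hist x σ M = hist x0 σ M ∧
        x (σ (hist x0 σ M)).1 (σ (hist x0 σ M)).2 = v} ≤
      #{x : Fin k → Equiv.Perm (Fin n) | hist x σ M = hist x0 σ M} := by
  set i := (σ (hist x0 σ M)).1 with hi
  set u := (σ (hist x0 σ M)).2 with hu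
  set R := Rset x0 σ M i with hR
  have hRc : #R ≤ N := by
    refine card_image_le.trans ((card_filter_le _ _).trans ?_)
    rw [card_range]; exact hMN
  set Sv : Fin n → Finset (Fin k → Equiv.Perm (Fin n)) := fun w =>
    univ.filter fun x => hist x σ M = hist x0 σ M ∧ x i u = w with hSv
  -- the class is the union of the `Sv w`
  have hsum : ∑ w ∈ univ \ R, #(Sv w) ≤
      #{x : Fin k → Equiv.Perm (Fin n) | hist x σ M = hist x0 σ M} := by
    rw [← card_biUnion]
    · refine card_le_card fun x hx => ?_
      rw [mem_biUnion] at hx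
      obtain ⟨w, -, hw⟩ := hx
      rw [hSv, mem_filter] at hw
      rw [mem_filter]
      exact ⟨mem_univ _, hw.2.1⟩
    · intro w _ w' _ hww
      rw [Function.onFun, disjoint_left]
      intro x hx hx'
      rw [hSv, mem_filter] at hx hx'
      exact hww (hx.2.2.symm.trans hx'.2.2)
  have hmem : ∀ x : Fin k → Equiv.Perm (Fin n), hist x σ M = hist x0 σ M → ∀ l < M,
      (σ (hist x0 σ l)).1 = i → x i (σ (hist x0 σ l)).2 ∈ R := by
    intro x hx l hl hli
    have h2 := (hist_eq_of σ x0 x M hx).2 l hl
    rw [hR, Rset, mem_image]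
    refine ⟨l, by rw [mem_filter, mem_range]; exact ⟨hl, hli⟩, ?_⟩
    rw [hli] at h2
    exact h2.symm
  by_cases hv : v ∈ R
  · -- no x at all
    have h0 : Sv v = ∅ := by
      rw [eq_empty_iff_forall_notMem]
      intro x hx
      rw [hSv, mem_filter] at hx
      rw [hR, Rset, mem_image] at hv
      obtain ⟨l, hl, hlv⟩ := hv
      rw [mem_filter, mem_range] at hl
      have h2 := (hist_eq_of σ x0 x M hx.2.1).2 l hl.1
      rw [hl.2] at h2
      have h3 : x i u = x i (σ (hist x0 σ l)).2 := by rw [hx.2.2, h2, hlv]
      have h4 := (x i).injective h3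
      exact hnew l hl.1 (Prod.ext (hl.2.trans hi) (h4.symm.trans hu))
    have h1 : #{x : Fin k → Equiv.Perm (Fin n) | hist x σ M = hist x0 σ M ∧ x i u = v} = 0 := by
      change #(Sv v) = 0
      rw [h0, card_empty]
    rw [h1]
    simp
  · have hle : ∀ w ∈ univ \ R, #(Sv v) ≤ #(Sv w) := by
      intro w hw
      have hw2 : w ∉ R := by simpa using hw
      refine card_le_card_of_injOn (fun x => Function.update x i (Equiv.swap v w * x i)) ?_ ?_
      · intro x hx
        rw [mem_coe, hSv, mem_filter] at hx
        rw [mem_coe, hSv, mem_filter]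
        refine ⟨mem_univ _, ?_, ?_⟩
        · rw [← hx.2.1]
          refine hist_congr σ x _ M (fun l hl => ?_) M le_rfl
          have hlx := (hist_eq_of σ x0 x M hx.2.1).1 l hl.le
          beta_reduce
          by_cases hli : (σ (hist x0 σ l)).1 = i
          · have h5 := hmem x hx.2.1 l hl hli
            rw [hlx, hli, Function.update_self, Equiv.Perm.mul_apply]
            exact Equiv.swap_apply_of_ne_of_ne (fun h => hv (h ▸ h5)) (fun h => hw2 (h ▸ h5))
          · rw [hlx, Function.update_of_ne hli]
        · beta_reduce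
          rw [Function.update_self, Equiv.Perm.mul_apply, hx.2.2, Equiv.swap_apply_left]
      · intro x _ y _ hxy
        funext j
        have h6 := congrFun hxy j
        by_cases hj : j = i
        · subst hj
          simp only [Function.update_self] at h6
          exact mul_left_cancel h6
        · simp only [Function.update_of_ne hj] at h6
          exact h6
    have h7 : #(univ \ R) * #(Sv v) ≤ ∑ w ∈ univ \ R, #(Sv w) := by
      rw [← smul_eq_mul]
      exact card_nsmul_le_sum _ _ _ hle
    have h8 : (n : ℝ) - N ≤ #(univ \ R) := by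
      have h9 := card_sdiff_add_card_inter (univ : Finset (Fin n)) R
      rw [univ_inter, card_univ, Fintype.card_fin] at h9
      have h10 : (n : ℝ) = #(univ \ R) + #R := by exact_mod_cast h9.symm
      have h11 : (#R : ℝ) ≤ N := by exact_mod_cast hRc
      linarith
    have h12 : (#(univ \ R) : ℝ) * #(Sv v) ≤
        #{x : Fin k → Equiv.Perm (Fin n) | hist x σ M = hist x0 σ M} := by
      exact_mod_cast h7.trans hsum
    exact (mul_le_mul_of_nonneg_right h8 (Nat.cast_nonneg _)).trans h12

open Classical in
theorem t_EXPLx : S_EXPL := by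
  intro n k N σ f0 f1 B hN hf
  set fac : (Fin k → Equiv.Perm (Fin n)) → ℕ → ℝ := fun x j =>
    (if NewQ x σ j then f1 (hist x σ j) (x (σ (hist x σ j)).1 (σ (hist x σ j)).2)
        else f0 (hist x σ j) (x (σ (hist x σ j)).1 (σ (hist x σ j)).2)) with hfac
  have hn0 : 0 < n := by omega
  have hNn : (0 : ℝ) < (n : ℝ) - N := by
    have : (N : ℝ) < n := by exact_mod_cast hN
    linarith
  have hfac0 : ∀ x, ∀ j < N, 0 ≤ fac x j := by
    intro x j hj
    have h1 := (hf j hj (hist x σ j) (hist_length σ x j)).1
      (x (σ (hist x σ j)).1 (σ (hist x σ j)).2)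
    rw [hfac]
    simp only
    split_ifs
    · exact h1.2.2
    · exact h1.1
  -- the factors depend only on the history
  have hnewc : ∀ x y M, hist y σ M = hist x σ M → ∀ j ≤ M, (NewQ y σ j ↔ NewQ x σ j) := by
    intro x y M h j hj
    have h1 := (hist_eq_of σ x y M h).1
    unfold NewQ
    constructor
    · intro h2 l hl
      have := h2 l hl
      rwa [h1 l (by omega), h1 j hj] at this
    · intro h2 l hl
      have := h2 l hl
      rwa [h1 l (by omega), h1 j hj]
  have hfacc : ∀ x y M, hist y σ M = hist x σ M → ∀ j < M, fac y j = fac x j := by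
    intro x y M h j hj
    obtain ⟨h1, h2⟩ := hist_eq_of σ x y M h
    have h3 := hnewc x y M h j hj.le
    rw [hfac]
    simp only [h3, h1 j hj.le, h2 j hj]
  -- one step
  have hstep : ∀ M < N, ∀ x0 : Fin k → Equiv.Perm (Fin n),
      ∑ x with hist x σ M = hist x0 σ M, fac x M ≤
        B M * #{x : Fin k → Equiv.Perm (Fin n) | hist x σ M = hist x0 σ M} := by
    intro M hM x0
    obtain ⟨hb, hs⟩ := hf M hM (hist x0 σ M) (hist_length σ x0 M)
    by_cases hnew : NewQ x0 σ M
    · have h1 : ∀ x ∈ univ.filter (fun x => hist x σ M = hist x0 σ M), fac x M =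
          ∑ v, if x (σ (hist x0 σ M)).1 (σ (hist x0 σ M)).2 = v then f1 (hist x0 σ M) v else 0 := by
        intro x hx
        rw [mem_filter] at hx
        rw [sum_ite_eq, if_pos (mem_univ _), hfac]
        simp only [(hnewc x0 x M hx.2 M le_rfl).2 hnew, if_true, hx.2]
      rw [sum_congr rfl h1, sum_comm]
      have h2 : ∀ v : Fin n, ∑ x with hist x σ M = hist x0 σ M,
          (if x (σ (hist x0 σ M)).1 (σ (hist x0 σ M)).2 = v then f1 (hist x0 σ M) v else 0) =
          f1 (hist x0 σ M) v * #{x : Fin k → Equiv.Perm (Fin n) | hist x σ M = hist x0 σ M ∧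
            x (σ (hist x0 σ M)).1 (σ (hist x0 σ M)).2 = v} := by
        intro v
        rw [← sum_filter, filter_filter, sum_const, nsmul_eq_mul, mul_comm]
      rw [sum_congr rfl fun v _ => h2 v]
      set S : ℝ := (#{x : Fin k → Equiv.Perm (Fin n) | hist x σ M = hist x0 σ M} : ℝ) with hS
      have h3 : ∀ v ∈ (univ : Finset (Fin n)), f1 (hist x0 σ M) v *
          #{x : Fin k → Equiv.Perm (Fin n) | hist x σ M = hist x0 σ M ∧
            x (σ (hist x0 σ M)).1 (σ (hist x0 σ M)).2 = v} ≤
          f1 (hist x0 σ M) v * (S / ((n : ℝ) - N)) := by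
        intro v _
        refine mul_le_mul_of_nonneg_left ?_ (hb v).2.2
        rw [le_div_iff₀ hNn, mul_comm]
        exact key_count σ M N hM.le x0 hnew v
      refine (sum_le_sum h3).trans ?_
      rw [← sum_mul, mul_div_assoc', div_le_iff₀ hNn]
      have h4 : (0 : ℝ) ≤ S := Nat.cast_nonneg _
      calc (∑ v, f1 (hist x0 σ M) v) * S ≤ (((n : ℝ) - N) * B M) * S := by gcongr
        _ = B M * S * ((n : ℝ) - N) := by ring
    · have h1 : ∀ x ∈ univ.filter (fun x => hist x σ M = hist x0 σ M), fac x M ≤ B M := by
        intro x hx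
        rw [mem_filter] at hx
        have h2 : ¬ NewQ x σ M := fun h => hnew ((hnewc x0 x M hx.2 M le_rfl).1 h)
        rw [hfac]
        simp only [h2, if_false, hx.2]
        exact (hb _).2.1
      refine (sum_le_sum h1).trans ?_
      rw [sum_const, nsmul_eq_mul, mul_comm]
  -- induction
  have hmain : ∀ M ≤ N, ∑ x, ∏ j ∈ range M, fac x j ≤
      (n.factorial : ℝ) ^ k * ∏ j ∈ range M, B j := by
    intro M
    induction M with
    | zero =>
      intro _
      simp [Fintype.card_perm]
    | succ M ih =>
      intro hM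
      have h1 := ih (by omega)
      have hBM : 0 ≤ B M := by
        have h2 := hf M (by omega) (hist (fun _ => 1) σ M) (hist_length σ _ M)
        have h3 := h2.1 ⟨0, hn0⟩
        exact h3.1.trans h3.2.1
      have h2 : ∑ x, ∏ j ∈ range (M + 1), fac x j ≤ B M * ∑ x, ∏ j ∈ range M, fac x j := by
        rw [← sum_fiberwise_of_maps_to (s := univ) (t := univ.image fun x => hist x σ M)
          (g := fun x => hist x σ M) (fun x _ => mem_image_of_mem _ (mem_univ x)),
          ← sum_fiberwise_of_maps_to (s := univ) (t := univ.image fun x => hist x σ M)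
          (g := fun x => hist x σ M) (fun x _ => mem_image_of_mem _ (mem_univ x)), mul_sum]
        refine sum_le_sum fun h hh => ?_
        rw [mem_image] at hh
        obtain ⟨x0, -, rfl⟩ := hh
        have h3 : ∀ x ∈ univ.filter (fun x => hist x σ M = hist x0 σ M),
            ∏ j ∈ range (M + 1), fac x j = (∏ j ∈ range M, fac x0 j) * fac x M := by
          intro x hx
          rw [mem_filter] at hx
          rw [prod_range_succ]
          congr 1
          exact prod_congr rfl fun j hj => hfacc x0 x M hx.2 j (mem_range.1 hj)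
        have h4 : ∀ x ∈ univ.filter (fun x => hist x σ M = hist x0 σ M),
            ∏ j ∈ range M, fac x j = ∏ j ∈ range M, fac x0 j := by
          intro x hx
          rw [mem_filter] at hx
          exact prod_congr rfl fun j hj => hfacc x0 x M hx.2 j (mem_range.1 hj)
        rw [sum_congr rfl h3, sum_congr rfl h4, ← mul_sum, sum_const, nsmul_eq_mul]
        have h5 : 0 ≤ ∏ j ∈ range M, fac x0 j :=
          prod_nonneg fun j hj => hfac0 x0 j (by have := mem_range.1 hj; omega)
        calc _ ≤ (∏ j ∈ range M, fac x0 j) *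
              (B M * #{x : Fin k → Equiv.Perm (Fin n) | hist x σ M = hist x0 σ M}) :=
              mul_le_mul_of_nonneg_left (hstep M (by omega) x0) h5
          _ = _ := by ring
      refine h2.trans ((mul_le_mul_of_nonneg_left h1 hBM).trans (le_of_eq ?_))
      rw [prod_range_succ]
      ring
  exact hmain N le_rfl

end

end P2516X
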