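import Pool.Agent.U516.P2.Spec

/-!
Project P2, package CNT (helper122): the number of `x` for which all the walks are closed.
-/

namespace P2516
open RC14 RD516 R3516 Finset Filter Topology
open Pool.Agent.R236.Den

noncomputable section

theorem cnt_num (n r m : ℕ) (hm : 1 ≤ m) (hr : 1 ≤ r) (hn : 8 * m ^ 2 * r ≤ n) :
    ((n : ℝ) / (n - (2 * m * r : ℕ))) ^ (2 * m * r) *
      (1 / (n : ℝ) + (1 + 2 * ((n : ℝ) / (8 * m ^ 2 * r)) * (2 * m * r : ℕ) / n) ^ (2 * m) *
        Real.sqrt (8 * m ^ 2 * r / n) ^ 3) ^ r * (n : ℝ) ^ r ≤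
      Real.exp (100 * Real.sqrt ((m : ℝ) ^ 6 * (r : ℝ) ^ 5 / n)) := by
  have hm1 : (1 : ℝ) ≤ m := by exact_mod_cast hm
  have hr1 : (1 : ℝ) ≤ r := by exact_mod_cast hr
  have hn1 : (8 : ℝ) * m ^ 2 * r ≤ n := by exact_mod_cast hn
  have hm0 : (0 : ℝ) < m := by linarith
  have hr0 : (0 : ℝ) < r := by linarith
  have hmr : (0 : ℝ) < 8 * m ^ 2 * r := by positivity
  have hn0 : (0 : ℝ) < n := lt_of_lt_of_le hmr hn1
  have hm2 : (m : ℝ) ≤ m ^ 2 := by nlinarith
  have h4N : 4 * (2 * (m : ℝ) * r) ≤ n := by nlinarith [mul_le_mul_of_nonneg_right hm2 hr0.le]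
  have h8 : (8 : ℝ) ≤ n := by
    have : (1 : ℝ) ≤ (m : ℝ) ^ 2 * r := by nlinarith [mul_le_mul hm1 hm1 (by linarith) hm0.le]
    linarith
  set Y : ℝ := Real.sqrt ((m : ℝ) ^ 6 * (r : ℝ) ^ 5 / n) with hY
  have hY0 : 0 ≤ Y := Real.sqrt_nonneg _
  have hYsq : Y ^ 2 = (m : ℝ) ^ 6 * (r : ℝ) ^ 5 / n := Real.sq_sqrt (by positivity)
  set ν : ℝ := Real.sqrt (8 * m ^ 2 * r / n) with hν
  have hν0 : 0 ≤ ν := Real.sqrt_nonneg _
  have hνsq : ν ^ 2 = 8 * m ^ 2 * r / n := Real.sq_sqrt (by positivity)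
  -- the first factor
  have e0 : ((2 * m * r : ℕ) : ℝ) = 2 * m * r := by push_cast; ring
  have hsub : 0 < (n : ℝ) - 2 * m * r := by nlinarith
  have f1 : ((n : ℝ) / (n - (2 * m * r : ℕ))) ^ (2 * m * r) ≤ Real.exp (16 / 3 * Y) := by
    rw [e0]
    have g1 : (n : ℝ) / (n - 2 * m * r) = 2 * m * r / (n - 2 * m * r) + 1 := by
      field_simp
      ring
    have g2 : (n : ℝ) / (n - 2 * m * r) ≤ Real.exp (2 * m * r / (n - 2 * m * r)) := by
      rw [g1]
      exact Real.add_one_le_exp _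
    have g3 : ((n : ℝ) / (n - 2 * m * r)) ^ (2 * m * r) ≤
        Real.exp (2 * m * r / (n - 2 * m * r)) ^ (2 * m * r) :=
      pow_le_pow_left₀ (by positivity) g2 _
    refine g3.trans ?_
    rw [← Real.exp_nat_mul, Real.exp_le_exp, e0]
    have g4 : 2 * (m : ℝ) * r / (n - 2 * m * r) ≤ 2 * m * r / (3 / 4 * n) := by
      apply div_le_div_of_nonneg_left (by positivity) (by positivity)
      nlinarith
    have g5 : 2 * (m : ℝ) * r * (2 * m * r / (n - 2 * m * r)) ≤
        2 * m * r * (2 * m * r / (3 / 4 * n)) :=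
      mul_le_mul_of_nonneg_left g4 (by positivity)
    refine g5.trans ?_
    have g6 : 2 * (m : ℝ) * r * (2 * m * r / (3 / 4 * n)) = 16 / 3 * (m ^ 2 * r ^ 2 / n) := by
      field_simp
      ring
    rw [g6]
    have g7 : (m : ℝ) ^ 2 * r ^ 2 / n ≤ Y := by
      rw [← pow_le_pow_iff_left₀ (by positivity) hY0 two_ne_zero, hYsq, div_pow,
        div_le_div_iff₀ (by positivity) hn0]
      have g8 : (1 : ℝ) ≤ m ^ 2 := one_le_pow₀ hm1
      have g9 : (1 : ℝ) ≤ m ^ 2 * r * n := by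
        have := mul_le_mul g8 hr1 (by linarith) (by positivity)
        nlinarith [mul_le_mul this (by linarith : (1 : ℝ) ≤ n) (by linarith) (by positivity)]
      calc ((m : ℝ) ^ 2 * (r : ℝ) ^ 2) ^ 2 * (n : ℝ) =
            ((m : ℝ) ^ 4 * (r : ℝ) ^ 4 * (n : ℝ)) * 1 := by ring
        _ ≤ ((m : ℝ) ^ 4 * (r : ℝ) ^ 4 * (n : ℝ)) * ((m : ℝ) ^ 2 * (r : ℝ) * (n : ℝ)) :=
            mul_le_mul_of_nonneg_left g9 (by positivity)
        _ = (m : ℝ) ^ 6 * r ^ 5 * n ^ 2 := by ring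
    linarith
  -- the second factor
  have e1 : 2 * ((n : ℝ) / (8 * m ^ 2 * r)) * ((2 * m * r : ℕ) : ℝ) / n = 1 / (2 * m) := by
    rw [e0]
    field_simp
    ring
  have f2 : (1 + 2 * ((n : ℝ) / (8 * m ^ 2 * r)) * (2 * m * r : ℕ) / n) ^ (2 * m) ≤ 3 := by
    rw [e1]
    have g1 : (1 : ℝ) + 1 / (2 * m) ≤ Real.exp (1 / (2 * m)) := by
      rw [add_comm]
      exact Real.add_one_le_exp _
    refine (pow_le_pow_left₀ (by positivity) g1 _).trans ?_
    rw [← Real.exp_nat_mul]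
    have g2 : ((2 * m : ℕ) : ℝ) * (1 / (2 * m)) = 1 := by
      push_cast
      field_simp
    rw [g2]
    linarith [Real.exp_one_lt_d9]
  have f3 : (r : ℝ) * (n * ν ^ 3) ≤ 68 / 3 * Y := by
    rw [← pow_le_pow_iff_left₀ (by positivity) (by positivity) two_ne_zero]
    have g1 : ((r : ℝ) * (n * ν ^ 3)) ^ 2 = 512 * (m ^ 6 * r ^ 5 / n) := by
      have : ((r : ℝ) * (n * ν ^ 3)) ^ 2 = r ^ 2 * n ^ 2 * (ν ^ 2) ^ 3 := by ring
      rw [this, hνsq]
      field_simp
      ring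
    rw [g1, mul_pow, hYsq]
    have : (0 : ℝ) ≤ (m : ℝ) ^ 6 * r ^ 5 / n := by positivity
    nlinarith
  set B : ℝ := (1 + 2 * ((n : ℝ) / (8 * m ^ 2 * r)) * (2 * m * r : ℕ) / n) ^ (2 * m) with hB
  have hB0 : 0 ≤ B := by rw [hB]; positivity
  have f4 : (1 / (n : ℝ) + B * ν ^ 3) ^ r * (n : ℝ) ^ r ≤ Real.exp (68 * Y) := by
    rw [← mul_pow]
    have g1 : (1 / (n : ℝ) + B * ν ^ 3) * n = n * (B * ν ^ 3) + 1 := by
      field_simp
      ring
    rw [g1]
    have g2 : (n : ℝ) * (B * ν ^ 3) + 1 ≤ Real.exp (n * (B * ν ^ 3)) := Real.add_one_le_exp _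
    refine (pow_le_pow_left₀ (by positivity) g2 _).trans ?_
    rw [← Real.exp_nat_mul, Real.exp_le_exp]
    have g3 : (r : ℝ) * (n * (B * ν ^ 3)) = B * (r * (n * ν ^ 3)) := by ring
    rw [g3]
    calc B * ((r : ℝ) * (n * ν ^ 3)) ≤ 3 * (68 / 3 * Y) :=
          mul_le_mul f2 f3 (by positivity) (by norm_num)
      _ = 68 * Y := by ring
  rw [mul_assoc]
  calc ((n : ℝ) / (n - (2 * m * r : ℕ))) ^ (2 * m * r) *
        ((1 / (n : ℝ) + B * ν ^ 3) ^ r * (n : ℝ) ^ r)
      ≤ Real.exp (16 / 3 * Y) * Real.exp (68 * Y) :=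
        mul_le_mul f1 f4 (by positivity) (Real.exp_nonneg _)
    _ = Real.exp (16 / 3 * Y + 68 * Y) := (Real.exp_add _ _).symm
    _ ≤ Real.exp (100 * Y) := Real.exp_le_exp.2 (by linarith)

theorem t_CNT : S_DETA → S_DETB → S_ZI → S_CNT := by
  classical
  intro hA hB hZ n k r m p q a hm hr hinj hp hq hn
  have hm1 : (1 : ℝ) ≤ m := by exact_mod_cast hm
  have hr1 : (1 : ℝ) ≤ r := by exact_mod_cast hr
  have hn1 : (8 : ℝ) * m ^ 2 * r ≤ n := by exact_mod_cast hn
  have hmr : (0 : ℝ) < 8 * m ^ 2 * r := by positivity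
  have hn0 : (0 : ℝ) < n := lt_of_lt_of_le hmr hn1
  set lam : ℝ := (n : ℝ) / (8 * m ^ 2 * r) with hlam
  set ν : ℝ := Real.sqrt (8 * m ^ 2 * r / n) with hν
  have hlam0 : 0 < lam := by positivity
  have hν0 : 0 < ν := Real.sqrt_pos.2 (by positivity)
  have hνsq : ν ^ 2 = 8 * m ^ 2 * r / n := Real.sq_sqrt (by positivity)
  have hlν : lam * ν ^ 2 = 1 := by
    rw [hνsq, hlam]
    field_simp
  have hν1 : ν ≤ 1 := by
    rw [hν]
    refine Real.sqrt_le_one.2 ?_
    rw [div_le_one hn0]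
    exact hn1
  have hlt : 2 * m * r < n := by
    refine lt_of_lt_of_le ?_ hn
    have h1 : m ≤ m ^ 2 := Nat.le_self_pow two_ne_zero m
    have h2 : m * r ≤ m ^ 2 * r := Nat.mul_le_mul_right r h1
    have h3 : 0 < m * r := Nat.mul_pos (by omega) (by omega)
    calc 2 * m * r = 2 * (m * r) := by ring
      _ < 8 * (m * r) := by omega
      _ ≤ 8 * (m ^ 2 * r) := by omega
      _ = 8 * m ^ 2 * r := by ring
  -- the term
  set F : Finset ℕ → (Fin k → Equiv.Perm (Fin n)) → ℝ := fun I x =>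
    if ∀ c ∈ I, New x m p q a (c * (2 * m) + (2 * m - 1)) ∧
          pos x p (a c) m = pos x q (a c) m then
        lam ^ #{j ∈ range (2 * m * r) | Hit x m p q a r j ∧ j / (2 * m) ∉ I} else 0 with hF
  have hF0 : ∀ I x, 0 ≤ F I x := by
    intro I x
    simp only [hF]
    split_ifs
    · positivity
    · exact le_rfl
  have key : ∀ x : Fin k → Equiv.Perm (Fin n),
      (if ∀ c < r, pos x p (a c) m = pos x q (a c) m then (1 : ℝ) else 0) ≤
        ∑ I ∈ (range r).powerset, ν ^ (3 * (r - #I)) * F I x := by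
    intro x
    split_ifs with hx
    · have hyp : Hyp x m p q a r := ⟨hm, hinj, hp, hq, hx⟩
      obtain ⟨a1, a2⟩ := hA n k r m x p q a hyp
      have b1 := hB n k r m x p q a hyp
      have hsub : Iset x m p q a r ⊆ range r := Finset.filter_subset _ _
      have hcard : #(Iset x m p q a r) ≤ r := by
        simpa using Finset.card_le_card hsub
      have h1 : ν ^ (3 * (r - #(Iset x m p q a r))) * F (Iset x m p q a r) x ≤
          ∑ I ∈ (range r).powerset, ν ^ (3 * (r - #I)) * F I x :=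
        Finset.single_le_sum (f := fun I => ν ^ (3 * (r - #I)) * F I x)
          (fun I _ => mul_nonneg (by positivity) (hF0 I x)) (Finset.mem_powerset.2 hsub)
      refine le_trans ?_ h1
      have h2 : ∀ c ∈ Iset x m p q a r, New x m p q a (c * (2 * m) + (2 * m - 1)) ∧
          pos x p (a c) m = pos x q (a c) m :=
        fun c hc => ⟨a1 c hc, hx c (Finset.mem_range.1 (hsub hc))⟩
      simp only [hF]
      rw [if_pos h2]
      set hits : ℕ := #{j ∈ range (2 * m * r) |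
        Hit x m p q a r j ∧ j / (2 * m) ∉ Iset x m p q a r} with hhits
      have h3 : 3 * (r - #(Iset x m p q a r)) ≤ 2 * hits := by omega
      have h4 : ν ^ (2 * hits) ≤ ν ^ (3 * (r - #(Iset x m p q a r))) :=
        pow_le_pow_of_le_one hν0.le hν1 h3
      calc (1 : ℝ) = (lam * ν ^ 2) ^ hits := by rw [hlν, one_pow]
        _ = ν ^ (2 * hits) * lam ^ hits := by rw [mul_pow, ← pow_mul]; ring
        _ ≤ ν ^ (3 * (r - #(Iset x m p q a r))) * lam ^ hits :=
            mul_le_mul_of_nonneg_right h4 (by positivity)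
    · exact Finset.sum_nonneg fun I _ => mul_nonneg (by positivity) (hF0 I x)
  have hcardeq : (Nat.card {x : Fin k → Equiv.Perm (Fin n) //
      ∀ c < r, pos x p (a c) m = pos x q (a c) m} : ℝ) =
      ∑ x : Fin k → Equiv.Perm (Fin n),
        (if ∀ c < r, pos x p (a c) m = pos x q (a c) m then (1 : ℝ) else 0) := by
    rw [Nat.card_eq_fintype_card, Fintype.card_subtype, Finset.card_filter]
    push_cast
    rfl
  set C : ℝ := (1 + 2 * lam * (2 * m * r : ℕ) / n) ^ (2 * m) with hC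
  set A : ℝ := (n.factorial : ℝ) ^ k * ((n : ℝ) / (n - (2 * m * r : ℕ))) ^ (2 * m * r) with hAd
  have hA0 : 0 ≤ A := by
    rw [hAd]
    have : (0 : ℝ) ≤ n - (2 * m * r : ℕ) := by
      have : ((2 * m * r : ℕ) : ℝ) ≤ n := by exact_mod_cast hlt.le
      linarith
    positivity
  have hsum : (Nat.card {x : Fin k → Equiv.Perm (Fin n) //
      ∀ c < r, pos x p (a c) m = pos x q (a c) m} : ℝ) ≤ A * (1 / n + C * ν ^ 3) ^ r := by
    rw [hcardeq]
    calc ∑ x : Fin k → Equiv.Perm (Fin n),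
        (if ∀ c < r, pos x p (a c) m = pos x q (a c) m then (1 : ℝ) else 0)
        ≤ ∑ x : Fin k → Equiv.Perm (Fin n),
            ∑ I ∈ (range r).powerset, ν ^ (3 * (r - #I)) * F I x :=
          Finset.sum_le_sum fun x _ => key x
      _ = ∑ I ∈ (range r).powerset, ν ^ (3 * (r - #I)) *
            ∑ x : Fin k → Equiv.Perm (Fin n), F I x := by
          rw [Finset.sum_comm]
          refine Finset.sum_congr rfl fun I _ => ?_
          rw [Finset.mul_sum]
      _ ≤ ∑ I ∈ (range r).powerset, ν ^ (3 * (r - #I)) *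
            (A * (1 / n) ^ #I * C ^ (r - #I)) := by
          refine Finset.sum_le_sum fun I hI => mul_le_mul_of_nonneg_left ?_ (by positivity)
          have h1 := hZ n k r m p q a I lam hm (Finset.mem_powerset.1 hI) hlam0.le hlt
          rw [hC, ← pow_mul]
          exact h1
      _ = A * ∑ I ∈ (range r).powerset, (1 / (n : ℝ)) ^ #I * (C * ν ^ 3) ^ (#(range r) - #I) := by
          rw [Finset.mul_sum]
          refine Finset.sum_congr rfl fun I _ => ?_
          rw [Finset.card_range, mul_pow, ← pow_mul]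
          ring
      _ = A * (1 / n + C * ν ^ 3) ^ r := by
          rw [Finset.sum_pow_mul_eq_add_pow, Finset.card_range]
  have hnum := cnt_num n r m hm hr hn
  rw [← hlam, ← hν, ← hC] at hnum
  calc (Nat.card {x : Fin k → Equiv.Perm (Fin n) //
      ∀ c < r, pos x p (a c) m = pos x q (a c) m} : ℝ) * (n : ℝ) ^ r
      ≤ A * (1 / n + C * ν ^ 3) ^ r * (n : ℝ) ^ r :=
        mul_le_mul_of_nonneg_right hsum (by positivity)
    _ = (n.factorial : ℝ) ^ k * (((n : ℝ) / (n - (2 * m * r : ℕ))) ^ (2 * m * r) *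
          (1 / n + C * ν ^ 3) ^ r * (n : ℝ) ^ r) := by
        rw [hAd]
        ring
    _ ≤ (n.factorial : ℝ) ^ k *
          Real.exp (100 * Real.sqrt ((m : ℝ) ^ 6 * (r : ℝ) ^ 5 / n)) :=
        mul_le_mul_of_nonneg_left hnum (by positivity)

end

end P2516
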