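import Pool.Agent.U516.P2.Spec

/-! Project P2, package DETA: counting the hits. -/

set_option autoImplicit false

namespace P2516
open Finset

namespace DETAp

/-- counting the values of `f` outside of `A` by their first indices -/
theorem card_union_first {α : Type} [DecidableEq α] (A : Finset α) (f : ℕ → α) (N : ℕ)
    [DecidablePred fun j => f j ∉ A ∧ ∀ i < j, f i ≠ f j] :
    #(A ∪ (range N).image f) = #A + #{j ∈ range N | f j ∉ A ∧ ∀ i < j, f i ≠ f j} := by
  induction N with
  | zero => simp
  | succ N ih =>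
    rw [range_add_one, image_insert, filter_insert, union_insert]
    split_ifs with h
    · rw [card_insert_of_notMem, card_insert_of_notMem, ih]
      · ring
      · simp
      · intro hc
        rcases mem_union.1 hc with hc | hc
        · exact h.1 hc
        · obtain ⟨i, hi, hi2⟩ := mem_image.1 hc
          exact h.2 i (mem_range.1 hi) hi2
    · rw [insert_eq_of_mem, ih]
      by_contra hc
      apply h
      refine ⟨fun h1 => hc (mem_union_left _ h1), fun i hi h1 => hc (mem_union_right _ ?_)⟩
      exact mem_image.2 ⟨i, mem_range.2 hi, h1⟩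

variable {n k : ℕ} (x : Fin k → Equiv.Perm (Fin n)) (m : ℕ) (p q : ℕ → Fin k) (a : ℕ → Fin n)

/-- the point of a query -/
theorem qry_snd (j : ℕ) : (qry x m p q a j).2 =
    ov x m p q a (j / (2 * m)) (if j % (2 * m) = m then 0 else j % (2 * m)) := by
  unfold qry src ov
  simp only
  rcases lt_trichotomy (j % (2 * m)) m with h | h | h
  · rw [if_pos h, if_neg h.ne, if_pos h.le]
  · rw [if_neg (show ¬ j % (2 * m) < m by omega), if_pos h, if_pos (Nat.zero_le _), h,
      Nat.sub_self]
    rfl
  · rw [if_neg (show ¬ j % (2 * m) < m by omega), if_neg (show ¬ j % (2 * m) = m by omega),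
      if_neg (show ¬ j % (2 * m) ≤ m by omega)]

/-- the answer to a query -/
theorem ans_eq (hm : 1 ≤ m) (j : ℕ)
    (hcl : pos x p (a (j / (2 * m))) m = pos x q (a (j / (2 * m))) m) :
    ans x m p q a j =
      ov x m p q a (j / (2 * m)) (if j % (2 * m) = 2 * m - 1 then m else j % (2 * m) + 1) := by
  have hs : j % (2 * m) < 2 * m := Nat.mod_lt _ (by omega)
  unfold ans qry lab src ov
  simp only
  by_cases h : j % (2 * m) < m
  · rw [if_pos h, if_pos h, if_neg (show ¬ j % (2 * m) = 2 * m - 1 by omega),
      if_pos (show j % (2 * m) + 1 ≤ m by omega)]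
    rfl
  · rw [if_neg h, if_neg h]
    by_cases h2 : j % (2 * m) = 2 * m - 1
    · rw [if_pos h2, if_pos le_rfl, hcl]
      obtain ⟨m', rfl⟩ : ∃ m', m = m' + 1 := ⟨m - 1, by omega⟩
      have h3 : j % (2 * (m' + 1)) - (m' + 1) = m' := by omega
      rw [h3]
      rfl
    · rw [if_neg h2, if_neg (show ¬ j % (2 * m) + 1 ≤ m by omega)]
      have h3 : j % (2 * m) + 1 - m = (j % (2 * m) - m) + 1 := by omega
      rw [h3]
      rfl

theorem div_lt {m r j : ℕ} (hm : 1 ≤ m) (hj : j < 2 * m * r) : j / (2 * m) < r := by
  rw [Nat.div_lt_iff_lt_mul (by omega)]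
  rw [mul_comm r]
  exact hj

theorem eq_of {m i j : ℕ} (h1 : i / (2 * m) = j / (2 * m)) (h2 : i % (2 * m) = j % (2 * m)) :
    i = j := by
  rw [← Nat.div_add_mod i (2 * m), ← Nat.div_add_mod j (2 * m), h1, h2]

theorem lt_of {m i j : ℕ} (h1 : i / (2 * m) = j / (2 * m)) (h2 : i < j) :
    i % (2 * m) < j % (2 * m) := by
  rw [← Nat.div_add_mod i (2 * m), ← Nat.div_add_mod j (2 * m), h1] at h2
  exact Nat.lt_of_add_lt_add_left h2

variable {x m p q a}

/-- the queries of an isolated walker are new -/
theorem new_of_iso {r : ℕ} (hm : 1 ≤ m) (hpq : p 0 ≠ q 0) {j : ℕ} (hj : j < 2 * m * r)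
    (hI : Iso x m p q a r (j / (2 * m))) : New x m p q a j := by
  intro i hi h
  have hs : j % (2 * m) < 2 * m := Nat.mod_lt _ (by omega)
  have hs' : i % (2 * m) < 2 * m := Nat.mod_lt _ (by omega)
  have h2 := congrArg Prod.snd h
  rw [qry_snd, qry_snd] at h2
  have h1 := congrArg Prod.fst h
  have hi' : i / (2 * m) < r := div_lt hm (hi.trans hj)
  obtain ⟨hc, hu⟩ := hI _ (by split_ifs <;> omega) _ hi' _ (by split_ifs <;> omega) h2.symm
  have hlt := lt_of hc.symm hi
  unfold qry lab at h1
  simp only at h1
  split_ifs at hu with ha hb hb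
  · omega
  · -- `j` at `m`, `i` at `0`
    rw [if_neg (show ¬ j % (2 * m) < m by omega), ha, Nat.sub_self, ← hu,
      if_pos (by omega)] at h1
    exact hpq h1
  · omega
  · omega

/-- the hits of an isolated walker -/
theorem hit_iff {r : ℕ} (hm : 1 ≤ m) (hpq : p 0 ≠ q 0)
    (hcl : ∀ c < r, pos x p (a c) m = pos x q (a c) m) {j : ℕ} (hj : j < 2 * m * r)
    (hI : Iso x m p q a r (j / (2 * m))) : Hit x m p q a r j ↔ j % (2 * m) = 2 * m - 1 := by
  have hs : j % (2 * m) < 2 * m := Nat.mod_lt _ (by omega)
  have hjr : j / (2 * m) < r := div_lt hm hj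
  constructor
  · rintro ⟨-, h⟩
    by_contra hne
    rw [ans_eq x m p q a hm j (hcl _ hjr), if_neg hne] at h
    rcases h with ⟨c, hc, h⟩ | ⟨i, hi, h⟩
    · have h0 : a c = ov x m p q a c 0 := rfl
      rw [h0] at h
      have := hI _ (by omega) _ hc _ (by omega) h.symm
      omega
    · have hir : i / (2 * m) < r := div_lt hm (hi.trans hj)
      have hs' : i % (2 * m) < 2 * m := Nat.mod_lt _ (by omega)
      rw [ans_eq x m p q a hm i (hcl _ hir)] at h
      obtain ⟨hc, hu⟩ := hI _ (by omega) _ hir _ (by split_ifs <;> omega) h.symm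
      have hlt := lt_of hc.symm hi
      split_ifs at hu <;> omega
  · intro h
    refine ⟨new_of_iso hm hpq hj hI, Or.inr ⟨j - m, ?_, ?_⟩⟩
    · have : 0 < j := by
        rcases Nat.eq_zero_or_pos j with h0 | h0
        · rw [h0, Nat.zero_mod] at h; omega
        · exact h0
      omega
    · have hd := Nat.div_add_mod j (2 * m)
      have h3 : j - m = 2 * m * (j / (2 * m)) + (m - 1) := by omega
      have h4 : (j - m) / (2 * m) = j / (2 * m) := by
        rw [h3, Nat.mul_add_div (by omega), Nat.div_eq_of_lt (show m - 1 < 2 * m by omega),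
          add_zero]
      have h5 : (j - m) % (2 * m) = m - 1 := by
        rw [h3, Nat.mul_add_mod, Nat.mod_eq_of_lt (by omega)]
      rw [ans_eq x m p q a hm j (hcl _ hjr), if_pos h,
        ans_eq x m p q a hm (j - m) (by rw [h4]; exact hcl _ hjr), h4, h5,
        if_neg (by omega)]
      congr 1
      omega

end DETAp

open DETAp

theorem t_DETA : S_DETA := by
  classical
  intro n k r m x p q a ⟨hm, hinj, hpq, _, hcl⟩
  have hdm : ∀ c s : ℕ, s < 2 * m → (c * (2 * m) + s) / (2 * m) = c ∧
      (c * (2 * m) + s) % (2 * m) = s := by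
    intro c s hs
    rw [mul_comm c]
    constructor
    · rw [Nat.mul_add_div (by omega), Nat.div_eq_of_lt hs, add_zero]
    · rw [Nat.mul_add_mod, Nat.mod_eq_of_lt hs]
  have hlt : ∀ c < r, ∀ s < 2 * m, c * (2 * m) + s < 2 * m * r := by
    intro c hc s hs
    calc c * (2 * m) + s < c * (2 * m) + 2 * m := by omega
      _ = 2 * m * (c + 1) := by ring
      _ ≤ 2 * m * r := Nat.mul_le_mul_left _ hc
  have hI : ∀ c, c ∈ Iset x m p q a r ↔ c < r ∧ Iso x m p q a r c := by
    intro c
    unfold Iset
    rw [mem_filter, mem_range]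
  refine ⟨?_, ?_⟩
  · intro c hc
    obtain ⟨hc1, hc2⟩ := (hI c).1 hc
    refine new_of_iso hm hpq (hlt c hc1 _ (by omega)) ?_
    rw [(hdm c _ (by omega)).1]
    exact hc2
  · have hE : #(Eset x m p q a r) = #{j ∈ range (2 * m * r) | New x m p q a j} := by
      have h1 := card_union_first ∅ (qry x m p q a) (2 * m * r)
      rw [empty_union, card_empty, zero_add] at h1
      unfold Eset
      rw [h1]
      congr 1
      ext j
      rw [mem_filter, mem_filter]
      unfold New
      simp
    have hV : #(Vset x m p q a r) = r + #{j ∈ range (2 * m * r) |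
        ans x m p q a j ∉ (range r).image a ∧ ∀ i < j, ans x m p q a i ≠ ans x m p q a j} := by
      have h1 := card_union_first ((range r).image a) (ans x m p q a) (2 * m * r)
      have h2 : #((range r).image a) = r := by
        rw [card_image_of_injOn, card_range]
        intro u hu v hv huv
        exact hinj (by simpa using hu) (by simpa using hv) huv
      rw [h2] at h1
      unfold Vset
      convert! h1 using 2
    have hNew : #{j ∈ range (2 * m * r) | New x m p q a j} =
        #{j ∈ range (2 * m * r) | Hit x m p q a r j} + #{j ∈ range (2 * m * r) |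
        ans x m p q a j ∉ (range r).image a ∧ ∀ i < j, ans x m p q a i ≠ ans x m p q a j} := by
      rw [← card_union_of_disjoint]
      · congr 1
        ext j
        simp only [mem_filter, mem_union, mem_range]
        constructor
        · rintro ⟨h1, h2⟩
          by_cases h3 : (∃ c < r, a c = ans x m p q a j) ∨
              ∃ i < j, ans x m p q a i = ans x m p q a j
          · exact Or.inl ⟨h1, h2, h3⟩
          · right
            refine ⟨h1, ?_, ?_⟩
            · intro h4
              obtain ⟨c, hc, hc2⟩ := mem_image.1 h4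
              exact h3 (Or.inl ⟨c, mem_range.1 hc, hc2⟩)
            · intro i hi h4
              exact h3 (Or.inr ⟨i, hi, h4⟩)
        · rintro (⟨h1, h2⟩ | ⟨h1, h2, h3⟩)
          · exact ⟨h1, h2.1⟩
          · refine ⟨h1, fun i hi h4 => h3 i hi ?_⟩
            unfold ans
            rw [h4]
      · rw [disjoint_left]
        intro j h1 h2
        rw [mem_filter] at h1 h2
        rcases h1.2.2 with ⟨c, hc, h⟩ | ⟨i, hi, h⟩
        · exact h2.2.1 (mem_image.2 ⟨c, mem_range.2 hc, h⟩)
        · exact h2.2.2 i hi h
    have hHit : #{j ∈ range (2 * m * r) | Hit x m p q a r j} =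
        #{j ∈ range (2 * m * r) | Hit x m p q a r j ∧ j / (2 * m) ∉ Iset x m p q a r} +
        #{j ∈ range (2 * m * r) | Hit x m p q a r j ∧ j / (2 * m) ∈ Iset x m p q a r} := by
      rw [← card_union_of_disjoint]
      · congr 1
        ext j
        simp only [mem_filter, mem_union]
        tauto
      · rw [disjoint_left]
        intro j h1 h2
        rw [mem_filter] at h1 h2
        exact h1.2.2 h2.2.2
    have hIc : #{j ∈ range (2 * m * r) | Hit x m p q a r j ∧ j / (2 * m) ∈ Iset x m p q a r} =
        #(Iset x m p q a r) := by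
      symm
      refine card_bij (fun c _ => c * (2 * m) + (2 * m - 1)) ?_ ?_ ?_
      · intro c hc
        obtain ⟨hc1, hc2⟩ := (hI c).1 hc
        obtain ⟨h1, h2⟩ := hdm c (2 * m - 1) (by omega)
        rw [mem_filter, mem_range]
        refine ⟨hlt c hc1 _ (by omega), ?_, ?_⟩
        · refine (hit_iff hm hpq hcl (hlt c hc1 _ (by omega)) ?_).2 h2
          rw [h1]
          exact hc2
        · rw [h1]
          exact hc
      · intro c _ c' _ h
        have h1 := (hdm c (2 * m - 1) (by omega)).1
        have h2 := (hdm c' (2 * m - 1) (by omega)).1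
        have h' : c * (2 * m) + (2 * m - 1) = c' * (2 * m) + (2 * m - 1) := h
        rw [← h1, h', h2]
      · intro j hj
        rw [mem_filter, mem_range] at hj
        obtain ⟨hj1, hj2, hj3⟩ := hj
        refine ⟨j / (2 * m), hj3, ?_⟩
        have h1 := (hit_iff hm hpq hcl hj1 ((hI _).1 hj3).2).1 hj2
        rw [← h1, mul_comm]
        exact Nat.div_add_mod j (2 * m)
    have hgoal : #{j ∈ range (2 * m * r) | Hit x m p q a r j ∧ j / (2 * m) ∉ Iset x m p q a r} +
      #(Iset x m p q a r) + #(Vset x m p q a r) = #(Eset x m p q a r) + r := by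
      omega
    convert! hgoal using 2

end P2516
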