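import Pool.Agent.U516.P2.Spec

/-!
Project P2, package DETB (helper165): the number of edges minus the number of vertices of a union of
closed walks (stackings).
-/

set_option autoImplicit false

namespace P2516

open Finset

namespace DETB

/-- the place at which the step `s` starts -/
def sg (m s : ℕ) : ℕ := if s = m then 0 else s

/-- the place at which the step `s` ends -/
def tg (m s : ℕ) : ℕ := if s = 2 * m - 1 then m else s + 1

/-- edges of a cycle which meet a set of places -/
theorem cyc (m : ℕ) (hm : 1 ≤ m) (S : Finset ℕ) (hS : S ⊆ range (2 * m)) (hne : S.Nonempty) :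
    #S + (if S = range (2 * m) then 0 else 1) ≤
      #((range (2 * m)).filter fun s => sg m s ∈ S ∨ tg m s ∈ S) := by
  obtain ⟨f, hf⟩ : ∃ f : ℕ → ℕ, ∀ t, f t = if t ∈ S then 1 else 0 := ⟨_, fun _ => rfl⟩
  have hSc : #S = ∑ t ∈ range (2 * m), f t := by
    simp_rw [hf]
    rw [← Finset.sum_filter, Finset.sum_const, smul_eq_mul, mul_one]
    congr 1
    ext t
    rw [mem_filter]
    exact ⟨fun h => ⟨hS h, h⟩, fun h => h.2⟩
  have hA : ∑ s ∈ range (2 * m), f (sg m s) + f m = #S + f 0 := by
    have hmm : m ∈ range (2 * m) := by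
      rw [mem_range]
      omega
    rw [hSc, ← Finset.add_sum_erase _ _ hmm, ← Finset.add_sum_erase _ f hmm]
    have h1 : ∑ s ∈ (range (2 * m)).erase m, f (sg m s) = ∑ s ∈ (range (2 * m)).erase m, f s := by
      refine Finset.sum_congr rfl fun s hs => ?_
      unfold sg
      rw [if_neg (Finset.ne_of_mem_erase hs)]
    have h2 : sg m m = 0 := by
      unfold sg
      rw [if_pos rfl]
    rw [h1, h2]
    ring
  have hB : ∑ s ∈ range (2 * m), f (tg m s) + f 0 = #S + f m := by
    rw [hSc]
    obtain ⟨k, hk⟩ : ∃ k, 2 * m = k + 1 := ⟨2 * m - 1, by omega⟩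
    rw [hk, Finset.sum_range_succ, Finset.sum_range_succ' f]
    have h1 : ∑ s ∈ range k, f (tg m s) = ∑ s ∈ range k, f (s + 1) := by
      refine Finset.sum_congr rfl fun s hs => ?_
      rw [mem_range] at hs
      unfold tg
      rw [if_neg (by omega)]
    have h2 : tg m k = m := by
      unfold tg
      rw [if_pos (by omega)]
    rw [h1, h2]
    ring
  have hC : ∑ s ∈ range (2 * m), (f (sg m s) + f (tg m s)) +
      #((range (2 * m)).filter fun s => ¬ (sg m s ∈ S ↔ tg m s ∈ S)) =
      2 * #((range (2 * m)).filter fun s => sg m s ∈ S ∨ tg m s ∈ S) := by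
    rw [Finset.card_filter, Finset.card_filter, ← Finset.sum_add_distrib, Finset.mul_sum]
    refine Finset.sum_congr rfl fun s _ => ?_
    rw [hf, hf]
    by_cases h1 : sg m s ∈ S <;> by_cases h2 : tg m s ∈ S <;> simp [h1, h2]
  rw [Finset.sum_add_distrib] at hC
  by_cases hSr : S = range (2 * m)
  · rw [if_pos hSr]
    omega
  · rw [if_neg hSr]
    have hpos : 0 < #((range (2 * m)).filter fun s => ¬ (sg m s ∈ S ↔ tg m s ∈ S)) := by
      rw [Finset.card_pos]
      by_contra hcon
      rw [Finset.not_nonempty_iff_eq_empty] at hcon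
      have hall : ∀ s < 2 * m, (sg m s ∈ S ↔ tg m s ∈ S) := by
        intro s hs
        by_contra h
        have : s ∈ (range (2 * m)).filter fun s => ¬ (sg m s ∈ S ↔ tg m s ∈ S) :=
          mem_filter.2 ⟨mem_range.2 hs, h⟩
        rw [hcon] at this
        exact absurd this (Finset.notMem_empty s)
      have h1 : ∀ t, t ≤ m → (0 ∈ S ↔ t ∈ S) := by
        intro t
        induction t with
        | zero => exact fun _ => Iff.rfl
        | succ t ih =>
          intro ht
          have h2 := hall t (by omega)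
          unfold sg tg at h2
          rw [if_neg (by omega), if_neg (by omega)] at h2
          exact (ih (by omega)).trans h2
      have h2 : ∀ e, m + e < 2 * m → (0 ∈ S ↔ m + e ∈ S) := by
        intro e
        induction e with
        | zero => exact fun _ => h1 m le_rfl
        | succ e ih =>
          intro he
          have h3 := hall (m + e) (by omega)
          unfold sg tg at h3
          rw [if_neg (by omega : ¬ (m + e = 2 * m - 1))] at h3
          by_cases h4 : e = 0
          · rw [if_pos (by omega)] at h3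
            exact h3
          · rw [if_neg (by omega)] at h3
            exact (ih (by omega)).trans h3
      have h3 : ∀ t < 2 * m, (0 ∈ S ↔ t ∈ S) := by
        intro t ht
        rcases le_total t m with h | h
        · exact h1 t h
        · have := h2 (t - m) (by omega)
          rwa [Nat.add_sub_cancel' h] at this
      obtain ⟨u, hu⟩ := hne
      have h0 : 0 ∈ S := (h3 u (mem_range.1 (hS hu))).2 hu
      apply hSr
      refine Finset.Subset.antisymm hS fun t ht => ?_
      exact (h3 t (mem_range.1 ht)).1 h0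
    omega

theorem pos_inj {n k : ℕ} (x : Fin k → Equiv.Perm (Fin n)) (p : ℕ → Fin k) (e : ℕ) {a b : Fin n}
    (h : pos x p a e = pos x p b e) : a = b := by
  induction e with
  | zero => exact h
  | succ e ih => exact ih ((x (p e)).injective h)

section walks

variable {n k : ℕ} (x : Fin k → Equiv.Perm (Fin n)) (m : ℕ) (p q : ℕ → Fin k) (a : ℕ → Fin n)

theorem src_eq (c s : ℕ) : src x m p q (a c) s = ov x m p q a c (sg m s) := by
  unfold src ov sg
  rcases lt_trichotomy s m with h | h | h
  · rw [if_pos h, if_neg h.ne, if_pos h.le]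
  · subst h
    rw [if_neg (lt_irrefl s), if_pos rfl, if_pos (Nat.zero_le s), Nat.sub_self]
    rfl
  · rw [if_neg h.not_gt, if_neg h.ne', if_neg h.not_ge]

theorem tgt_eq (c s : ℕ) (hs : s < 2 * m) (hc : pos x p (a c) m = pos x q (a c) m) :
    x (lab m p q s) (src x m p q (a c) s) = ov x m p q a c (tg m s) := by
  unfold lab src ov tg
  by_cases h : s < m
  · rw [if_pos h, if_pos h, if_neg (by omega : ¬ s = 2 * m - 1), if_pos (by omega : s + 1 ≤ m)]
    rfl
  · rw [if_neg h, if_neg h]
    by_cases h2 : s = 2 * m - 1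
    · rw [if_pos h2, if_pos le_rfl, hc]
      have h3 : m = (s - m) + 1 := by omega
      conv_rhs => rw [h3]
      rfl
    · rw [if_neg h2, if_neg (by omega : ¬ s + 1 ≤ m)]
      have h3 : s + 1 - m = (s - m) + 1 := by omega
      rw [h3]
      rfl

variable (r : ℕ)

/-- the edge at the step `s` of the walker `c` -/
def Qr (c s : ℕ) : Fin k × Fin n := (lab m p q s, src x m p q (a c) s)

theorem Qr_mem {c s : ℕ} (hc : c < r) (hs : s < 2 * m) :
    Qr x m p q a c s ∈ Eset x m p q a r := by
  unfold Eset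
  refine mem_image.2 ⟨2 * m * c + s, ?_, ?_⟩
  · rw [mem_range]
    have h1 : 2 * m * (c + 1) ≤ 2 * m * r := Nat.mul_le_mul_left _ hc
    rw [mul_add, mul_one] at h1
    omega
  · have h1 : (2 * m * c + s) % (2 * m) = s := by
      rw [Nat.mul_add_mod, Nat.mod_eq_of_lt hs]
    have h2 : (2 * m * c + s) / (2 * m) = c := by
      rw [Nat.mul_add_div (by omega), Nat.div_eq_of_lt hs, add_zero]
    unfold qry Qr
    rw [h1, h2]

theorem V_mem (h : Hyp x m p q a r) {v : Fin n} (hv : v ∈ Vset x m p q a r) :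
    ∃ c < r, ∃ s < 2 * m, ov x m p q a c s = v := by
  obtain ⟨hm, -, -, -, hcl⟩ := h
  unfold Vset at hv
  rcases mem_union.1 hv with hv | hv
  · obtain ⟨c, hc, rfl⟩ := mem_image.1 hv
    refine ⟨c, mem_range.1 hc, 0, by omega, ?_⟩
    unfold ov
    rw [if_pos (Nat.zero_le m)]
    rfl
  · obtain ⟨j, hj, rfl⟩ := mem_image.1 hv
    rw [mem_range] at hj
    have hc : j / (2 * m) < r := Nat.div_lt_of_lt_mul hj
    have hs : j % (2 * m) < 2 * m := Nat.mod_lt _ (by omega)
    refine ⟨j / (2 * m), hc, tg m (j % (2 * m)), ?_, ?_⟩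
    · unfold tg
      split_ifs <;> omega
    · rw [← tgt_eq x m p q a _ _ hs (hcl _ hc)]
      rfl

/-- the place `s` of the walker `c` has the largest key at its vertex -/
def Top (vk : ℕ → ℕ) (c s : ℕ) : Prop :=
  ∀ c' < r, ∀ s' < 2 * m, ov x m p q a c' s' = ov x m p q a c s → vk s' ≤ vk s

/-- the step `s` of the walker `c` has the largest key at its edge -/
def TopE (ek : ℕ → ℕ) (c s : ℕ) : Prop :=
  ∀ c' < r, ∀ s' < 2 * m, Qr x m p q a c' s' = Qr x m p q a c s → ek s' ≤ ek s

open Classical in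
theorem half (h : Hyp x m p q a r) (vk ek : ℕ → ℕ)
    (hinj : ∀ s < 2 * m, ∀ s' < 2 * m, ek s = ek s' → s = s')
    (h1 : ∀ s < 2 * m, ∀ s' < 2 * m, vk (sg m s') ≤ vk (sg m s) → lab m p q s' = lab m p q s →
      ek s' ≤ ek s)
    (h2 : ∀ s < 2 * m, ∀ s' < 2 * m, vk (tg m s') ≤ vk (tg m s) → lab m p q s' = lab m p q s →
      ek s' ≤ ek s)
    (h3 : ∃ t < 2 * m, ∀ s < 2 * m, vk s ≤ vk t) :
    #(Vset x m p q a r) + #((range r).filter fun c => ¬ ∀ s < 2 * m, Top x m p q a r vk c s) ≤
      #(Eset x m p q a r) := by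
  have hh := h
  obtain ⟨hm, hainj, -, -, hcl⟩ := hh
  obtain ⟨TV, hTV⟩ : ∃ TV : ℕ → Finset ℕ,
      ∀ c, TV c = (range (2 * m)).filter fun s => Top x m p q a r vk c s := ⟨_, fun _ => rfl⟩
  obtain ⟨TE, hTE⟩ : ∃ TE : ℕ → Finset ℕ,
      ∀ c, TE c = (range (2 * m)).filter fun s => TopE x m p q a r ek c s := ⟨_, fun _ => rfl⟩
  have hsgl : ∀ s < 2 * m, sg m s < 2 * m := by
    intro s hs
    unfold sg
    split_ifs <;> omega
  have htgl : ∀ s < 2 * m, tg m s < 2 * m := by
    intro s hs
    unfold tg
    split_ifs <;> omega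
  -- vertices
  have hV : #(Vset x m p q a r) ≤ ∑ c ∈ range r, #(TV c) := by
    rw [← Finset.card_sigma]
    refine (Finset.card_le_card ?_).trans
      (Finset.card_image_le (f := fun z : (Σ _ : ℕ, ℕ) => ov x m p q a z.1 z.2))
    intro v hv
    obtain ⟨c0, hc0, s0, hs0, hv0⟩ := V_mem x m p q a r h hv
    have hne : (((range r) ×ˢ (range (2 * m))).filter
        fun z : ℕ × ℕ => ov x m p q a z.1 z.2 = v).Nonempty :=
      ⟨(c0, s0), mem_filter.2 ⟨mem_product.2 ⟨mem_range.2 hc0, mem_range.2 hs0⟩, hv0⟩⟩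
    obtain ⟨⟨c, s⟩, hcs, hmax⟩ := Finset.exists_max_image _ (fun z : ℕ × ℕ => vk z.2) hne
    rw [mem_filter, mem_product, mem_range, mem_range] at hcs
    obtain ⟨⟨hc, hs⟩, hvv⟩ := hcs
    refine mem_image.2 ⟨⟨c, s⟩, mem_sigma.2 ⟨mem_range.2 hc, ?_⟩, hvv⟩
    change s ∈ TV c
    rw [hTV, mem_filter, mem_range]
    refine ⟨hs, fun c' hc' s' hs' he => ?_⟩
    exact hmax (c', s') (mem_filter.2 ⟨mem_product.2 ⟨mem_range.2 hc', mem_range.2 hs'⟩,
      he.trans hvv⟩)
  -- edges
  have hE : ∑ c ∈ range r, #(TE c) ≤ #(Eset x m p q a r) := by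
    rw [← Finset.card_sigma]
    refine Finset.card_le_card_of_injOn (fun z : (Σ _ : ℕ, ℕ) => Qr x m p q a z.1 z.2) ?_ ?_
    · rintro ⟨c, s⟩ hz
      have hz' := mem_sigma.1 (mem_coe.1 hz)
      have hs : s ∈ TE c := hz'.2
      rw [hTE, mem_filter, mem_range] at hs
      exact Qr_mem x m p q a r (mem_range.1 hz'.1) hs.1
    · rintro ⟨c, s⟩ hz ⟨c', s'⟩ hz' he
      have hz1 := mem_sigma.1 (mem_coe.1 hz)
      have hz2 := mem_sigma.1 (mem_coe.1 hz')
      have hs : s ∈ TE c := hz1.2
      have hs' : s' ∈ TE c' := hz2.2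
      rw [hTE, mem_filter, mem_range] at hs hs'
      have hc : c < r := mem_range.1 hz1.1
      have hc' : c' < r := mem_range.1 hz2.1
      have he' : Qr x m p q a c s = Qr x m p q a c' s' := he
      have k1 := hs.2 c' hc' s' hs'.1 he'.symm
      have k2 := hs'.2 c hc s hs.1 he'
      have k3 : s = s' := hinj s hs.1 s' hs'.1 (le_antisymm k2 k1)
      subst k3
      have k4 : src x m p q (a c) s = src x m p q (a c') s := (Prod.ext_iff.1 he').2
      have k5 : a c = a c' := by
        unfold src at k4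
        split_ifs at k4
        · exact pos_inj x p s k4
        · exact pos_inj x q _ k4
      have k6 : c = c' := hainj hc hc' k5
      rw [k6]
  -- the cycle of a walker
  have hW : ∀ c ∈ range r, #(TV c) + (if TV c = range (2 * m) then 0 else 1) ≤ #(TE c) := by
    intro c hc
    rw [mem_range] at hc
    have hsub : TV c ⊆ range (2 * m) := by
      rw [hTV]
      exact filter_subset _ _
    have hne : (TV c).Nonempty := by
      obtain ⟨t, ht, ht'⟩ := h3
      refine ⟨t, ?_⟩
      rw [hTV, mem_filter, mem_range]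
      exact ⟨ht, fun c' _ s' hs' _ => ht' s' hs'⟩
    refine (cyc m hm (TV c) hsub hne).trans (Finset.card_le_card ?_)
    intro s hs
    rw [mem_filter, mem_range] at hs
    obtain ⟨hs, hor⟩ := hs
    rw [hTE, mem_filter, mem_range]
    refine ⟨hs, fun c' hc' s' hs' he => ?_⟩
    have hlab : lab m p q s' = lab m p q s := (Prod.ext_iff.1 he).1
    have hsrc : src x m p q (a c') s' = src x m p q (a c) s := (Prod.ext_iff.1 he).2
    rcases hor with ho | ho
    · rw [hTV, mem_filter] at ho
      refine h1 s hs s' hs' (ho.2 c' hc' (sg m s') (hsgl s' hs') ?_) hlab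
      rw [← src_eq, ← src_eq]
      exact hsrc
    · rw [hTV, mem_filter] at ho
      refine h2 s hs s' hs' (ho.2 c' hc' (tg m s') (htgl s' hs') ?_) hlab
      rw [← tgt_eq x m p q a c' s' hs' (hcl c' hc'), ← tgt_eq x m p q a c s hs (hcl c hc),
        hlab, hsrc]
  have hsum := Finset.sum_le_sum hW
  rw [Finset.sum_add_distrib] at hsum
  have hcount : ∑ c ∈ range r, (if TV c = range (2 * m) then 0 else 1) =
      #((range r).filter fun c => ¬ ∀ s < 2 * m, Top x m p q a r vk c s) := by
    rw [Finset.card_filter]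
    refine Finset.sum_congr rfl fun c _ => ?_
    have hiff : TV c = range (2 * m) ↔ ∀ s < 2 * m, Top x m p q a r vk c s := by
      rw [hTV, Finset.filter_eq_self]
      exact ⟨fun hh s hs => hh s (mem_range.2 hs), fun hh s hs => hh s (mem_range.1 hs)⟩
    by_cases hcc : TV c = range (2 * m)
    · rw [if_pos hcc, if_neg (not_not.2 (hiff.1 hcc))]
    · rw [if_neg hcc, if_pos (fun hh => hcc (hiff.2 hh))]
  omega

end walks

/-- keys for the top -/
def vT (m s : ℕ) : ℕ := if s ≤ m then 2 * s + 1 else 2 * (s - m)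
/-- keys for the top -/
def eT (m s : ℕ) : ℕ := if s < m then 2 * s + 1 else 2 * (s - m)
/-- keys for the bottom -/
def vB (m s : ℕ) : ℕ :=
  if s = 0 then 2 * m + 1 else if s = m then 1 else
    if s < m then 2 * (m - s) else 2 * (2 * m - s) + 1
/-- keys for the bottom -/
def eB (m s : ℕ) : ℕ := if s < m then 2 * (m - 1 - s) else 2 * (2 * m - 1 - s) + 1

theorem ar_vT_sg (m s s' : ℕ) (hm : 1 ≤ m) (hs : s < 2 * m) (hs' : s' < 2 * m)
    (hv : vT m (sg m s') ≤ vT m (sg m s)) (hc : ¬ eT m s' ≤ eT m s) :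
    s = m ∧ s' = 0 := by
  unfold sg at hv
  unfold eT at hc
  split_ifs at hv <;> unfold vT at hv <;> split_ifs at hv hc <;> first | omega | contradiction

theorem ar_vT_tg (m s s' : ℕ) (hm : 1 ≤ m) (hs : s < 2 * m) (hs' : s' < 2 * m)
    (hv : vT m (tg m s') ≤ vT m (tg m s)) (hc : ¬ eT m s' ≤ eT m s) :
    s = 2 * m - 1 ∧ s' = m - 1 := by
  unfold tg at hv
  unfold eT at hc
  split_ifs at hv <;> unfold vT at hv <;> split_ifs at hv hc <;> first | omega | contradiction

theorem ar_vB_sg (m s s' : ℕ) (hm : 1 ≤ m) (hs : s < 2 * m) (hs' : s' < 2 * m)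
    (hv : vB m (sg m s') ≤ vB m (sg m s)) (hc : ¬ eB m s' ≤ eB m s) :
    s = 0 ∧ s' = m := by
  unfold sg at hv
  unfold eB at hc
  split_ifs at hv <;> unfold vB at hv <;> split_ifs at hv hc <;> first | omega | contradiction

theorem ar_vB_tg (m s s' : ℕ) (hm : 1 ≤ m) (hs : s < 2 * m) (hs' : s' < 2 * m)
    (hv : vB m (tg m s') ≤ vB m (tg m s)) (hc : ¬ eB m s' ≤ eB m s) :
    s = m - 1 ∧ s' = 2 * m - 1 := by
  unfold tg at hv
  unfold eB at hc
  split_ifs at hv <;> unfold vB at hv <;> split_ifs at hv hc <;> first | omega | contradiction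

open Classical in
theorem t_DETB : S_DETB := by
  intro n k r m x p q a h
  have hh := h
  obtain ⟨hm, hainj, hp0, hpm, hcl⟩ := hh
  have l0 : lab m p q 0 = p 0 := by unfold lab; rw [if_pos (by omega)]
  have lm : lab m p q m = q 0 := by unfold lab; rw [if_neg (lt_irrefl m), Nat.sub_self]
  have lm1 : lab m p q (m - 1) = p (m - 1) := by unfold lab; rw [if_pos (by omega)]
  have l2 : lab m p q (2 * m - 1) = q (m - 1) := by
    unfold lab
    rw [if_neg (by omega)]
    congr 1
    omega
  have htop := half x m p q a r h (vT m) (eT m)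
    (by
      intro s hs s' hs' he
      unfold eT at he
      split_ifs at he <;> omega)
    (by
      intro s hs s' hs' hv hl
      by_contra hc
      have h1 : s = m ∧ s' = 0 := by
        exact ar_vT_sg m s s' hm hs hs' hv hc
      rw [h1.1, h1.2, l0, lm] at hl
      exact hp0 hl)
    (by
      intro s hs s' hs' hv hl
      by_contra hc
      have h1 : s = 2 * m - 1 ∧ s' = m - 1 := by
        exact ar_vT_tg m s s' hm hs hs' hv hc
      rw [h1.1, h1.2, l2, lm1] at hl
      exact hpm hl)
    ⟨m, by omega, by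
      intro s hs
      unfold vT
      split_ifs <;> omega⟩
  have hbot := half x m p q a r h (vB m) (eB m)
    (by
      intro s hs s' hs' he
      unfold eB at he
      split_ifs at he <;> omega)
    (by
      intro s hs s' hs' hv hl
      by_contra hc
      have h1 : s = 0 ∧ s' = m := by
        exact ar_vB_sg m s s' hm hs hs' hv hc
      rw [h1.1, h1.2, l0, lm] at hl
      exact hp0 hl.symm)
    (by
      intro s hs s' hs' hv hl
      by_contra hc
      have h1 : s = m - 1 ∧ s' = 2 * m - 1 := by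
        exact ar_vB_tg m s s' hm hs hs' hv hc
      rw [h1.1, h1.2, l2, lm1] at hl
      exact hpm hl.symm)
    ⟨0, by omega, by
      intro s hs
      unfold vB
      split_ifs <;> omega⟩
  -- isolated walkers
  have hiso : ∀ c < r, (∀ s < 2 * m, Top x m p q a r (vT m) c s) →
      (∀ s < 2 * m, Top x m p q a r (vB m) c s) → Iso x m p q a r c := by
    intro c hc ht hb s hs c' hc' s' hs' he
    have k1 := ht s hs c' hc' s' hs' he.symm
    have k2 := hb s hs c' hc' s' hs' he.symm
    have k3 : s = s' := by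
      unfold vT at k1
      unfold vB at k2
      split_ifs at k1 k2 <;> omega
    subst k3
    refine ⟨?_, rfl⟩
    have k4 : a c = a c' := by
      unfold ov at he
      split_ifs at he
      · exact pos_inj x p s he
      · exact pos_inj x q _ he
    exact hainj hc hc' k4
  have hcov : range r ⊆ Iset x m p q a r ∪
      (((range r).filter fun c => ¬ ∀ s < 2 * m, Top x m p q a r (vT m) c s) ∪
        ((range r).filter fun c => ¬ ∀ s < 2 * m, Top x m p q a r (vB m) c s)) := by
    intro c hc
    rw [mem_union, mem_union]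
    by_cases h1 : ∀ s < 2 * m, Top x m p q a r (vT m) c s
    · by_cases h2 : ∀ s < 2 * m, Top x m p q a r (vB m) c s
      · left
        unfold Iset
        exact mem_filter.2 ⟨hc, hiso c (mem_range.1 hc) h1 h2⟩
      · exact Or.inr (Or.inr (mem_filter.2 ⟨hc, h2⟩))
    · exact Or.inr (Or.inl (mem_filter.2 ⟨hc, h1⟩))
  have hcard := (Finset.card_le_card hcov).trans (Finset.card_union_le _ _)
  rw [Finset.card_range] at hcard
  have hcard2 := Finset.card_union_le
    ((range r).filter fun c => ¬ ∀ s < 2 * m, Top x m p q a r (vT m) c s)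
    ((range r).filter fun c => ¬ ∀ s < 2 * m, Top x m p q a r (vB m) c s)
  omega

end DETB

theorem t_DETB : S_DETB := DETB.t_DETB

end P2516
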