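import Pool.Agent.U516.P2.Spec

/-!
Package HSG of project P2 (helper591 for helper516), MP_75608d_al: from the Hilbert-Schmidt norm of
a power of the averaging operator to the spectral gap, and from the gap on long tuples to the gap on
short ones.
-/

namespace P2516
open RC14 RD516 R3516 Finset Filter Topology Equiv
open Pool.Agent.R236.Den

noncomputable section

namespace HSGAux

section A

variable {Ω : Type} [Fintype Ω]

/-- the euclidean norm -/
def nn (g : Ω → ℝ) : ℝ := Real.sqrt (∑ a, g a ^ 2)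

lemma nn_nonneg (g : Ω → ℝ) : 0 ≤ nn g := Real.sqrt_nonneg _

lemma nn_sq (g : Ω → ℝ) : nn g ^ 2 = ∑ a, g a ^ 2 :=
  Real.sq_sqrt (sum_nonneg fun a _ => sq_nonneg _)

lemma nn_add (g h : Ω → ℝ) : nn (fun a => g a + h a) ≤ nn g + nn h := by
  have h1 := norm_add_le (WithLp.toLp 2 g : EuclideanSpace ℝ Ω) (WithLp.toLp 2 h)
  simpa [EuclideanSpace.norm_eq, nn, sq_abs] using h1

lemma nn_mono {g h : Ω → ℝ} (H : ∑ a, g a ^ 2 ≤ ∑ a, h a ^ 2) : nn g ≤ nn h :=
  Real.sqrt_le_sqrt H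

lemma bop_sq (y : Fin 2 → Perm Ω) (g : Ω → ℝ) : ∑ a, bop y g a ^ 2 ≤ ∑ a, g a ^ 2 := by
  have h1 : ∑ a, bop y g a ^ 2 ≤ ∑ a, (g (y 0 a) ^ 2 / 2 + g (y 1 a) ^ 2 / 2) := by
    refine sum_le_sum fun a _ => ?_
    unfold bop
    nlinarith [sq_nonneg (g (y 0 a) - g (y 1 a))]
  have h2 : ∀ i : Fin 2, ∑ a, g (y i a) ^ 2 = ∑ a, g a ^ 2 := fun i =>
    Equiv.sum_comp (y i) (fun a => g a ^ 2)
  rw [sum_add_distrib, ← sum_div, ← sum_div, h2, h2] at h1
  linarith

lemma bop_sub (y : Fin 2 → Perm Ω) (g h : Ω → ℝ) :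
    bop y (fun a => g a - h a) = fun a => bop y g a - bop y h a := by
  funext a; unfold bop; ring

lemma iter_diff (y : Fin 2 → Perm Ω) (f : Ω → ℝ) (L : ℕ) :
    nn (fun a => (bop y)^[L] f a - f a) ≤ L * nn (fun a => bop y f a - f a) := by
  induction L with
  | zero => simp [nn]
  | succ L ih =>
    have h1 : (fun a => (bop y)^[L + 1] f a - f a) =
        fun a => bop y (fun b => (bop y)^[L] f b - f b) a + (bop y f a - f a) := by
      funext a
      rw [bop_sub, Function.iterate_succ_apply']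
      ring
    rw [h1]
    refine (nn_add _ _).trans ?_
    have h2 := nn_mono (bop_sq y (fun b => (bop y)^[L] f b - f b))
    push_cast
    linarith

lemma iter_lin (y : Fin 2 → Perm Ω) (L : ℕ) (ι : Type) (s : Finset ι) (c : ι → ℝ) (g : ι → Ω → ℝ) :
    (bop y)^[L] (fun a => ∑ i ∈ s, c i * g i a) = fun a => ∑ i ∈ s, c i * (bop y)^[L] (g i) a := by
  induction L with
  | zero => rfl
  | succ L ih =>
    rw [Function.iterate_succ_apply', ih]
    funext a
    simp only [Function.iterate_succ_apply']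
    unfold bop
    rw [← sum_add_distrib, sum_div]
    exact sum_congr rfl fun i _ => by ring

open Classical in
lemma iter_norm (y : Fin 2 → Perm Ω) (L : ℕ) (f : Ω → ℝ) (h0 : ∑ a, f a = 0) :
    ∑ a, (bop y)^[L] f a ^ 2 ≤ HS y L * ∑ a, f a ^ 2 := by
  have h1 : f = fun a => ∑ b, f b * (if a = b then (1 : ℝ) else 0) := by
    funext a
    simp
  have h2 : ∀ a, (bop y)^[L] f a =
      ∑ b, f b * ((bop y)^[L] (fun c => if c = b then (1 : ℝ) else 0) a) := by
    intro a
    conv_lhs => rw [h1]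
    rw [iter_lin y L Ω univ f (fun b c => if c = b then (1 : ℝ) else 0)]
  have h3 : ∀ a, (bop y)^[L] f a =
      ∑ b, f b * ((bop y)^[L] (fun c => if c = b then (1 : ℝ) else 0) a -
        1 / (Fintype.card Ω : ℝ)) := by
    intro a
    rw [h2]
    simp only [mul_sub]
    rw [sum_sub_distrib, ← sum_mul, h0]
    ring
  have h4 : ∀ a, (bop y)^[L] f a ^ 2 ≤ (∑ b, f b ^ 2) *
      ∑ b, ((bop y)^[L] (fun c => if c = b then (1 : ℝ) else 0) a -
        1 / (Fintype.card Ω : ℝ)) ^ 2 := by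
    intro a
    rw [h3]
    exact sum_mul_sq_le_sq_mul_sq univ f _
  calc ∑ a, (bop y)^[L] f a ^ 2 ≤ ∑ a, (∑ b, f b ^ 2) *
      ∑ b, ((bop y)^[L] (fun c => if c = b then (1 : ℝ) else 0) a -
        1 / (Fintype.card Ω : ℝ)) ^ 2 := sum_le_sum fun a _ => h4 a
    _ = HS y L * ∑ a, f a ^ 2 := by
      rw [← mul_sum, sum_comm, mul_comm]
      rfl

lemma main1 (y : Fin 2 → Perm Ω) (L : ℕ) (hL : 1 ≤ L) (hHS : HS y L ≤ 1 / 4) :
    HasGap y (1 / (16 * (L : ℝ) ^ 2)) := by
  intro f h0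
  set S := ∑ a, f a ^ 2 with hS
  set G := ∑ a, f a * av y f a with hG
  have hL' : (1 : ℝ) ≤ L := by exact_mod_cast hL
  have hS0 : 0 ≤ S := sum_nonneg fun a _ => sq_nonneg _
  have e1 : ∀ i : Fin 2, ∑ a, f a * f ((y i)⁻¹ a) = ∑ a, f a * f (y i a) := by
    intro i
    rw [← Equiv.sum_comp (y i) (fun a => f a * f ((y i)⁻¹ a))]
    refine sum_congr rfl fun a _ => ?_
    simp [mul_comm]
  have e2 : G = (∑ a, f a * f (y 0 a) + ∑ a, f a * f (y 1 a)) / 2 := by
    have : G = ∑ a, (f a * f (y 0 a) + f a * f ((y 0)⁻¹ a) + f a * f (y 1 a) +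
        f a * f ((y 1)⁻¹ a)) / 4 := by
      refine sum_congr rfl fun a _ => ?_
      unfold av
      rw [Fin.sum_univ_two]
      push_cast
      ring
    rw [this, ← sum_div, sum_add_distrib, sum_add_distrib, sum_add_distrib, e1, e1]
    ring
  have e3 : ∀ i : Fin 2, ∑ a, f (y i a) ^ 2 = S := fun i =>
    Equiv.sum_comp (y i) (fun a => f a ^ 2)
  have e4 : ∑ a, (bop y f a - f a) ^ 2 ≤ 2 * (S - G) := by
    have h1 : ∑ a, (bop y f a - f a) ^ 2 ≤ ∑ a, (f (y 0 a) ^ 2 / 2 + f (y 1 a) ^ 2 / 2 + f a ^ 2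
        - f a * f (y 0 a) - f a * f (y 1 a)) := by
      refine sum_le_sum fun a _ => ?_
      unfold bop
      nlinarith [sq_nonneg (f (y 0 a) - f (y 1 a))]
    rw [sum_sub_distrib, sum_sub_distrib, sum_add_distrib, sum_add_distrib, ← sum_div, ← sum_div,
      e3, e3] at h1
    linarith
  have hSG : 0 ≤ S - G := by
    have : 0 ≤ ∑ a, (bop y f a - f a) ^ 2 := sum_nonneg fun a _ => sq_nonneg _
    linarith
  have e5 : nn (fun a => bop y f a - f a) ^ 2 ≤ 2 * (S - G) := by rw [nn_sq]; exact e4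
  have e6 := iter_diff y f L
  have e7 : nn ((bop y)^[L] f) ^ 2 ≤ S / 4 := by
    rw [nn_sq]
    refine (iter_norm y L f h0).trans ?_
    nlinarith
  have e8 : nn f ≤ nn (fun a => (bop y)^[L] f a - f a) + nn ((bop y)^[L] f) := by
    have h1 := nn_add (fun a => -((bop y)^[L] f a - f a)) ((bop y)^[L] f)
    have h2 : (fun a => -((bop y)^[L] f a - f a) + (bop y)^[L] f a) = f := by
      funext a; ring
    have h3 : nn (fun a => -((bop y)^[L] f a - f a)) = nn (fun a => (bop y)^[L] f a - f a) := by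
      unfold nn; simp only [neg_sq]
    rw [h2, h3] at h1
    exact h1
  have e9 : nn f ^ 2 = S := nn_sq f
  have e10 : nn ((bop y)^[L] f) ≤ nn f / 2 := by
    have := nn_nonneg f
    exact abs_le_of_sq_le_sq' (by rw [div_pow, e9]; linarith) (by linarith) |>.2
  have e11 : nn f / 2 ≤ L * nn (fun a => bop y f a - f a) := by linarith
  have e12 : (nn f / 2) ^ 2 ≤ (L * nn (fun a => bop y f a - f a)) ^ 2 :=
    pow_le_pow_left₀ (by have := nn_nonneg f; linarith) e11 2
  rw [div_pow, e9, mul_pow] at e12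
  have e13 : S / 2 ^ 2 ≤ (L : ℝ) ^ 2 * (2 * (S - G)) :=
    e12.trans (mul_le_mul_of_nonneg_left e5 (by positivity))
  have e14 : 1 / (16 * (L : ℝ) ^ 2) * S ≤ S - G := by
    rw [div_mul_eq_mul_div, div_le_iff₀ (by positivity)]
    nlinarith
  linarith

end A

/-- restriction of a tuple to the first coordinates -/
def rst {r R n : ℕ} (h : r ≤ R) (b : Tup R n) : Tup r n := (Fin.castLEEmb h).trans b

lemma trans_tup {r n : ℕ} (a b : Tup r n) : ∃ g : Perm (Fin n), mv g a = b := by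
  obtain ⟨g, hg⟩ := (Equiv.Perm.isMultiplyPretransitive (Fin n) r).exists_smul_eq a b
  refine ⟨g, ?_⟩
  ext l
  have := DFunLike.congr_fun hg l
  simpa [mv] using congrArg Fin.val this

open Classical in
lemma fib_card {r R n : ℕ} (h : r ≤ R) (hn : R ≤ n) : ∃ C : ℝ, 0 < C ∧ ∀ a : Tup r n,
    ((univ.filter fun b : Tup R n => rst h b = a).card : ℝ) = C := by
  let b0 : Tup R n := Fin.castLEEmb hn
  refine ⟨((univ.filter fun b : Tup R n => rst h b = rst h b0).card : ℝ), ?_, ?_⟩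
  · exact_mod_cast Finset.card_pos.2 ⟨b0, by simp⟩
  · intro a
    obtain ⟨g, hg⟩ := trans_tup (rst h b0) a
    congr 1
    refine (Finset.card_bij (fun b _ => mv g b) ?_ ?_ ?_).symm
    · intro b hb
      simp only [mem_filter, mem_univ, true_and] at hb ⊢
      change mv g (rst h b) = a
      rw [hb, hg]
    · intro b _ b' _ e
      exact (mvE g).injective e
    · intro b hb
      simp only [mem_filter, mem_univ, true_and] at hb
      refine ⟨mv g⁻¹ b, ?_, ?_⟩
      · simp only [mem_filter, mem_univ, true_and]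
        change mv g⁻¹ (rst h b) = _
        rw [hb, ← hg, ← mv_mul]
        simp
      · rw [← mv_mul]; simp

open Classical in
lemma sum_rst {r R n : ℕ} (h : r ≤ R) (C : ℝ) (hC : ∀ a : Tup r n,
    ((univ.filter fun b : Tup R n => rst h b = a).card : ℝ) = C) (G : Tup r n → ℝ) :
    ∑ b : Tup R n, G (rst h b) = C * ∑ a, G a := by
  rw [← Finset.sum_fiberwise univ (fun b : Tup R n => rst h b), mul_sum]
  refine sum_congr rfl fun a _ => ?_
  rw [← hC a, ← nsmul_eq_mul, ← sum_const]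
  refine sum_congr rfl fun b hb => ?_
  rw [(mem_filter.1 hb).2]

lemma main2 (n k r R : ℕ) (x : Fin k → Alt n) (ε : ℝ) (h : r ≤ R) (hn : R ≤ n)
    (H : TGap x ε R) : TGap x ε r := by
  obtain ⟨C, hC0, hC⟩ := fib_card h hn
  intro f h0
  have h1 := H (fun b => f (rst h b)) (by rw [sum_rst h C hC, h0, mul_zero])
  have h2 : ∀ b : Tup R n, av (tw x R) (fun b => f (rst h b)) b = av (tw x r) f (rst h b) :=
    fun b => rfl
  simp only [h2] at h1
  rw [sum_rst h C hC (fun a => f a * av (tw x r) f a), sum_rst h C hC (fun a => f a ^ 2)] at h1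
  refine le_of_mul_le_mul_left ?_ hC0
  linarith

end HSGAux

theorem t_HSG : S_HSG :=
  ⟨fun _ _ _ y L hL h => HSGAux.main1 y L hL h,
    fun n k r R x ε h hn H => HSGAux.main2 n k r R x ε h hn H⟩

end

end P2516
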