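import Pool.Agent.U516.P2.Spec
import Pool.Agent.H14R2.RC.Asy

/-! Project P2, package TGP. -/

set_option autoImplicit false

namespace P2516
open RC14 RD516 R3516 Finset Filter Topology
open Pool.Agent.R236.Den

lemma tgp_ev_logk (a b C : ℝ) (k : ℕ) (h : a < b) :
    ∀ᶠ n : ℕ in atTop, C * (n : ℝ) ^ a * Real.log n ^ k ≤ (n : ℝ) ^ b := by
  set t : ℝ := (b - a) / (2 * (k + 1)) with ht
  have hk : (0 : ℝ) < (k : ℝ) + 1 := by positivity
  have ht0 : 0 < t := div_pos (by linarith) (by linarith)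
  have htk : t * k < b - a := by
    rw [ht, div_mul_eq_mul_div, div_lt_iff₀ (by linarith)]
    nlinarith [mul_pos (sub_pos.2 h) hk]
  have h1 := ev_log 0 t 1 ht0
  have h2 := ev_le (a + t * k) b |C| (by linarith)
  filter_upwards [h1, h2, eventually_gt_atTop 0] with n h1 h2 h0
  have hn : (0 : ℝ) < n := by exact_mod_cast h0
  have hl : 0 ≤ Real.log n := Real.log_natCast_nonneg n
  rw [Real.rpow_zero, one_mul, one_mul] at h1
  have h3 : Real.log n ^ k ≤ (n : ℝ) ^ (t * k) := by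
    rw [Real.rpow_mul hn.le, Real.rpow_natCast]
    exact pow_le_pow_left₀ hl h1 k
  have ha : 0 < (n : ℝ) ^ a := Real.rpow_pos_of_pos hn _
  calc C * (n : ℝ) ^ a * Real.log n ^ k ≤ |C| * (n : ℝ) ^ a * (n : ℝ) ^ (t * k) := by
        have := le_abs_self C
        have hc : C * (n : ℝ) ^ a ≤ |C| * (n : ℝ) ^ a := by gcongr
        have hc0 : 0 ≤ |C| * (n : ℝ) ^ a := by positivity
        calc C * (n : ℝ) ^ a * Real.log n ^ k ≤ |C| * (n : ℝ) ^ a * Real.log n ^ k := by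
              exact mul_le_mul_of_nonneg_right hc (by positivity)
          _ ≤ _ := mul_le_mul_of_nonneg_left h3 hc0
    _ = |C| * (n : ℝ) ^ (a + t * k) := by rw [Real.rpow_add hn]; ring
    _ ≤ _ := h2

lemma tgp_HS_nonneg {Ω : Type} [Fintype Ω] (y : Fin 2 → Equiv.Perm Ω) (L : ℕ) : 0 ≤ HS y L :=
  sum_nonneg fun _ _ => sum_nonneg fun _ _ => sq_nonneg _

lemma tgp_gap_mono {Ω : Type} [Fintype Ω] {k : ℕ} (s : Fin k → Equiv.Perm Ω) {ε ε' : ℝ}
    (h : ε' ≤ ε) (hg : HasGap s ε) : HasGap s ε' := by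
  intro f h0
  refine (hg f h0).trans (mul_le_mul_of_nonneg_right (by linarith) ?_)
  exact sum_nonneg fun _ _ => sq_nonneg _

/-- package TGP -/
theorem t_TGP (h1 : S_TRC) (h2 : S_HSG) : S_TGP := by
  classical
  intro κ hκ hκ1 e he
  set η : ℝ := Real.log (1 + e / 32) / 100 with hη
  have hη0 : 0 < η := div_pos (Real.log_pos (by linarith)) (by norm_num)
  have hηe : Real.exp (100 * η) - 1 = e / 32 := by
    rw [hη, mul_div_cancel₀ _ (by norm_num : (100 : ℝ) ≠ 0), Real.exp_log (by linarith)]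
    ring
  have E1 := ev_const κ 2 hκ
  have E2 := ev_loggt 1
  have E3 := tgp_ev_logk (3 * κ) 1 200 2 (by linarith)
  have E4 := tgp_ev_logk (11 * κ) 1 (15625 / η ^ 2) 6 (by linarith)
  have E5 := tgp_ev_logk (2 * κ) (1 / 4) 400 2 (by linarith)
  have E6 := ev_const 1 (32 / e) one_pos
  filter_upwards [E1, E2, E3, E4, E5, E6, eventually_ge_atTop 2] with n E1 E2 E3 E4 E5 E6 hn2
  have hn : (0 : ℝ) < n := by exact_mod_cast (by omega : 0 < n)
  have hn1 : (1 : ℝ) ≤ n := by exact_mod_cast (by omega : 1 ≤ n)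
  set R : ℕ := ⌊(n : ℝ) ^ κ⌋₊ with hR
  have hRle : (R : ℝ) ≤ (n : ℝ) ^ κ := Nat.floor_le (by positivity)
  have hR1 : 1 ≤ R := Nat.le_floor (by push_cast; linarith)
  have hR1' : (1 : ℝ) ≤ R := by exact_mod_cast hR1
  have hRn : R ≤ n := by
    have : (R : ℝ) ≤ (n : ℝ) ^ (1 : ℝ) :=
      hRle.trans (Real.rpow_le_rpow_of_exponent_le hn1 (by linarith))
    rw [Real.rpow_one] at this
    exact_mod_cast this
  set L : ℕ := ⌈4 * R * Real.log n⌉₊ with hL
  have hlog0 : 0 < Real.log n := by linarith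
  have hRl : 1 ≤ R * Real.log n := by nlinarith
  have hLge : 4 * R * Real.log n ≤ L := Nat.le_ceil _
  have hLle : (L : ℝ) ≤ 5 * (n : ℝ) ^ κ * Real.log n := by
    have h3 : (L : ℝ) < 4 * R * Real.log n + 1 := Nat.ceil_lt_add_one (by positivity)
    have h4 : (R : ℝ) * Real.log n ≤ (n : ℝ) ^ κ * Real.log n := by gcongr
    nlinarith
  have hL1 : 1 ≤ L := by
    have : (1 : ℝ) ≤ L := by nlinarith
    exact_mod_cast this
  have hL0 : (0 : ℝ) < L := by exact_mod_cast hL1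
  have hκn : (0 : ℝ) < (n : ℝ) ^ κ := Real.rpow_pos_of_pos hn _
  have p2 : ((n : ℝ) ^ κ) ^ 2 = (n : ℝ) ^ (2 * κ) := by
    rw [← Real.rpow_natCast, ← Real.rpow_mul hn.le]; congr 1; push_cast; ring
  have p3 : ((n : ℝ) ^ κ) ^ 3 = (n : ℝ) ^ (3 * κ) := by
    rw [← Real.rpow_natCast, ← Real.rpow_mul hn.le]; congr 1; push_cast; ring
  have p11 : ((n : ℝ) ^ κ) ^ 11 = (n : ℝ) ^ (11 * κ) := by
    rw [← Real.rpow_natCast, ← Real.rpow_mul hn.le]; congr 1; push_cast; ring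
  have hL2 : (L : ℝ) ^ 2 ≤ 25 * (n : ℝ) ^ (2 * κ) * Real.log n ^ 2 := by
    calc (L : ℝ) ^ 2 ≤ (5 * (n : ℝ) ^ κ * Real.log n) ^ 2 := by gcongr
      _ = _ := by rw [mul_pow, mul_pow, p2]; ring
  have hc1 : 8 * L ^ 2 * R ≤ n := by
    have : 8 * (L : ℝ) ^ 2 * R ≤ n := by
      calc 8 * (L : ℝ) ^ 2 * R ≤ 8 * (5 * (n : ℝ) ^ κ * Real.log n) ^ 2 * (n : ℝ) ^ κ := by gcongr
        _ = 200 * ((n : ℝ) ^ κ) ^ 3 * Real.log n ^ 2 := by ring
        _ = 200 * (n : ℝ) ^ (3 * κ) * Real.log n ^ 2 := by rw [p3]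
        _ ≤ (n : ℝ) ^ (1 : ℝ) := E3
        _ = n := Real.rpow_one _
    exact_mod_cast this
  have hc2 : (n : ℝ) ^ R / 2 ^ L ≤ e / 32 := by
    have a1 : (n : ℝ) ^ R = Real.exp (R * Real.log n) := by
      rw [mul_comm, Real.exp_mul, Real.exp_log hn, Real.rpow_natCast]
    have a2 : Real.exp (2 * (R * Real.log n)) ≤ (2 : ℝ) ^ L := by
      have : (2 : ℝ) ^ L = Real.exp (L * Real.log 2) := by
        rw [mul_comm, Real.exp_mul, Real.exp_log (by norm_num), Real.rpow_natCast]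
      rw [this]
      refine Real.exp_le_exp.2 ?_
      have := Real.log_two_gt_d9
      have h5 : 4 * (R * Real.log n) * (1 / 2) ≤ L * Real.log 2 :=
        mul_le_mul (by linarith) (by linarith) (by norm_num) hL0.le
      linarith
    have a3 : (n : ℝ) ≤ Real.exp (R * Real.log n) := by
      calc (n : ℝ) = Real.exp (Real.log n) := (Real.exp_log hn).symm
        _ ≤ _ := Real.exp_le_exp.2 (by nlinarith)
    have a4 : Real.exp (2 * (R * Real.log n)) = Real.exp (R * Real.log n) * Real.exp (R * Real.log n) := by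
      rw [← Real.exp_add]; ring_nf
    rw [Real.rpow_one] at E6
    have a5 : 32 ≤ e * n := by
      rw [div_le_iff₀ he] at E6
      linarith
    rw [div_le_iff₀ (by positivity)]
    calc (n : ℝ) ^ R = Real.exp (R * Real.log n) * 1 := by rw [a1, mul_one]
      _ ≤ Real.exp (R * Real.log n) * (e / 32 * Real.exp (R * Real.log n)) := by
          refine mul_le_mul_of_nonneg_left ?_ (Real.exp_pos _).le
          nlinarith
      _ = e / 32 * Real.exp (2 * (R * Real.log n)) := by rw [a4]; ring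
      _ ≤ e / 32 * 2 ^ L := by gcongr
  have hc3 : Real.exp (100 * Real.sqrt ((L : ℝ) ^ 6 * (R : ℝ) ^ 5 / n)) - 1 ≤ e / 32 := by
    rw [← hηe]
    have b1 : Real.sqrt ((L : ℝ) ^ 6 * (R : ℝ) ^ 5 / n) ≤ η := by
      refine Real.sqrt_le_iff.2 ⟨hη0.le, ?_⟩
      rw [div_le_iff₀ hn]
      have b2 : (L : ℝ) ^ 6 * (R : ℝ) ^ 5 ≤
          (5 * (n : ℝ) ^ κ * Real.log n) ^ 6 * ((n : ℝ) ^ κ) ^ 5 := by gcongr
      have b3 : (5 * (n : ℝ) ^ κ * Real.log n) ^ 6 * ((n : ℝ) ^ κ) ^ 5 =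
          15625 * (n : ℝ) ^ (11 * κ) * Real.log n ^ 6 := by rw [← p11]; ring
      rw [Real.rpow_one] at E4
      have b4 : η ^ 2 * (15625 / η ^ 2 * (n : ℝ) ^ (11 * κ) * Real.log n ^ 6) ≤ η ^ 2 * n :=
        mul_le_mul_of_nonneg_left E4 (sq_nonneg _)
      have b5 : η ^ 2 * (15625 / η ^ 2 * (n : ℝ) ^ (11 * κ) * Real.log n ^ 6) =
          15625 * (n : ℝ) ^ (11 * κ) * Real.log n ^ 6 := by
        field_simp
      linarith
    have : Real.exp (100 * Real.sqrt ((L : ℝ) ^ 6 * (R : ℝ) ^ 5 / n)) ≤ Real.exp (100 * η) :=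
      Real.exp_le_exp.2 (by linarith)
    linarith
  have htot := h1 n R L hR1 hL1 hc1
  have hfac : (0 : ℝ) < (n.factorial : ℝ) ^ 2 := by positivity
  have htot2 : ∑ x : Fin 2 → Equiv.Perm (Fin n), HS (fun i => mvE (j := R) (x i)) L ≤
      (n.factorial : ℝ) ^ 2 * (e / 16) :=
    htot.trans (mul_le_mul_of_nonneg_left (by linarith) hfac.le)
  -- the bad set
  set B : Finset (Fin 2 → Alt n) :=
    univ.filter fun x => 1 / 4 < HS (fun i => mvE (j := R) (x i : Equiv.Perm (Fin n))) L with hB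
  have hcard : (Nat.card {x : Fin 2 → Alt n //
      ¬ ∀ r ≤ R, TGap x ((n : ℝ) ^ (-(1 / 4) : ℝ)) r} : ℝ) ≤ (#B : ℝ) := by
    rw [Nat.card_eq_fintype_card, Fintype.card_subtype]
    refine Nat.cast_le.2 (card_le_card ?_)
    intro x hx
    rw [mem_filter] at hx
    rw [hB, mem_filter]
    refine ⟨mem_univ _, ?_⟩
    by_contra hcon
    refine hx.2 fun r hr => ?_
    refine h2.2 n 2 r R x _ hr hRn ?_
    have hne : Nonempty (Tup R n) := ⟨Fin.castLEEmb hRn⟩
    have hg := h2.1 (Tup R n) (fun i => mvE (j := R) (x i : Equiv.Perm (Fin n))) L hL1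
      (not_lt.1 hcon)
    refine tgp_gap_mono _ ?_ hg
    have e8 : (n : ℝ) ^ (-(1 / 4) : ℝ) = ((n : ℝ) ^ (1 / 4 : ℝ))⁻¹ := Real.rpow_neg hn.le _
    have e9 : (1 : ℝ) / (16 * (L : ℝ) ^ 2) = (16 * (L : ℝ) ^ 2)⁻¹ := one_div _
    rw [e8, e9]
    have hpos16 : (0 : ℝ) < 16 * (L : ℝ) ^ 2 := by positivity
    refine inv_anti₀ hpos16 ?_
    calc 16 * (L : ℝ) ^ 2 ≤ 16 * (25 * (n : ℝ) ^ (2 * κ) * Real.log n ^ 2) := by gcongr
      _ = 400 * (n : ℝ) ^ (2 * κ) * Real.log n ^ 2 := by ring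
      _ ≤ _ := E5
  have hmark : (1 / 4 : ℝ) * #B ≤ (n.factorial : ℝ) ^ 2 * (e / 16) := by
    let F : (Fin 2 → Equiv.Perm (Fin n)) → ℝ := fun x => HS (fun i => mvE (j := R) (x i)) L
    let ι : (Fin 2 → Alt n) → (Fin 2 → Equiv.Perm (Fin n)) := fun x i => (x i : Equiv.Perm (Fin n))
    have hι : Function.Injective ι := by
      intro x y hxy
      funext i
      exact Subtype.ext (congrFun hxy i)
    calc (1 / 4 : ℝ) * #B = ∑ _x ∈ B, (1 / 4 : ℝ) := by rw [sum_const, nsmul_eq_mul]; ring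
      _ ≤ ∑ x ∈ B, F (ι x) := sum_le_sum fun x hx => by
          rw [hB, mem_filter] at hx
          exact hx.2.le
      _ = ∑ y ∈ B.image ι, F y := (sum_image fun x _ y _ h => hι h).symm
      _ ≤ ∑ y, F y := sum_le_sum_of_subset_of_nonneg (subset_univ _)
          fun y _ _ => tgp_HS_nonneg _ _
      _ ≤ _ := htot2
  have hfc : (n.factorial : ℝ) = 2 * (Fintype.card (Alt n) : ℝ) := by
    have : Nontrivial (Fin n) := Fin.nontrivial_iff_two_le.2 hn2
    have h3 := two_mul_card_alternatingGroup (α := Fin n)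
    rw [Fintype.card_perm, Fintype.card_fin] at h3
    exact_mod_cast h3.symm
  refine hcard.trans ?_
  rw [hfc] at hmark
  nlinarith

end P2516
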