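import Pool.Agent.U516.P2.Spec

/-!
Project P2, package TRC (helper851): the expected Hilbert-Schmidt norm on `r`-tuples.
-/

set_option autoImplicit false

namespace P2516
open RC14 RD516 R3516 Finset Filter Topology
open Pool.Agent.R236.Den

noncomputable section

namespace TRC

/-- reading a word, the first letter first -/
def run {Ω : Type} {k : ℕ} (y : Fin k → Equiv.Perm Ω) : List (Fin k) → Ω → Ω
  | [], a => a
  | i :: g, a => run y g (y i a)

lemma run_append {Ω : Type} {k : ℕ} (y : Fin k → Equiv.Perm Ω) (g h : List (Fin k)) (a : Ω) :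
    run y (g ++ h) a = run y h (run y g a) := by
  induction g generalizing a with
  | nil => rfl
  | cons i g ih => exact ih _

lemma run_snoc {Ω : Type} {k : ℕ} (y : Fin k → Equiv.Perm Ω) (g : List (Fin k)) (i : Fin k)
    (a : Ω) : run y (g ++ [i]) a = y i (run y g a) := by
  rw [run_append]; rfl

lemma bop_iter {Ω : Type} (y : Fin 2 → Equiv.Perm Ω) (φ : Ω → ℝ) (L : ℕ) (a : Ω) :
    (bop y)^[L] φ a = (∑ g : Fin L → Fin 2, φ (run y (List.ofFn g) a)) / 2 ^ L := by
  induction L generalizing a with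
  | zero => simp [run]
  | succ L ih =>
    rw [Function.iterate_succ_apply', bop, ih, ih,
      ← (Fin.consEquiv (fun _ : Fin (L+1) => Fin 2)).sum_comp, Fintype.sum_prod_type,
      Fin.sum_univ_two]
    have h : ∀ (i : Fin 2) (g : Fin L → Fin 2),
        run y (List.ofFn ((Fin.consEquiv (fun _ : Fin (L+1) => Fin 2)) (i, g))) a =
          run y (List.ofFn g) (y i a) := by
      intro i g
      simp [Fin.consEquiv, List.ofFn_succ, run]
    simp only [h]
    rw [pow_succ]
    ring

/-- the number of coincidences -/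
def coin {Ω : Type} [Fintype Ω] (y : Fin 2 → Equiv.Perm Ω) (g h : List (Fin 2)) : ℕ := by
  classical exact #{a : Ω | run y g a = run y h a}

lemma coin_cons {Ω : Type} [Fintype Ω] (y : Fin 2 → Equiv.Perm Ω) (i : Fin 2)
    (g h : List (Fin 2)) : coin y (i :: g) (i :: h) = coin y g h := by
  classical
  unfold coin
  refine Finset.card_equiv (y i) fun a => ?_
  simp only [Finset.mem_filter, Finset.mem_univ, true_and]
  exact Iff.rfl

lemma coin_snoc {Ω : Type} [Fintype Ω] (y : Fin 2 → Equiv.Perm Ω) (i : Fin 2)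
    (g h : List (Fin 2)) : coin y (g ++ [i]) (h ++ [i]) = coin y g h := by
  classical
  unfold coin
  congr 1
  ext a
  simp [run_snoc]

lemma coin_le {Ω : Type} [Fintype Ω] (y : Fin 2 → Equiv.Perm Ω) (g h : List (Fin 2)) :
    coin y g h ≤ Fintype.card Ω := by
  classical
  exact Finset.card_le_univ _

lemma HS_eq {Ω : Type} [Fintype Ω] [Nonempty Ω] (y : Fin 2 → Equiv.Perm Ω) (L : ℕ) :
    HS y L = (∑ g : Fin L → Fin 2, ∑ h : Fin L → Fin 2,
      (coin y (List.ofFn g) (List.ofFn h) : ℝ)) / 4 ^ L - 1 := by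
  classical
  have hK : (Fintype.card Ω : ℝ) ≠ 0 := by
    exact_mod_cast Fintype.card_ne_zero
  have h1 : ∀ b a : Ω, (bop y)^[L] (fun c => if c = b then 1 else 0) a =
      (∑ g : Fin L → Fin 2, if run y (List.ofFn g) a = b then (1 : ℝ) else 0) / 2 ^ L :=
    fun b a => bop_iter y _ L a
  have h2 : ∑ b : Ω, ∑ a : Ω, (∑ g : Fin L → Fin 2,
      if run y (List.ofFn g) a = b then (1 : ℝ) else 0) / 2 ^ L = Fintype.card Ω := by
    rw [Finset.sum_comm]
    have : ∀ a : Ω, ∑ b : Ω, (∑ g : Fin L → Fin 2,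
      if run y (List.ofFn g) a = b then (1 : ℝ) else 0) / 2 ^ L = 1 := by
      intro a
      rw [← Finset.sum_div, Finset.sum_comm]
      simp
    simp only [this]
    simp
  have h3 : ∑ b : Ω, ∑ a : Ω, ((∑ g : Fin L → Fin 2,
      if run y (List.ofFn g) a = b then (1 : ℝ) else 0) / 2 ^ L) ^ 2 =
      (∑ g : Fin L → Fin 2, ∑ h : Fin L → Fin 2,
        (coin y (List.ofFn g) (List.ofFn h) : ℝ)) / 4 ^ L := by
    have e1 : ∀ b a : Ω, ((∑ g : Fin L → Fin 2,
      if run y (List.ofFn g) a = b then (1 : ℝ) else 0) / 2 ^ L) ^ 2 =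
        (∑ g : Fin L → Fin 2, ∑ h : Fin L → Fin 2,
          (if run y (List.ofFn g) a = b then (1 : ℝ) else 0) *
            (if run y (List.ofFn h) a = b then (1 : ℝ) else 0)) / 4 ^ L := by
      intro b a
      rw [div_pow, sq, Finset.sum_mul_sum, ← pow_mul, mul_comm L 2, pow_mul]
      norm_num
    simp only [e1]
    simp only [← Finset.sum_div]
    congr 1
    rw [Finset.sum_comm]
    have e2 : ∀ a : Ω, ∑ b : Ω, ∑ g : Fin L → Fin 2, ∑ h : Fin L → Fin 2,
          (if run y (List.ofFn g) a = b then (1 : ℝ) else 0) *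
            (if run y (List.ofFn h) a = b then (1 : ℝ) else 0) =
        ∑ g : Fin L → Fin 2, ∑ h : Fin L → Fin 2,
          (if run y (List.ofFn g) a = run y (List.ofFn h) a then (1 : ℝ) else 0) := by
      intro a
      rw [Finset.sum_comm]
      refine Finset.sum_congr rfl fun g _ => ?_
      rw [Finset.sum_comm]
      refine Finset.sum_congr rfl fun h _ => ?_
      rw [Finset.sum_eq_single (run y (List.ofFn g) a)]
      · simp [eq_comm]
      · intro b _ hb
        rw [if_neg (fun h' => hb h'.symm), zero_mul]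
      · intro h'
        exact absurd (Finset.mem_univ _) h'
    simp only [e2]
    rw [Finset.sum_comm]
    refine Finset.sum_congr rfl fun g _ => ?_
    rw [Finset.sum_comm]
    refine Finset.sum_congr rfl fun h _ => ?_
    unfold coin
    rw [Finset.sum_boole]
  unfold HS
  simp only [h1]
  have h4 : ∀ b a : Ω, ((∑ g : Fin L → Fin 2,
      if run y (List.ofFn g) a = b then (1 : ℝ) else 0) / 2 ^ L - 1 / (Fintype.card Ω : ℝ)) ^ 2 =
      ((∑ g : Fin L → Fin 2,
      if run y (List.ofFn g) a = b then (1 : ℝ) else 0) / 2 ^ L) ^ 2 -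
      2 / (Fintype.card Ω : ℝ) * ((∑ g : Fin L → Fin 2,
      if run y (List.ofFn g) a = b then (1 : ℝ) else 0) / 2 ^ L) + (1 / (Fintype.card Ω : ℝ)) ^ 2 := by
    intro b a
    ring
  have h5 : ∑ b : Ω, ∑ a : Ω, ((∑ g : Fin L → Fin 2,
      if run y (List.ofFn g) a = b then (1 : ℝ) else 0) / 2 ^ L - 1 / (Fintype.card Ω : ℝ)) ^ 2 =
      ∑ b : Ω, ∑ a : Ω, ((∑ g : Fin L → Fin 2,
      if run y (List.ofFn g) a = b then (1 : ℝ) else 0) / 2 ^ L) ^ 2 -
      2 / (Fintype.card Ω : ℝ) * ∑ b : Ω, ∑ a : Ω, (∑ g : Fin L → Fin 2,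
      if run y (List.ofFn g) a = b then (1 : ℝ) else 0) / 2 ^ L +
      ∑ b : Ω, ∑ a : Ω, (1 / (Fintype.card Ω : ℝ)) ^ 2 := by
    rw [Finset.mul_sum, ← Finset.sum_sub_distrib, ← Finset.sum_add_distrib]
    refine Finset.sum_congr rfl fun b _ => ?_
    rw [Finset.mul_sum, ← Finset.sum_sub_distrib, ← Finset.sum_add_distrib]
    exact Finset.sum_congr rfl fun a _ => h4 b a
  have h6 : ∑ b : Ω, ∑ a : Ω, (1 / (Fintype.card Ω : ℝ)) ^ 2 = 1 := by
    simp only [Finset.sum_const, Finset.card_univ, nsmul_eq_mul]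
    field_simp
  rw [h5, h2, h3, h6]
  field_simp
  ring

lemma pos_congr {n k : ℕ} (x : Fin k → Equiv.Perm (Fin n)) {p q : ℕ → Fin k} (a : Fin n) {e : ℕ}
    (h : ∀ s < e, p s = q s) : pos x p a e = pos x q a e := by
  induction e with
  | zero => rfl
  | succ e ih =>
    simp only [pos]
    rw [ih fun s hs => h s (by omega), h e (by omega)]

lemma pos_run {n k : ℕ} (x : Fin (k + 1) → Equiv.Perm (Fin n)) (g : List (Fin (k + 1)))
    (a : Fin n) : pos x (fun s => g.getD s 0) a g.length = run x g a := by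
  induction g using List.reverseRecOn with
  | nil => rfl
  | append_singleton g i ih =>
    rw [List.length_append, List.length_singleton, run_snoc, ← ih]
    simp only [pos]
    have h1 : (g ++ [i]).getD g.length 0 = i := by simp [List.getD_eq_getElem?_getD]
    rw [h1]
    congr 1
    refine pos_congr x a fun s hs => ?_
    simp [List.getD_eq_getElem?_getD, List.getElem?_append_left hs]

lemma run_mvE {n r k : ℕ} (x : Fin k → Equiv.Perm (Fin n)) (g : List (Fin k)) (a : Tup r n)
    (c : Fin r) : run (fun i => mvE (j := r) (x i)) g a c = run x g (a c) := by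
  induction g generalizing a with
  | nil => rfl
  | cons i g ih =>
    simp only [run]
    rw [ih]
    rfl

/-- The total number of coincidences of two words with different first and last letters. -/
lemma sum_coin_base (hC : S_CNT) {n r L : ℕ} (hr : 1 ≤ r) (hL : 8 * L ^ 2 * r ≤ n)
    {g h : List (Fin 2)} (hgh : g.length = h.length) (hg1 : 1 ≤ g.length) (hgL : g.length ≤ L)
    (h0 : g.getD 0 0 ≠ h.getD 0 0) (h1 : g.getD (g.length - 1) 0 ≠ h.getD (g.length - 1) 0) :
    (∑ x : Fin 2 → Equiv.Perm (Fin n),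
      (coin (fun i => mvE (j := r) (x i)) g h : ℝ)) ≤ (n.factorial : ℝ) ^ 2 *
        Real.exp (100 * Real.sqrt ((L : ℝ) ^ 6 * (r : ℝ) ^ 5 / n)) := by
  classical
  have hL1 : 1 ≤ L := hg1.trans hgL
  have hn : 0 < n := by
    have : 0 < 8 * L ^ 2 * r := by positivity
    omega
  have hnR : (0 : ℝ) < n := by exact_mod_cast hn
  set m := g.length with hm
  set E := Real.exp (100 * Real.sqrt ((L : ℝ) ^ 6 * (r : ℝ) ^ 5 / n)) with hE
  -- each tuple
  have key : ∀ a : Tup r n, ((univ.filter fun x : Fin 2 → Equiv.Perm (Fin n) =>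
      run (fun i => mvE (j := r) (x i)) g a = run (fun i => mvE (j := r) (x i)) h a).card : ℝ) ≤
        (n.factorial : ℝ) ^ 2 * E / (n : ℝ) ^ r := by
    intro a
    let a' : ℕ → Fin n := fun c => if hc : c < r then a ⟨c, hc⟩ else a ⟨0, hr⟩
    have ha' : ∀ c (hc : c < r), a' c = a ⟨c, hc⟩ := fun c hc => by simp [a', hc]
    have hinj : Set.InjOn a' (Set.Iio r) := by
      intro c hc d hd hcd
      rw [ha' c hc, ha' d hd] at hcd
      exact Fin.val_eq_of_eq (a.injective hcd)
    have h8 : 8 * m ^ 2 * r ≤ n := by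
      refine le_trans ?_ hL
      gcongr
    have hcnt := hC n 2 r m (fun s => g.getD s 0) (fun s => h.getD s 0) a' hg1 hr hinj h0 h1 h8
    rw [le_div_iff₀ (by positivity)]
    have hcard : (univ.filter fun x : Fin 2 → Equiv.Perm (Fin n) =>
      run (fun i => mvE (j := r) (x i)) g a = run (fun i => mvE (j := r) (x i)) h a).card =
        Nat.card {x : Fin 2 → Equiv.Perm (Fin n) // ∀ c < r,
          pos x (fun s => g.getD s 0) (a' c) m = pos x (fun s => h.getD s 0) (a' c) m} := by
      rw [Nat.card_eq_fintype_card, Fintype.card_subtype]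
      congr 1
      ext x
      simp only [mem_filter, mem_univ, true_and]
      have e1 : ∀ b, pos x (fun s => g.getD s 0) b m = run x g b := fun b => pos_run x g b
      have e2 : ∀ b, pos x (fun s => h.getD s 0) b m = run x h b := fun b => by
        rw [hgh]; exact pos_run x h b
      constructor
      · intro hx c hc
        rw [e1, e2, ha' c hc]
        have := congrArg (fun t : Tup r n => t ⟨c, hc⟩) hx
        simpa only [run_mvE] using this
      · intro hx
        ext c : 1
        rw [run_mvE, run_mvE]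
        have := hx c.1 c.2
        rwa [e1, e2, ha' c.1 c.2] at this
    rw [hcard]
    refine hcnt.trans ?_
    refine mul_le_mul_of_nonneg_left ?_ (by positivity)
    rw [hE]
    refine Real.exp_le_exp.2 ?_
    gcongr
  have hswap : (∑ x : Fin 2 → Equiv.Perm (Fin n),
      (coin (fun i => mvE (j := r) (x i)) g h : ℝ)) = ∑ a : Tup r n,
      ((univ.filter fun x : Fin 2 → Equiv.Perm (Fin n) =>
      run (fun i => mvE (j := r) (x i)) g a = run (fun i => mvE (j := r) (x i)) h a).card : ℝ) := by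
    unfold coin
    simp only [Finset.card_filter, Nat.cast_sum]
    rw [Finset.sum_comm]
    refine sum_congr rfl fun a _ => sum_congr rfl fun x _ => ?_
    congr
  rw [hswap]
  calc ∑ a : Tup r n, ((univ.filter fun x : Fin 2 → Equiv.Perm (Fin n) =>
      run (fun i => mvE (j := r) (x i)) g a = run (fun i => mvE (j := r) (x i)) h a).card : ℝ)
      ≤ ∑ a : Tup r n, (n.factorial : ℝ) ^ 2 * E / (n : ℝ) ^ r := sum_le_sum fun a _ => key a
    _ = (Fintype.card (Tup r n) : ℝ) * ((n.factorial : ℝ) ^ 2 * E / (n : ℝ) ^ r) := by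
        rw [Finset.sum_const, nsmul_eq_mul, Finset.card_univ]
    _ ≤ (n : ℝ) ^ r * ((n.factorial : ℝ) ^ 2 * E / (n : ℝ) ^ r) := by
        refine mul_le_mul_of_nonneg_right ?_ (by positivity)
        exact_mod_cast card_Tup_le r n
    _ = (n.factorial : ℝ) ^ 2 * E := by
        field_simp

/-- The total number of coincidences of two different words. -/
lemma sum_coin (hC : S_CNT) {n r L : ℕ} (hr : 1 ≤ r) (hL : 8 * L ^ 2 * r ≤ n) (l : ℕ) :
    ∀ g h : List (Fin 2), g.length = l → h.length = l → l ≤ L → g ≠ h →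
    (∑ x : Fin 2 → Equiv.Perm (Fin n),
      (coin (fun i => mvE (j := r) (x i)) g h : ℝ)) ≤ (n.factorial : ℝ) ^ 2 *
        Real.exp (100 * Real.sqrt ((L : ℝ) ^ 6 * (r : ℝ) ^ 5 / n)) := by
  induction l with
  | zero =>
    intro g h hg hh _ hne
    rw [List.length_eq_zero_iff] at hg hh
    exact absurd (hg.trans hh.symm) hne
  | succ l ih =>
    intro g h hg hh hlL hne
    by_cases h0 : g.getD 0 0 = h.getD 0 0
    · obtain ⟨i, g', rfl⟩ := List.exists_cons_of_length_eq_add_one hg
      obtain ⟨j, h', rfl⟩ := List.exists_cons_of_length_eq_add_one hh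
      have hij : i = j := by simpa using h0
      subst hij
      simp only [coin_cons]
      refine ih g' h' (by simpa using hg) (by simpa using hh) (by omega) ?_
      rintro rfl
      exact hne rfl
    by_cases h1 : g.getD (g.length - 1) 0 = h.getD (g.length - 1) 0
    · have hgn : g ≠ [] := by rintro rfl; simp at hg
      have hhn : h ≠ [] := by rintro rfl; simp at hh
      obtain ⟨g', i, rfl⟩ : ∃ g' i, g = g' ++ [i] := ⟨g.dropLast, g.getLast hgn, (List.dropLast_append_getLast hgn).symm⟩
      obtain ⟨h', j, rfl⟩ : ∃ h' j, h = h' ++ [j] := ⟨h.dropLast, h.getLast hhn, (List.dropLast_append_getLast hhn).symm⟩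
      have hlg : g'.length = l := by simpa using hg
      have hlh : h'.length = l := by simpa using hh
      have hij : i = j := by
        have e1 : (g' ++ [i]).getD ((g' ++ [i]).length - 1) 0 = i := by
          simp [List.getD_eq_getElem?_getD]
        have e2 : (h' ++ [j]).getD ((g' ++ [i]).length - 1) 0 = j := by
          have : (g' ++ [i]).length - 1 = h'.length := by simp [hlg, hlh]
          rw [this]
          simp [List.getD_eq_getElem?_getD]
        rw [e1, e2] at h1
        exact h1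
      subst hij
      simp only [coin_snoc]
      refine ih g' h' hlg hlh (by omega) ?_
      rintro rfl
      exact hne rfl
    · exact sum_coin_base hC hr hL (hg.trans hh.symm) (by omega) (by omega) h0 h1

end TRC

open TRC in
/-- package TRC -/
theorem t_TRC : S_CNT → S_TRC := by
  classical
  intro hC n r L hr hL1 hL
  have hn : 0 < n := by
    have : 0 < 8 * L ^ 2 * r := by positivity
    omega
  have hrn : r ≤ n := by
    have h1 : r ≤ 8 * L ^ 2 * r := Nat.le_mul_of_pos_left r (by positivity)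
    omega
  have : Nonempty (Tup r n) := by
    have := card_Tup_pos hrn
    exact Fintype.card_pos_iff.1 this
  set E := Real.exp (100 * Real.sqrt ((L : ℝ) ^ 6 * (r : ℝ) ^ 5 / n)) with hE
  have hcx : (∑ x : Fin 2 → Equiv.Perm (Fin n), (1 : ℝ)) = (n.factorial : ℝ) ^ 2 := by
    simp [Fintype.card_perm]
  simp only [HS_eq]
  rw [Finset.sum_sub_distrib, ← Finset.sum_div, hcx]
  have h1 : ∑ x : Fin 2 → Equiv.Perm (Fin n), ∑ g : Fin L → Fin 2, ∑ h : Fin L → Fin 2,
      (coin (fun i => mvE (j := r) (x i)) (List.ofFn g) (List.ofFn h) : ℝ) =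
      ∑ g : Fin L → Fin 2, ∑ h : Fin L → Fin 2, ∑ x : Fin 2 → Equiv.Perm (Fin n),
      (coin (fun i => mvE (j := r) (x i)) (List.ofFn g) (List.ofFn h) : ℝ) := by
    rw [Finset.sum_comm]
    refine Finset.sum_congr rfl fun g _ => ?_
    rw [Finset.sum_comm]
  rw [h1]
  have h2 : ∀ g h : Fin L → Fin 2, ∑ x : Fin 2 → Equiv.Perm (Fin n),
      (coin (fun i => mvE (j := r) (x i)) (List.ofFn g) (List.ofFn h) : ℝ) ≤
      (if g = h then (n.factorial : ℝ) ^ 2 * (n : ℝ) ^ r else 0) + (n.factorial : ℝ) ^ 2 * E := by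
    intro g h
    split_ifs with hgh
    · have : ∀ x : Fin 2 → Equiv.Perm (Fin n),
          (coin (fun i => mvE (j := r) (x i)) (List.ofFn g) (List.ofFn h) : ℝ) ≤ (n : ℝ) ^ r := by
        intro x
        have h3 := coin_le (fun i => mvE (j := r) (x i)) (List.ofFn g) (List.ofFn h)
        have h4 := card_Tup_le r n
        exact_mod_cast h3.trans h4
      have h5 : ∑ x : Fin 2 → Equiv.Perm (Fin n),
          (coin (fun i => mvE (j := r) (x i)) (List.ofFn g) (List.ofFn h) : ℝ) ≤
          (n.factorial : ℝ) ^ 2 * (n : ℝ) ^ r := by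
        calc _ ≤ ∑ x : Fin 2 → Equiv.Perm (Fin n), (n : ℝ) ^ r := sum_le_sum fun x _ => this x
          _ = (∑ x : Fin 2 → Equiv.Perm (Fin n), (1 : ℝ)) * (n : ℝ) ^ r := by
              rw [Finset.sum_mul]; simp
          _ = _ := by rw [hcx]
      have h6 : 0 ≤ (n.factorial : ℝ) ^ 2 * E := by positivity
      linarith
    · rw [zero_add]
      refine sum_coin hC hr hL L _ _ (by simp) (by simp) le_rfl ?_
      intro h3
      exact hgh (List.ofFn_injective h3)
  have h3 : ∑ g : Fin L → Fin 2, ∑ h : Fin L → Fin 2, ∑ x : Fin 2 → Equiv.Perm (Fin n),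
      (coin (fun i => mvE (j := r) (x i)) (List.ofFn g) (List.ofFn h) : ℝ) ≤
      2 ^ L * ((n.factorial : ℝ) ^ 2 * (n : ℝ) ^ r) + 4 ^ L * ((n.factorial : ℝ) ^ 2 * E) := by
    calc _ ≤ ∑ g : Fin L → Fin 2, ∑ h : Fin L → Fin 2,
          ((if g = h then (n.factorial : ℝ) ^ 2 * (n : ℝ) ^ r else 0) +
            (n.factorial : ℝ) ^ 2 * E) := sum_le_sum fun g _ => sum_le_sum fun h _ => h2 g h
      _ = _ := by
        simp only [Finset.sum_add_distrib, Finset.sum_ite_eq, Finset.mem_univ, if_true,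
          Finset.sum_const, Finset.card_univ, nsmul_eq_mul, Fintype.card_fun, Fintype.card_fin]
        push_cast
        rw [show (4 : ℝ) ^ L = 2 ^ L * 2 ^ L by rw [← mul_pow]; norm_num]
        ring
  have h4 : (0 : ℝ) < 4 ^ L := by positivity
  have h5 : (∑ g : Fin L → Fin 2, ∑ h : Fin L → Fin 2, ∑ x : Fin 2 → Equiv.Perm (Fin n),
      (coin (fun i => mvE (j := r) (x i)) (List.ofFn g) (List.ofFn h) : ℝ)) / 4 ^ L ≤
      (n.factorial : ℝ) ^ 2 * ((n : ℝ) ^ r / 2 ^ L) + (n.factorial : ℝ) ^ 2 * E := by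
    rw [div_le_iff₀ h4]
    refine h3.trans (le_of_eq ?_)
    rw [show (4 : ℝ) ^ L = 2 ^ L * 2 ^ L by rw [← mul_pow]; norm_num]
    field_simp
  linarith

end

end P2516
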