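import Pool.Agent.U516.P2.Spec

/-!
Project P2, package ZI (helper594): the generating function of the hits from adaptive exploration.
-/

set_option autoImplicit false

namespace P2516
open RC14 RD516 R3516 Finset Filter Topology

noncomputable section

namespace ZI594

variable {n k : ℕ}

/-- the strategy -/
def st (m : ℕ) (p q : ℕ → Fin k) (a : ℕ → Fin n) (h : List (Fin n)) : Fin k × Fin n :=
  (lab m p q (h.length % (2 * m)),
    if h.length % (2 * m) = 0 ∨ h.length % (2 * m) = m then a (h.length / (2 * m))
      else h.headD (a 0))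

theorem hist_length (x : Fin k → Equiv.Perm (Fin n)) (σ : List (Fin n) → Fin k × Fin n) (j : ℕ) :
    (hist x σ j).length = j := by
  induction j with
  | zero => rfl
  | succ j ih => simp [hist, ih]

theorem pos_pred (x : Fin k → Equiv.Perm (Fin n)) (p : ℕ → Fin k) (b : Fin n) (m : ℕ)
    (hm : 1 ≤ m) : x (p (m - 1)) (pos x p b (m - 1)) = pos x p b m := by
  cases m with
  | zero => omega
  | succ m => rfl

theorem st_hist (x : Fin k → Equiv.Perm (Fin n)) (m : ℕ) (hm : 1 ≤ m) (p q : ℕ → Fin k)
    (a : ℕ → Fin n) (j : ℕ) : st m p q a (hist x (st m p q a) j) = qry x m p q a j := by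
  induction j with
  | zero =>
    unfold st qry
    rw [hist_length]
    have h1 : 0 < m := hm
    simp [src, pos, h1]
  | succ i ih =>
    have hst : st m p q a (hist x (st m p q a) (i + 1)) =
        (lab m p q ((hist x (st m p q a) (i + 1)).length % (2 * m)),
          if (hist x (st m p q a) (i + 1)).length % (2 * m) = 0 ∨
              (hist x (st m p q a) (i + 1)).length % (2 * m) = m then
            a ((hist x (st m p q a) (i + 1)).length / (2 * m))
          else (hist x (st m p q a) (i + 1)).headD (a 0)) := rfl
    rw [hst, hist_length]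
    unfold qry
    have hd : 0 < 2 * m := by omega
    by_cases h0 : (i + 1) % (2 * m) = 0 ∨ (i + 1) % (2 * m) = m
    · rw [if_pos h0]
      congr 1
      rcases h0 with h0 | h0
      · rw [h0]
        have h1 : 0 < m := hm
        simp [src, pos, h1]
      · rw [h0]
        simp [src, pos]
    · rw [if_neg h0]
      push Not at h0
      have hlt : i % (2 * m) < 2 * m := Nat.mod_lt _ hd
      have hdm := Nat.mod_add_div i (2 * m)
      have hlt2 : i % (2 * m) + 1 < 2 * m := by
        by_contra hcon
        apply h0.1
        have h1 : i + 1 = 2 * m * (i / (2 * m) + 1) := by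
          have h2 : i % (2 * m) + 1 = 2 * m := by omega
          rw [Nat.mul_add, mul_one]
          omega
        rw [h1, Nat.mul_mod_right]
      obtain ⟨hc, hs⟩ := (Nat.div_mod_unique (a := i + 1) (c := i % (2 * m) + 1)
        (d := i / (2 * m)) hd).2 ⟨by omega, hlt2⟩
      have hh : (hist x (st m p q a) (i + 1)).headD (a 0) = ans x m p q a i := by
        rw [hist, List.headD_cons, ih]
        rfl
      rw [hh, hs, hc]
      rw [hs] at h0
      congr 1
      unfold ans qry src lab
      simp only
      by_cases h1 : i % (2 * m) + 1 < m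
      · rw [if_pos h1, if_pos (by omega), if_pos (by omega)]
        rfl
      · have h2 : m ≤ i % (2 * m) := by omega
        rw [if_neg h1, if_neg (by omega), if_neg (by omega)]
        have h3 : i % (2 * m) + 1 - m = (i % (2 * m) - m) + 1 := by omega
        rw [h3]
        rfl

theorem hist_succ (x : Fin k → Equiv.Perm (Fin n)) (m : ℕ) (hm : 1 ≤ m) (p q : ℕ → Fin k)
    (a : ℕ → Fin n) (j : ℕ) : hist x (st m p q a) (j + 1) =
      ans x m p q a j :: hist x (st m p q a) j := by
  rw [hist, st_hist x m hm]
  rfl

theorem mem_hist (x : Fin k → Equiv.Perm (Fin n)) (m : ℕ) (hm : 1 ≤ m) (p q : ℕ → Fin k)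
    (a : ℕ → Fin n) (j : ℕ) (v : Fin n) : v ∈ hist x (st m p q a) j ↔
      ∃ i < j, ans x m p q a i = v := by
  induction j with
  | zero => simp [hist]
  | succ j ih =>
    rw [hist_succ x m hm, List.mem_cons, ih]
    constructor
    · rintro (h | ⟨i, hi, h⟩)
      · exact ⟨j, Nat.lt_succ_self j, h.symm⟩
      · exact ⟨i, by omega, h⟩
    · rintro ⟨i, hi, h⟩
      rcases Nat.lt_succ_iff_lt_or_eq.1 hi with h1 | h1
      · exact Or.inr ⟨i, h1, h⟩
      · subst h1
        exact Or.inl h.symm

theorem get_hist (x : Fin k → Equiv.Perm (Fin n)) (m : ℕ) (hm : 1 ≤ m) (p q : ℕ → Fin k)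
    (a : ℕ → Fin n) (j : ℕ) : ∀ t < j, (hist x (st m p q a) j)[t]? =
      some (ans x m p q a (j - 1 - t)) := by
  induction j with
  | zero => intro t ht; omega
  | succ j ih =>
    intro t ht
    rw [hist_succ x m hm]
    cases t with
    | zero => simp
    | succ t =>
      rw [List.getElem?_cons_succ, ih t (by omega)]
      congr 2
      omega

theorem newQ_iff (x : Fin k → Equiv.Perm (Fin n)) (m : ℕ) (hm : 1 ≤ m) (p q : ℕ → Fin k)
    (a : ℕ → Fin n) (j : ℕ) : NewQ x (st m p q a) j ↔ New x m p q a j := by
  unfold NewQ New
  simp only [st_hist x m hm]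

open Classical in
/-- weight of an answer to an old query -/
def w0 (m : ℕ) (I : Finset ℕ) (h : List (Fin n)) (_ : Fin n) : ℝ :=
  if h.length / (2 * m) ∈ I ∧ h.length % (2 * m) = 2 * m - 1 then 0 else 1

open Classical in
/-- weight of an answer to a new query -/
def w1 (m r : ℕ) (a : ℕ → Fin n) (I : Finset ℕ) (lam : ℝ) (h : List (Fin n)) (v : Fin n) : ℝ :=
  if h.length / (2 * m) ∈ I then
    (if h.length % (2 * m) = 2 * m - 1 then (if h[m - 1]? = some v then 1 else 0) else 1)
  else (if (∃ c < r, a c = v) ∨ v ∈ h then lam else 1)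

/-- the block factor -/
def bf (n m : ℕ) (I : Finset ℕ) (D : ℝ) (c s : ℕ) : ℝ :=
  if c ∈ I then (if s = 2 * m - 1 then 1 / (n : ℝ) else 1) else D

theorem prod_blocks (d r : ℕ) (hd : 0 < d) (g : ℕ → ℕ → ℝ) :
    ∏ j ∈ range (d * r), g (j / d) (j % d) = ∏ c ∈ range r, ∏ s ∈ range d, g c s := by
  induction r with
  | zero => simp
  | succ r ih =>
    rw [Nat.mul_succ, Finset.prod_range_add, ih, Finset.prod_range_succ]
    congr 1
    refine Finset.prod_congr rfl fun s hs => ?_
    rw [Finset.mem_range] at hs
    obtain ⟨h1, h2⟩ := (Nat.div_mod_unique (a := d * r + s) (c := s) (d := r) hd).2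
      ⟨by omega, hs⟩
    rw [h1, h2]

theorem prod_bf (n m r : ℕ) (hm : 1 ≤ m) (I : Finset ℕ) (hI : I ⊆ range r) (D : ℝ) :
    ∏ j ∈ range (2 * m * r), bf n m I D (j / (2 * m)) (j % (2 * m)) =
      (1 / (n : ℝ)) ^ #I * D ^ (2 * m * (r - #I)) := by
  rw [prod_blocks (2 * m) r (by omega)]
  have h1 : ∀ c ∈ range r, ∏ s ∈ range (2 * m), bf n m I D c s =
      if c ∈ I then 1 / (n : ℝ) else D ^ (2 * m) := by
    intro c _
    unfold bf
    split_ifs with h
    · rw [Finset.prod_ite_eq' (range (2 * m)) (2 * m - 1) (fun _ => 1 / (n : ℝ)),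
        if_pos (Finset.mem_range.2 (by omega))]
    · rw [Finset.prod_const, Finset.card_range]
  rw [Finset.prod_congr rfl h1, Finset.prod_ite, Finset.prod_const, Finset.prod_const]
  have h2 : (range r).filter (fun c => c ∈ I) = I := by
    ext c
    rw [Finset.mem_filter]
    exact ⟨fun h => h.2, fun h => ⟨hI h, h⟩⟩
  have h3 : #((range r).filter fun c => ¬ c ∈ I) = r - #I := by
    have h4 := Finset.card_filter_add_card_filter_not (s := range r) (fun c => c ∈ I)
    rw [h2, Finset.card_range] at h4
    omega
  rw [h2, h3, ← pow_mul]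

theorem card_seen (r : ℕ) (a : ℕ → Fin n) (h : List (Fin n)) :
    ∀ (_ : DecidablePred fun v : Fin n => (∃ c < r, a c = v) ∨ v ∈ h),
      #{v : Fin n | (∃ c < r, a c = v) ∨ v ∈ h} ≤ r + h.length := by
  intro _
  have h1 : (univ.filter fun v : Fin n => (∃ c < r, a c = v) ∨ v ∈ h) ⊆
      (range r).image a ∪ h.toFinset := by
    intro v hv
    rw [Finset.mem_filter] at hv
    rw [Finset.mem_union, Finset.mem_image, List.mem_toFinset]
    rcases hv.2 with ⟨c, hc, h2⟩ | h2
    · exact Or.inl ⟨c, Finset.mem_range.2 hc, h2⟩
    · exact Or.inr h2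
  refine (Finset.card_le_card h1).trans ((Finset.card_union_le _ _).trans ?_)
  have h2 : #((range r).image a) ≤ r := by
    simpa using Finset.card_image_le (s := range r) (f := a)
  have h3 := List.toFinset_card_le h
  omega

end ZI594

open ZI594

theorem t_ZI : S_EXPL → S_ZI := by
  classical
  intro hE n k r m p q a I lam hm hI hlam hN
  set N : ℕ := 2 * m * r with hNdef
  have hn0 : (0 : ℝ) < n := by
    have : 0 < n := by omega
    exact_mod_cast this
  have hNn : (0 : ℝ) < (n : ℝ) - N := by
    have : (N : ℝ) < n := by exact_mod_cast hN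
    linarith
  set D : ℝ := 1 + 2 * lam * (N : ℝ) / n with hD
  have hD1 : 1 ≤ D := by
    have : 0 ≤ 2 * lam * (N : ℝ) / n := by positivity
    rw [hD]; linarith
  set A : ℝ := (n : ℝ) / (n - N) with hA
  have hA1 : 1 ≤ A := by
    rw [hA, le_div_iff₀ hNn]
    have : (0 : ℝ) ≤ N := Nat.cast_nonneg _
    linarith
  set B : ℕ → ℝ := fun j => A * bf n m I D (j / (2 * m)) (j % (2 * m)) with hB
  have hprod : ∏ j ∈ range N, B j = A ^ N * ((1 / (n : ℝ)) ^ #I * D ^ (2 * m * (r - #I))) := by
    rw [hB, Finset.prod_mul_distrib, Finset.prod_const, Finset.card_range, prod_bf n m r hm I hI D]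
  have hmain := hE n k N (st m p q a) (w0 m I) (w1 m r a I lam) B hN (by
    intro j hj h hlen
    have hAn : ((n : ℝ) - N) * A = n := by
      rw [hA]
      field_simp
    constructor
    · intro v
      refine ⟨?_, ?_, ?_⟩
      · unfold w0
        split_ifs <;> norm_num
      · unfold w0
        rw [hlen]
        simp only [hB, bf]
        split_ifs with h1 h2 h3 h4 h5
        · positivity
        · exact absurd h1.2 h3
        · exact absurd h1.1 h2
        · exact absurd ⟨h4, h5⟩ h1
        · linarith
        · nlinarith
      · unfold w1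
        split_ifs <;> first | exact hlam | norm_num
    · simp only [w1, hlen, hB, bf]
      by_cases h1 : j / (2 * m) ∈ I
      · simp only [if_pos h1]
        by_cases h2 : j % (2 * m) = 2 * m - 1
        · simp only [if_pos h2]
          have h3 : ((n : ℝ) - N) * (A * (1 / n)) = 1 := by
            rw [← mul_assoc, hAn]
            field_simp
          rw [h3]
          cases hh : h[m - 1]? with
          | none => simp
          | some w =>
            simp only [Option.some.injEq]
            rw [Finset.sum_ite_eq]
            simp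
        · simp only [if_neg h2]
          rw [mul_one, hAn]
          simp
      · simp only [if_neg h1]
        have h3 : ((n : ℝ) - N) * (A * D) = n + 2 * lam * N := by
          rw [← mul_assoc, hAn, hD]
          field_simp
        rw [h3]
        have h4 : ∀ v : Fin n, (if (∃ c < r, a c = v) ∨ v ∈ h then lam else 1) ≤
            1 + lam * (if (∃ c < r, a c = v) ∨ v ∈ h then (1 : ℝ) else 0) := by
          intro v
          split_ifs <;> linarith
        refine (Finset.sum_le_sum fun v _ => h4 v).trans ?_
        rw [Finset.sum_add_distrib, ← Finset.mul_sum, Finset.sum_boole]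
        have h5 := card_seen r a h inferInstance
        rw [hlen] at h5
        have h6 : r ≤ N := by
          rw [hNdef]
          nlinarith
        have h7 : (#{v : Fin n | (∃ c < r, a c = v) ∨ v ∈ h} : ℝ) ≤ 2 * N := by
          have : #{v : Fin n | (∃ c < r, a c = v) ∨ v ∈ h} ≤ 2 * N := by omega
          exact_mod_cast this
        have h8 : lam * (#{v : Fin n | (∃ c < r, a c = v) ∨ v ∈ h} : ℝ) ≤ lam * (2 * N) :=
          mul_le_mul_of_nonneg_left h7 hlam
        simp only [Finset.sum_const, Finset.card_univ, Fintype.card_fin, nsmul_eq_mul, mul_one]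
        linarith)
  rw [hprod] at hmain
  refine (Finset.sum_le_sum fun x _ => ?_).trans (hmain.trans (le_of_eq (by ring)))
  have hterm : ∀ j, (if NewQ x (st m p q a) j then
      w1 m r a I lam (hist x (st m p q a) j)
        (x (st m p q a (hist x (st m p q a) j)).1 (st m p q a (hist x (st m p q a) j)).2)
      else w0 m I (hist x (st m p q a) j)
        (x (st m p q a (hist x (st m p q a) j)).1 (st m p q a (hist x (st m p q a) j)).2)) =
      if New x m p q a j then w1 m r a I lam (hist x (st m p q a) j) (ans x m p q a j)
        else w0 m I (hist x (st m p q a) j) (ans x m p q a j) := by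
    intro j
    simp only [newQ_iff x m hm, st_hist x m hm]
    rfl
  simp only [hterm]
  split_ifs with hc
  · -- the product is the power
    have hfac : ∀ j ∈ range N, (if New x m p q a j then
        w1 m r a I lam (hist x (st m p q a) j) (ans x m p q a j)
        else w0 m I (hist x (st m p q a) j) (ans x m p q a j)) =
        if Hit x m p q a r j ∧ j / (2 * m) ∉ I then lam else 1 := by
      intro j hj
      unfold w0 w1
      rw [hist_length]
      by_cases h1 : j / (2 * m) ∈ I
      · rw [if_pos h1]
        have h0 : ¬ (Hit x m p q a r j ∧ j / (2 * m) ∉ I) := fun h => h.2 h1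
        rw [if_neg h0]
        by_cases h2 : j % (2 * m) = 2 * m - 1
        · have hd : 0 < 2 * m := by omega
          have hdm := Nat.mod_add_div j (2 * m)
          have hj2 : j / (2 * m) * (2 * m) + (2 * m - 1) = j := by
            rw [h2] at hdm
            rw [mul_comm (j / (2 * m))]
            omega
          obtain ⟨hnew, hcl⟩ := hc _ h1
          rw [hj2] at hnew
          rw [if_pos hnew, if_pos h2]
          rw [if_pos]
          rw [get_hist x m hm p q a j (m - 1) (by omega)]
          congr 1
          -- both are the closing point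
          have e1 : j - 1 - (m - 1) = j / (2 * m) * (2 * m) + (m - 1) := by omega
          obtain ⟨e2, e3⟩ := (Nat.div_mod_unique (a := j / (2 * m) * (2 * m) + (m - 1))
            (c := m - 1) (d := j / (2 * m)) hd).2 ⟨by rw [mul_comm (2 * m)]; omega, by omega⟩
          have e4 : ans x m p q a (j - 1 - (m - 1)) = pos x p (a (j / (2 * m))) m := by
            rw [e1]
            unfold ans qry
            rw [e2, e3]
            unfold src lab
            rw [if_pos (by omega), if_pos (by omega)]
            exact pos_pred x p _ m hm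
          have e6 : ans x m p q a j = pos x q (a (j / (2 * m))) m := by
            unfold ans qry
            rw [h2]
            unfold src lab
            rw [if_neg (by omega), if_neg (by omega)]
            have e7 : 2 * m - 1 - m = m - 1 := by omega
            rw [e7]
            exact pos_pred x q _ m hm
          rw [e4, e6, hcl]
        · rw [if_neg h2]
          split_ifs with h5 h6
          · rfl
          · exact absurd h6.2 h2
          · rfl
      · rw [if_neg h1]
        by_cases h3 : New x m p q a j
        · rw [if_pos h3]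
          have h4 : (Hit x m p q a r j ∧ j / (2 * m) ∉ I) ↔
              ((∃ c < r, a c = ans x m p q a j) ∨ ans x m p q a j ∈ hist x (st m p q a) j) := by
            rw [mem_hist x m hm]
            unfold Hit
            exact ⟨fun h => h.1.2, fun h => ⟨⟨h3, h⟩, h1⟩⟩
          simp only [h4]
        · rw [if_neg h3, if_neg (fun h => h1 h.1), if_neg]
          intro h
          exact h3 h.1.1
    rw [Finset.prod_congr rfl hfac, Finset.prod_ite, Finset.prod_const, Finset.prod_const_one,
      mul_one]
  · refine Finset.prod_nonneg fun j _ => ?_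
    unfold w0 w1
    split_ifs <;> first | exact hlam | norm_num

end

end P2516
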