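import Pool.Agent.U516.P2.Spec
import Pool.Agent.U516.R3.FinK

/-!
Project P2: the assembly for pairs.
-/

namespace P2516
open RC14 RD516 R3516 Finset Equiv Filter Topology
open Pool.Agent.R236.Den

noncomputable section

section det
variable {n k : ℕ} {x : Fin k → alternatingGroup (Fin n)}

/-- the deterministic part -/
theorem det2p (hCM : S_CM) (hk : 1 ≤ k) {ε : ℝ} (hε : ε ≤ 2)
    {L1 L2 M : ℕ} (hn : 400 ≤ n) (hg : ∀ r ≤ M, TGap x ε r) (hM : 1600 ≤ M)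
    (hL : (1 - ε / 2) ^ L2 * (n : ℝ) ^ 2 ≤ 1 / (16 * (n : ℝ) ^ 2))
    (hT : (1 - ε / 2) ^ n * ((n : ℝ) ^ M) ^ 2 ≤ 1 / 64) (h2M : 2 * M ≤ n)
    {g : Perm (Fin n)} (hgw : g ∈ PB x (1 + L1))
    (hgp : ∃ m ≤ n, n ≤ 32 * #(g ^ m).support ∧ 8 * #(g ^ m).support ≤ n) :
    ∃ ℓ s : ℕ, (ℓ : ℝ) ≤ 256 * (n * (1 + L1) + 2 * L2) * Real.log n ^ 2 + 4 * n ∧
      M ≤ 512 * s ∧ 6 ≤ s ∧ ∀ σ : Perm (Fin n), Perm.sign σ = 1 →
        σ ∈ PB x (2 * ((2 * ℓ + 4 * n) * (n / (4 * (s / 6)) + 2))) := by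
  obtain ⟨m0, hm0, h1, h2⟩ := hgp
  have hn1 : (1 : ℝ) ≤ n := by
    have : 1 ≤ n := by omega
    exact_mod_cast this
  have ht : g ^ m0 ∈ PB x (n * (1 + L1)) :=
    PB.mono (Nat.mul_le_mul_right _ hm0) (PB.pow hgw m0)
  obtain ⟨m, hm⟩ : ∃ m, m = M / 16 := ⟨_, rfl⟩
  have hm16 : 16 * m ≤ M := by omega
  have hm100 : 100 ≤ m := by omega
  have hMm : M ≤ 32 * m := by omega
  obtain ⟨R, hRdef⟩ : ∃ R, R = Nat.sqrt (m * n) := ⟨_, rfl⟩
  have hR1 : R ^ 2 ≤ m * n := by rw [hRdef]; exact Nat.sqrt_le' _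
  have hR2 : m * n < (R + 1) ^ 2 := by rw [hRdef]; exact Nat.lt_succ_sqrt' _
  have hR3 : m * n ≤ 4 * R ^ 2 := by
    have : 1 ≤ R := by
      by_contra hcon
      have h0 : R = 0 := by omega
      rw [h0] at hR2
      have : 1 ≤ m * n := Nat.mul_pos (by omega) (by omega)
      omega
    nlinarith
  have hR8 : 8 * n ≤ R ^ 2 := by
    have : 100 * n ≤ m * n := Nat.mul_le_mul_right _ hm100
    omega
  have hlow : R ^ 2 ≤ 4 * n * #(g ^ m0).support := by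
    have h3 : m * n ≤ 4 * n * #(g ^ m0).support := by
      have h4 : 8 * m ≤ n := by omega
      have h5 : 8 * (m * n) ≤ n * n := by nlinarith
      have h6 : n * n ≤ n * (32 * #(g ^ m0).support) := Nat.mul_le_mul_left _ h1
      nlinarith
    exact hR1.trans h3
  obtain ⟨u, ℓ, hu, hu1, hu2, hu3, hu4⟩ := reduce2 hk hε (hg 2 (by omega)) hL (by omega) hR8
    #(g ^ m0).support (n * (1 + L1)) (g ^ m0) ht rfl h2 hlow
  have hs0 : 1 ≤ #(g ^ m0).support := by omega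
  have hlg := log_ge hs0 h2
  -- the length after the reduction
  have hlen : (ℓ : ℝ) ≤ 64 * (n * (1 + L1) + 2 * L2) * Real.log n ^ 2 := by
    have h3 : (1 / 16 : ℝ) ≤ Real.log (n / (6 * #(g ^ m0).support)) ^ 2 := by
      have := pow_le_pow_left₀ (by norm_num) hlg 2
      norm_num at this ⊢
      linarith
    have h4 : (0 : ℝ) ≤ ((ℓ + 2 * L2 : ℕ) : ℝ) := Nat.cast_nonneg _
    have h5 := mul_le_mul_of_nonneg_left h3 h4
    have h6 : (ℓ : ℝ) ≤ ((ℓ + 2 * L2 : ℕ) : ℝ) := by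
      push_cast
      have : (0 : ℝ) ≤ L2 := Nat.cast_nonneg _
      linarith
    have h7 : ((ℓ + 2 * L2 : ℕ) : ℝ) * (1 / 16) ≤
        4 * ((n * (1 + L1) + 2 * L2 : ℕ) : ℝ) * Real.log n ^ 2 := h5.trans hu4
    push_cast at h6 h7
    linarith
  -- the last step
  have hlast : ∃ ℓ₂ : ℕ, ∃ v ∈ PB x ℓ₂, ℓ₂ ≤ 4 * ℓ + 4 * n ∧ m ≤ 16 * #v.support ∧
      #v.support ≤ 15 * m := by
    by_cases h3 : 3 * m ≤ #u.support
    · have hTm : (1 - ε / 2) ^ n * ((n : ℝ) ^ (2 * m + 2)) ^ 2 ≤ 1 / 64 := by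
        refine le_trans ?_ hT
        have h4 : (n : ℝ) ^ (2 * m + 2) ≤ (n : ℝ) ^ M := pow_le_pow_right₀ hn1 (by omega)
        have h5 : (0 : ℝ) ≤ (1 - ε / 2) ^ n := pow_nonneg (by linarith) _
        gcongr
      obtain ⟨v, hv, hv1, hv2⟩ := hCM n k x ε m n ℓ u hk hε (by omega) (hg _ (by omega))
        (hg _ (by omega)) hTm hu h3 ((Nat.pow_le_pow_left hu1 2).trans hR1) hu3
      exact ⟨_, v, hv, le_rfl, by omega, hv2⟩
    · refine ⟨ℓ, u, hu, by omega, ?_, by omega⟩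
      have h4 : n * m ≤ n * (16 * #u.support) := by nlinarith
      exact Nat.le_of_mul_le_mul_left h4 (by omega)
  obtain ⟨ℓ₂, v, hv, hv0, hv1, hv2⟩ := hlast
  have htr : Trans x M n := trans_of_gap hk hε (by omega) hg (by linarith)
  refine ⟨ℓ₂, #v.support, ?_, by omega, by omega, fun σ hσ =>
    all_of_small (by omega) htr hv (by omega) (by omega) hσ⟩
  have hv0' : (ℓ₂ : ℝ) ≤ 4 * ℓ + 4 * n := by exact_mod_cast hv0
  linarith


end det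

/-- the argument for one `n` -/
theorem one_n2 (hCM : S_CM) {n : ℕ} {ε X Y : ℝ} (hε : ε ≤ 2) {J M : ℕ} (hn : 400 ≤ n)
    (E : Finset (Alt n))
    (hE3 : ∀ g ∈ E, ∃ m ≤ n, n ≤ 32 * #((g : Equiv.Perm (Fin n)) ^ m).support ∧
        8 * #((g : Equiv.Perm (Fin n)) ^ m).support ≤ n)
    (hM : 1600 ≤ M) (hL : (1 - ε / 2) ^ n * (n : ℝ) ^ 2 ≤ 1 / (16 * (n : ℝ) ^ 2))
    (hT : (1 - ε / 2) ^ n * ((n : ℝ) ^ M) ^ 2 ≤ 1 / 64) (h2M : 2 * M ≤ n)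
    (hX1 : 12700000 ≤ X) (hJX : (J : ℝ) + 2 ≤ X) (hlog : Real.log n ^ 2 ≤ X) (hY0 : 0 < Y)
    (hYM : Y ≤ 2 * M) :
    (Nat.card {x : Fin 2 → Alt n // ¬ Short (n * (n / Y) * X ^ 3) x} : ℝ) ≤
      Nat.card {x : Fin 2 → Alt n // ¬ ∀ r ≤ M, TGap x ε r} +
      Nat.card {x : Fin 2 → Alt n // ¬ ∃ i ≤ J, x 0 * x 1 ^ i ∈ E} := by
  classical
  rw [Nat.card_eq_fintype_card, Nat.card_eq_fintype_card, Nat.card_eq_fintype_card,
    Fintype.card_subtype, Fintype.card_subtype, Fintype.card_subtype]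
  have h4 : (univ.filter fun x : Fin 2 → Alt n => ¬ Short (n * (n / Y) * X ^ 3) x) ⊆
      (univ.filter fun x : Fin 2 → Alt n => ¬ ∀ r ≤ M, TGap x ε r) ∪
      (univ.filter fun x : Fin 2 → Alt n => ¬ ∃ i ≤ J, x 0 * x 1 ^ i ∈ E) := by
    intro x hx
    rw [mem_filter] at hx
    rw [mem_union, mem_filter, mem_filter]
    by_contra hcon
    push Not at hcon
    apply hx.2
    obtain ⟨hA, hB⟩ := hcon
    have hA' := hA (mem_univ _)
    obtain ⟨i, hi, hw⟩ := hB (mem_univ _)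
    have hgw : ((x 0 * x 1 ^ i : Alt n) : Equiv.Perm (Fin n)) ∈ PB x (1 + J) := by
      rw [Subgroup.coe_mul, Subgroup.coe_pow]
      exact PB.mul (PB.gen 0) (PB.mono (by omega) (PB.pow (PB.gen 1) i))
    obtain ⟨ℓ, s, g1, g2, g3, g4⟩ := det2p hCM (by norm_num) hε hn hA' hM hL hT h2M hgw
      (hE3 _ hw)
    have hn1 : (0 : ℝ) ≤ n := Nat.cast_nonneg _
    have g1' : (ℓ : ℝ) ≤ 256 * (n * (1 + ((J + 2 : ℕ) : ℝ)) + 2 * ((J + 2 : ℕ) : ℝ)) *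
        Real.log n ^ 2 + 4 * n := by
      refine g1.trans ?_
      have h5 : (n : ℝ) * (1 + J) + 2 * n ≤
          n * (1 + ((J + 2 : ℕ) : ℝ)) + 2 * ((J + 2 : ℕ) : ℝ) := by
        push_cast
        have : (0 : ℝ) ≤ J := Nat.cast_nonneg _
        nlinarith
      have h6 : (0 : ℝ) ≤ Real.log n ^ 2 := sq_nonneg _
      have h7 := mul_le_mul_of_nonneg_right h5 h6
      linarith
    intro σ hσ
    exact ⟨_, num2 hX1 (by omega) (by push_cast; exact hJX) hlog hY0 hYM (by omega) g1' g2 g3,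
      g4 σ hσ⟩
  exact_mod_cast (card_le_card h4).trans (card_union_le _ _)

lemma params2 (κ δ : ℝ) (hκ : 0 < κ) (hκ1 : κ < 1 / 2) (hδ : 0 < δ) :
    ∀ᶠ n : ℕ in atTop, 400 ≤ n ∧ 1600 ≤ ⌊(n : ℝ) ^ κ⌋₊ ∧
      (1 - (n : ℝ) ^ (-(1 / 4) : ℝ) / 2) ^ n * (n : ℝ) ^ 2 ≤ 1 / (16 * (n : ℝ) ^ 2) ∧
      (1 - (n : ℝ) ^ (-(1 / 4) : ℝ) / 2) ^ n * ((n : ℝ) ^ ⌊(n : ℝ) ^ κ⌋₊) ^ 2 ≤ 1 / 64 ∧
      2 * ⌊(n : ℝ) ^ κ⌋₊ ≤ n ∧
      12700000 ≤ (n : ℝ) ^ δ ∧ (⌊Real.log n⌋₊ : ℝ) + 2 ≤ (n : ℝ) ^ δ ∧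
      Real.log n ^ 2 ≤ (n : ℝ) ^ δ ∧
      (n : ℝ) ^ κ ≤ 2 * ⌊(n : ℝ) ^ κ⌋₊ := by
  filter_upwards [eventually_ge_atTop 400, ev_const (κ) 3200 (by linarith),
    ev_const δ 12700000 hδ, ev_le (κ) 1 2 (by linarith),
    ev_log 0 (3 / 4) 20 (by norm_num), ev_log (κ) (3 / 4) 8 (by linarith),
    ev_log 0 (δ / 2) 1 (by linarith), ev_const (3 / 4) 20 (by norm_num),
    ev_log 0 δ 2 hδ, ev_const δ 4 hδ]
    with n h400 hM4 hX hM2 hlog1 hlog2 hlog3 hnε hlog5 h4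
  have hn : (400 : ℝ) ≤ n := by exact_mod_cast h400
  have hn0 : (0 : ℝ) < n := lt_of_lt_of_le (by norm_num) hn
  have hlogn : 0 < Real.log n := Real.log_pos (lt_of_lt_of_le (by norm_num) hn)
  rw [Real.rpow_one] at hM2
  rw [Real.rpow_zero, mul_one] at hlog1 hlog3 hlog5
  set Y : ℝ := (n : ℝ) ^ κ with hY
  set X : ℝ := (n : ℝ) ^ δ with hXdef
  set M := ⌊Y⌋₊ with hMdef
  set ε : ℝ := (n : ℝ) ^ (-(1 / 4) : ℝ) with hεdef
  set Z : ℝ := (n : ℝ) ^ (3 / 4 : ℝ) with hZdef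
  have hε1 : ε ≤ 1 := Real.rpow_le_one_of_one_le_of_nonpos (by linarith) (by norm_num)
  have hεn : ε * n = Z := by
    rw [hεdef, hZdef]
    nth_rewrite 2 [← Real.rpow_one (n : ℝ)]
    rw [← Real.rpow_add hn0]
    norm_num
  have hY0 : 0 ≤ Y := by positivity
  have hX0 : 0 ≤ X := by positivity
  have hMle : (M : ℝ) ≤ Y := Nat.floor_le hY0
  have hMge : Y / 2 ≤ M := by
    have := Nat.lt_floor_add_one Y
    linarith
  have hexpn : Real.exp (Real.log n) = n := Real.exp_log hn0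
  have hpow : (1 - ε / 2) ^ n ≤ Real.exp (-(Z / 2)) := by
    refine (pow_le_exp hε1 n).trans (le_of_eq ?_)
    congr 1
    rw [← hεn]
    ring
  refine ⟨h400, ?_, ?_, ?_, ?_, hX, ?_, ?_, by linarith⟩
  · have : (1600 : ℝ) ≤ M := by linarith
    exact_mod_cast this
  · -- the mixing on pairs
    have h3 : (1 - ε / 2) ^ n ≤ 1 / (n : ℝ) ^ 5 := by
      refine hpow.trans ?_
      calc Real.exp (-(Z / 2)) ≤ Real.exp (-(5 * Real.log n)) :=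
            Real.exp_le_exp.2 (by linarith)
        _ = 1 / (n : ℝ) ^ 5 := by
            rw [Real.exp_neg, one_div]
            congr 1
            have : (5 : ℝ) * Real.log n = ((5 : ℕ) : ℝ) * Real.log n := by norm_num
            rw [this, Real.exp_nat_mul, hexpn]
    calc (1 - ε / 2) ^ n * (n : ℝ) ^ 2 ≤ 1 / (n : ℝ) ^ 5 * (n : ℝ) ^ 2 := by gcongr
      _ ≤ 1 / (16 * (n : ℝ) ^ 2) := by
          rw [div_mul_eq_mul_div, one_mul, div_le_div_iff₀ (by positivity) (by positivity)]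
          have : (16 : ℝ) * ((n : ℝ) ^ 2 * (n : ℝ) ^ 2) ≤ n * ((n : ℝ) ^ 2 * (n : ℝ) ^ 2) := by
            gcongr
            linarith
          nlinarith
  · -- transitivity
    have h2 : ((n : ℝ) ^ M) ^ 2 ≤ Real.exp (2 * Y * Real.log n) := by
      rw [← pow_mul]
      have h3 : (n : ℝ) ^ (M * 2) = Real.exp (((M * 2 : ℕ) : ℝ) * Real.log n) := by
        rw [Real.exp_nat_mul, hexpn]
      rw [h3]
      apply Real.exp_le_exp.2
      push_cast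
      have : (M : ℝ) * Real.log n ≤ Y * Real.log n := by gcongr
      linarith
    have h3 : 2 * Y * Real.log n ≤ Z / 4 := by linarith
    have h5n : 5 ≤ Z / 4 := by linarith
    have h64 : Real.exp (-5 : ℝ) ≤ 1 / 64 := by
      rw [Real.exp_neg, ← one_div, div_le_div_iff₀ (Real.exp_pos _) (by norm_num)]
      have h6 : (2.7 : ℝ) ≤ Real.exp 1 := by linarith [Real.exp_one_gt_d9]
      have h7 : Real.exp (5 : ℝ) = Real.exp 1 ^ 5 := by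
        rw [← Real.exp_nat_mul]
        norm_num
      rw [h7]
      have h8 : (2.7 : ℝ) ^ 5 ≤ Real.exp 1 ^ 5 := pow_le_pow_left₀ (by norm_num) h6 5
      norm_num at h8 ⊢
      linarith
    calc (1 - ε / 2) ^ n * ((n : ℝ) ^ M) ^ 2
        ≤ Real.exp (-(Z / 2)) * Real.exp (2 * Y * Real.log n) := by gcongr
      _ = Real.exp (-(Z / 2) + 2 * Y * Real.log n) := by rw [Real.exp_add]
      _ ≤ Real.exp (-5) := Real.exp_le_exp.2 (by linarith)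
      _ ≤ 1 / 64 := h64
  · have h1 : 2 * (M : ℝ) ≤ n := by linarith
    exact_mod_cast h1
  · have h1 : (⌊Real.log n⌋₊ : ℝ) ≤ Real.log n := Nat.floor_le hlogn.le
    linarith
  · have h1 : Real.log n ^ 2 ≤ ((n : ℝ) ^ (δ / 2)) ^ 2 :=
      pow_le_pow_left₀ hlogn.le (by linarith) 2
    have h2 : ((n : ℝ) ^ (δ / 2)) ^ 2 = X := by
      rw [hXdef, ← Real.rpow_natCast, ← Real.rpow_mul hn0.le]
      congr 1
      push_cast
      ring
    linarith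

/-- two generators -/
theorem main2 (hST : S_ST) (hCM : S_CM) (hTGP : S_TGP) (hSEC : S_SEC) (δ : ℝ) (hδ : 0 < δ) :
    ∀ e : ℝ, 0 < e → ∀ᶠ n : ℕ in atTop,
      (Nat.card {x : Fin 2 → Alt n // ¬ Short ((n : ℝ) ^ (2 - 1 / 11 + δ)) x} : ℝ) ≤
        e * (Fintype.card (Alt n) : ℝ) ^ 2 := by
  intro e he
  obtain ⟨δ₁, hd0, hd1, hd2⟩ : ∃ δ₁ : ℝ, 0 < δ₁ ∧ δ₁ ≤ 1 / 22 ∧ 4 * δ₁ ≤ δ := by
    refine ⟨min (δ / 4) (1 / 22), lt_min (by linarith) (by norm_num), min_le_right _ _, ?_⟩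
    have := min_le_left (δ / 4) (1 / 22 : ℝ)
    linarith
  obtain ⟨c₀, hc0, N, hE⟩ := hST
  filter_upwards [hTGP (1 / 11 - δ₁) (by linarith) (by linarith) (e / 2) (by linarith),
    hSEC c₀ hc0 (e / 2) (by linarith),
    params2 (1 / 11 - δ₁) δ₁ (by linarith) (by linarith) hd0,
    eventually_ge_atTop N] with n hna hnb hp hnN
  obtain ⟨p1, p2, p3, p4, p5, p6, p7, p8, p9⟩ := hp
  obtain ⟨E, hE1, hE2, hE3⟩ := hE n hnN
  have hn : (400 : ℝ) ≤ n := by exact_mod_cast p1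
  have hn0 : (0 : ℝ) < n := by linarith
  have hA0 : (0 : ℝ) < Fintype.card (Alt n) := by exact_mod_cast Fintype.card_pos
  have hε1 : (n : ℝ) ^ (-(1 / 4) : ℝ) ≤ 1 :=
    Real.rpow_le_one_of_one_le_of_nonpos (by linarith) (by norm_num)
  have key := one_n2 hCM (n := n) (ε := (n : ℝ) ^ (-(1 / 4) : ℝ)) (by linarith) p1 E hE3 p2 p3 p4
    p5 p6 p7 p8 (by positivity) p9
  have hexp : (n : ℝ) * (n / (n : ℝ) ^ (1 / 11 - δ₁)) * ((n : ℝ) ^ δ₁) ^ 3 ≤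
      (n : ℝ) ^ (2 - 1 / 11 + δ) := by
    have e1 : ((n : ℝ) ^ δ₁) ^ 3 = (n : ℝ) ^ (δ₁ * 3) := by
      rw [← Real.rpow_natCast, ← Real.rpow_mul hn0.le]
      norm_num
    have e2 : (n : ℝ) / (n : ℝ) ^ (1 / 11 - δ₁) = (n : ℝ) ^ (1 - (1 / 11 - δ₁)) := by
      rw [Real.rpow_sub hn0 1 (1 / 11 - δ₁), Real.rpow_one]
    rw [e1, e2]
    calc (n : ℝ) * (n : ℝ) ^ (1 - (1 / 11 - δ₁)) * (n : ℝ) ^ (δ₁ * 3) =
        (n : ℝ) ^ (1 + (1 - (1 / 11 - δ₁)) + δ₁ * 3) := by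
          rw [Real.rpow_add hn0, Real.rpow_add hn0, Real.rpow_one]
      _ ≤ (n : ℝ) ^ (2 - 1 / 11 + δ) := by
          apply Real.rpow_le_rpow_of_exponent_le (by linarith)
          linarith
  have hmono : (Nat.card {x : Fin 2 → Alt n // ¬ Short ((n : ℝ) ^ (2 - 1 / 11 + δ)) x} : ℝ) ≤
      Nat.card {x : Fin 2 → Alt n //
        ¬ Short ((n : ℝ) * (n / (n : ℝ) ^ (1 / 11 - δ₁)) * ((n : ℝ) ^ δ₁) ^ 3) x} := by
    refine Nat.cast_le.mpr (RC14.card_mono _ _ fun x hx hcon => hx ?_)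
    intro σ hσ
    obtain ⟨D, hD, hσD⟩ := hcon σ hσ
    exact ⟨D, hD.trans hexp, hσD⟩
  have hb := hnb E hE1 hE2
  linarith

/-- the exponent for `k` generators -/
def ck (k : ℕ) : ℝ := max (1 / 11)
  (min (((k : ℝ) - 2) / (2 * (k + 1))) (((k : ℝ) - 2) / (3 * (k - 1))))

/-- every `k ≥ 2` -/
theorem mainAll2 (hST : S_ST) (hCM : S_CM) (hAM : S_AMQ) (hTR : S_TR) (hFF : S_FF) (hNU : S_NUQ)
    (hPR : S_PR) (hTGP : S_TGP) (hSEC : S_SEC) (k : ℕ) (hk : 2 ≤ k) (δ : ℝ) (hδ : 0 < δ) :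
    ∀ e : ℝ, 0 < e → ∀ᶠ n : ℕ in atTop, (Nat.card {x : Fin k → Alt n //
      ¬ Short ((n : ℝ) ^ (2 - ck k + δ)) x} : ℝ) ≤ e * (Fintype.card (Alt n) : ℝ) ^ k := by
  intro e he
  rcases le_total (1 / 11 : ℝ)
    (min (((k : ℝ) - 2) / (2 * (k + 1))) (((k : ℝ) - 2) / (3 * (k - 1)))) with h | h
  · have hk3 : 3 ≤ k := by
      by_contra hcon
      have : k = 2 := by omega
      rw [this] at h
      norm_num at h
    have := mainAll hST hCM hAM hTR hFF hNU hPR k hk3 δ hδ e he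
    unfold ck
    rw [max_eq_right h]
    exact this
  · unfold ck
    rw [max_eq_left h]
    obtain ⟨r, rfl⟩ : ∃ r, k = 2 + r := ⟨k - 2, by omega⟩
    filter_upwards [main2 hST hCM hTGP hSEC δ hδ e he] with n hn
    have h1 := R3516.card_first (G := Alt n) 2 r (fun y => ¬ Short ((n : ℝ) ^ (2 - 1 / 11 + δ)) y)
    have h2 : Nat.card {x : Fin (2 + r) → Alt n // ¬ Short ((n : ℝ) ^ (2 - 1 / 11 + δ)) x} ≤
        Nat.card {x : Fin (2 + r) → Alt n //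
          ¬ Short ((n : ℝ) ^ (2 - 1 / 11 + δ)) (fun i => x (Fin.castAdd r i))} := by
      refine RC14.card_mono _ _ fun x hx hcon => hx ?_
      intro σ hσ
      obtain ⟨D, hD, hσD⟩ := hcon σ hσ
      exact ⟨D, hD, PB.extend (fun i => ⟨Fin.castAdd r i, rfl⟩) hσD⟩
    rw [h1] at h2
    have h3 : (Nat.card {x : Fin (2 + r) → Alt n // ¬ Short ((n : ℝ) ^ (2 - 1 / 11 + δ)) x} : ℝ) ≤
        Nat.card {y : Fin 2 → Alt n // ¬ Short ((n : ℝ) ^ (2 - 1 / 11 + δ)) y} *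
          (Fintype.card (Alt n) : ℝ) ^ r := by exact_mod_cast h2
    calc _ ≤ _ := h3
      _ ≤ (e * (Fintype.card (Alt n) : ℝ) ^ 2) * (Fintype.card (Alt n) : ℝ) ^ r := by gcongr
      _ = e * (Fintype.card (Alt n) : ℝ) ^ (2 + r) := by rw [pow_add]; ring

end

end P2516
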