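import Pool.Agent.U516.P2.Spec

/-!
Project P2, package EXPL: adaptive exploration of `k` independent uniform permutations
(helper542).
-/

namespace P2516
open Finset Filter Topology

noncomputable section

section EXPL

variable {n k : ℕ}

theorem expl_hist_length (x : Fin k → Equiv.Perm (Fin n)) (σ : List (Fin n) → Fin k × Fin n)
    (j : ℕ) : (hist x σ j).length = j := by
  induction j with
  | zero => rfl
  | succ j ih => simp [hist, ih]

theorem expl_hist_drop (x : Fin k → Equiv.Perm (Fin n)) (σ : List (Fin n) → Fin k × Fin n)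
    (s t : ℕ) (hst : s ≤ t) : hist x σ s = (hist x σ t).drop (t - s) := by
  induction t with
  | zero =>
    obtain rfl : s = 0 := by omega
    simp [hist]
  | succ t ih =>
    rcases Nat.lt_or_ge t s with h | h
    · obtain rfl : s = t + 1 := by omega
      simp
    · have e : t + 1 - s = (t - s) + 1 := by omega
      rw [e, hist, List.drop_succ_cons]
      exact ih h

theorem expl_hist_mem (x : Fin k → Equiv.Perm (Fin n)) (σ : List (Fin n) → Fin k × Fin n)
    {s t : ℕ} (hst : s < t) :
    x (σ (hist x σ s)).1 (σ (hist x σ s)).2 ∈ hist x σ t := by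
  induction t with
  | zero => omega
  | succ t ih =>
    rw [hist]
    rcases Nat.lt_or_ge s t with h | h
    · exact List.mem_cons_of_mem _ (ih h)
    · obtain rfl : s = t := by omega
      exact List.mem_cons_self

theorem expl_hist_congr (x x' : Fin k → Equiv.Perm (Fin n))
    (σ : List (Fin n) → Fin k × Fin n) (t : ℕ)
    (h : ∀ s < t, x' (σ (hist x σ s)).1 (σ (hist x σ s)).2 =
      x (σ (hist x σ s)).1 (σ (hist x σ s)).2) : hist x' σ t = hist x σ t := by
  induction t with
  | zero => rfl
  | succ t ih =>
    have e := ih (fun s hs => h s (by omega))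
    rw [hist, hist, e, h t (by omega)]

open Classical in
theorem expl_key (σ : List (Fin n) → Fin k × Fin n) (h : List (Fin n)) (v : Fin n)
    (hN : ∀ i < h.length, σ (h.drop (h.length - i)) ≠ σ h) :
    #{x : Fin k → Equiv.Perm (Fin n) | hist x σ (h.length + 1) = v :: h} * (n - h.length) ≤
      #{x : Fin k → Equiv.Perm (Fin n) | hist x σ h.length = h} := by
  have hW : n - h.length ≤ #(h.toFinsetᶜ) := by
    rw [card_compl, Fintype.card_fin]
    have := List.toFinset_card_le h
    omega
  refine le_trans (Nat.mul_le_mul_left _ hW) ?_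
  rw [← card_product]
  apply card_le_card_of_injOn
    (fun z => Function.update z.1 (σ h).1 (Equiv.swap v z.2 * z.1 (σ h).1))
  · rintro ⟨x, w⟩ hz
    simp only [coe_product, Set.mem_prod, mem_coe, mem_filter, mem_univ, true_and, mem_compl,
      List.mem_toFinset] at hz
    obtain ⟨hx, hw⟩ := hz
    rw [hist] at hx
    obtain ⟨h1, h2⟩ := List.cons_eq_cons.mp hx
    rw [h2] at h1
    simp only [mem_coe, mem_filter, mem_univ, true_and]
    rw [← h2] at h1 ⊢
    rw [expl_hist_length]
    refine (expl_hist_congr x _ σ _ ?_)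
    intro s hs
    by_cases hi : (σ (hist x σ s)).1 = (σ h).1
    · have hne : σ (hist x σ s) ≠ σ h := by
        have := hN s hs
        rwa [← h2, expl_hist_length, ← expl_hist_drop x σ s _ hs.le, h2] at this
      have hne2 : (σ (hist x σ s)).2 ≠ (σ h).2 := fun h3 => hne (Prod.ext hi h3)
      have hv : x (σ (hist x σ s)).1 (σ (hist x σ s)).2 ≠ v := by
        rw [← h1, h2, hi]
        exact fun h3 => hne2 ((x (σ h).1).injective h3)
      have hw' : x (σ (hist x σ s)).1 (σ (hist x σ s)).2 ≠ w := by
        rintro rfl
        exact hw (h2 ▸ expl_hist_mem x σ hs)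
      rw [h2, hi, Function.update_self, Equiv.Perm.mul_apply]
      rw [hi] at hv hw'
      exact Equiv.swap_apply_of_ne_of_ne hv hw'
    · rw [h2, Function.update_of_ne hi]
  · rintro ⟨x, w⟩ hz ⟨x', w'⟩ hz' heq
    simp only [coe_product, Set.mem_prod, mem_coe, mem_filter, mem_univ, true_and, mem_compl,
      List.mem_toFinset] at hz hz'
    obtain ⟨hx, hw⟩ := hz
    obtain ⟨hx', hw'⟩ := hz'
    rw [hist] at hx hx'
    obtain ⟨h1, h2⟩ := List.cons_eq_cons.mp hx
    obtain ⟨h1', h2'⟩ := List.cons_eq_cons.mp hx'
    rw [h2] at h1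
    rw [h2'] at h1'
    have hc := congrFun heq (σ h).1
    simp only [Function.update_self] at hc
    have hww : w = w' := by
      have := congrArg (fun g : Equiv.Perm (Fin n) => g (σ h).2) hc
      simpa [Equiv.Perm.mul_apply, h1, h1'] using this
    subst hww
    have hi : x (σ h).1 = x' (σ h).1 := mul_left_cancel hc
    have hxx : x = x' := by
      funext i
      by_cases hii : i = (σ h).1
      · rw [hii, hi]
      · have := congrFun heq i
        simpa [Function.update_of_ne hii] using this
    rw [hxx]

open Classical in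
theorem t_EXPL : S_EXPL := by
  intro n k N σ f0 f1 B hNn hf
  have : Nonempty (Fin n) := ⟨⟨0, by omega⟩⟩
  have hB : ∀ j < N, 0 ≤ B j := by
    intro j hj
    have h := (hf j hj (List.replicate j (Classical.arbitrary _)) (List.length_replicate)).1
      (Classical.arbitrary _)
    exact h.1.trans h.2.1
  set F : (Fin k → Equiv.Perm (Fin n)) → ℕ → ℝ := fun x j =>
    (if NewQ x σ j then f1 (hist x σ j) (x (σ (hist x σ j)).1 (σ (hist x σ j)).2)
        else f0 (hist x σ j) (x (σ (hist x σ j)).1 (σ (hist x σ j)).2)) with hF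
  have main : ∀ d t : ℕ, t + d = N → ∀ h : List (Fin n), h.length = t →
      ∑ x : Fin k → Equiv.Perm (Fin n) with hist x σ t = h, ∏ j ∈ Ico t N, F x j ≤
        (#{x : Fin k → Equiv.Perm (Fin n) | hist x σ t = h} : ℝ) * ∏ j ∈ Ico t N, B j := by
    intro d
    induction d with
    | zero =>
      intro t ht h _
      obtain rfl : t = N := by omega
      simp
    | succ d ih =>
      intro t ht h hl
      have htN : t < N := by omega
      have hP : 0 ≤ ∏ j ∈ Ico (t + 1) N, B j :=
        prod_nonneg fun j hj => hB j (mem_Ico.mp hj).2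
      obtain ⟨hf1, hf2⟩ := hf t htN h hl
      -- the factor at `t` depends only on `h` and on the answer
      set g : Fin n → ℝ := fun v =>
        if (∀ i < t, σ (h.drop (t - i)) ≠ σ h) then f1 h v else f0 h v with hg
      have hg0 : ∀ v, 0 ≤ g v := by
        intro v
        simp only [hg]
        split_ifs
        · exact (hf1 v).2.2
        · exact (hf1 v).1
      have hfac : ∀ x, hist x σ t = h → F x t = g (x (σ h).1 (σ h).2) := by
        intro x hx
        have hiff : NewQ x σ t ↔ ∀ i < t, σ (h.drop (t - i)) ≠ σ h := by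
          unfold NewQ
          constructor
          · intro H i hi
            have := H i hi
            rwa [expl_hist_drop x σ i t hi.le, hx] at this
          · intro H i hi
            have := H i hi
            rwa [expl_hist_drop x σ i t hi.le, hx]
        simp only [hF, hg, hx]
        by_cases hnew : ∀ i < t, σ (h.drop (t - i)) ≠ σ h
        · rw [if_pos (hiff.mpr hnew), if_pos hnew]
        · rw [if_neg (fun hh => hnew (hiff.mp hh)), if_neg hnew]
      have hfib : ∀ v, ({x : Fin k → Equiv.Perm (Fin n) | hist x σ (t + 1) = v :: h} :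
          Finset (Fin k → Equiv.Perm (Fin n))) =
          ({x : Fin k → Equiv.Perm (Fin n) | hist x σ t = h} :
            Finset (Fin k → Equiv.Perm (Fin n))).filter
            (fun x => x (σ h).1 (σ h).2 = v) := by
        intro v
        ext x
        simp only [mem_filter, mem_univ, true_and, hist, List.cons_eq_cons]
        constructor
        · rintro ⟨h1, h2⟩
          exact ⟨h2, by rwa [h2] at h1⟩
        · rintro ⟨h1, h2⟩
          exact ⟨by rwa [h1], h1⟩
      have hcard : (#{x : Fin k → Equiv.Perm (Fin n) | hist x σ t = h} : ℝ) =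
          ∑ v, (#{x : Fin k → Equiv.Perm (Fin n) | hist x σ (t + 1) = v :: h} : ℝ) := by
        have := card_eq_sum_card_fiberwise
          (f := fun x : Fin k → Equiv.Perm (Fin n) => x (σ h).1 (σ h).2)
          (s := ({x : Fin k → Equiv.Perm (Fin n) | hist x σ t = h} :
            Finset (Fin k → Equiv.Perm (Fin n)))) (t := univ) (by intro x _; simp)
        rw [this]
        push_cast
        exact sum_congr rfl fun v _ => by rw [hfib v]
      have hsum : ∑ x : Fin k → Equiv.Perm (Fin n) with hist x σ t = h, ∏ j ∈ Ico t N, F x j =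
          ∑ v, ∑ x : Fin k → Equiv.Perm (Fin n) with hist x σ (t + 1) = v :: h,
            g v * ∏ j ∈ Ico (t + 1) N, F x j := by
        rw [← sum_fiberwise_of_maps_to
          (g := fun x : Fin k → Equiv.Perm (Fin n) => x (σ h).1 (σ h).2) (t := univ)
          (by intro x _; simp)]
        refine sum_congr rfl fun v _ => ?_
        rw [hfib v]
        refine sum_congr rfl fun x hx => ?_
        rw [mem_filter, mem_filter] at hx
        rw [prod_eq_prod_Ico_succ_bot htN, hfac x hx.1.2, hx.2]
      rw [hsum, prod_eq_prod_Ico_succ_bot htN]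
      have step1 : ∑ v, ∑ x : Fin k → Equiv.Perm (Fin n) with hist x σ (t + 1) = v :: h,
            g v * ∏ j ∈ Ico (t + 1) N, F x j ≤
          ∑ v, g v * ((#{x : Fin k → Equiv.Perm (Fin n) | hist x σ (t + 1) = v :: h} : ℝ) *
            ∏ j ∈ Ico (t + 1) N, B j) := by
        refine sum_le_sum fun v _ => ?_
        rw [← mul_sum]
        exact mul_le_mul_of_nonneg_left (ih (t + 1) (by omega) (v :: h) (by simp [hl])) (hg0 v)
      refine step1.trans ?_
      by_cases hnew : ∀ i < t, σ (h.drop (t - i)) ≠ σ h
      · -- new query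
        have hgv : ∀ v, g v = f1 h v := fun v => by simp only [hg]; rw [if_pos hnew]
        have hpos : (0 : ℝ) < (n : ℝ) - N := by
          have : (N : ℝ) < n := by exact_mod_cast hNn
          linarith
        have hkey : ∀ v, (#{x : Fin k → Equiv.Perm (Fin n) | hist x σ (t + 1) = v :: h} : ℝ) *
            ((n : ℝ) - N) ≤ (#{x : Fin k → Equiv.Perm (Fin n) | hist x σ t = h} : ℝ) := by
          intro v
          have hk := expl_key (k := k) σ h v (by rw [hl]; exact hnew)
          rw [hl] at hk
          have hk' : (#{x : Fin k → Equiv.Perm (Fin n) | hist x σ (t + 1) = v :: h} : ℝ) *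
              ((n - t : ℕ) : ℝ) ≤
              (#{x : Fin k → Equiv.Perm (Fin n) | hist x σ t = h} : ℝ) := by exact_mod_cast hk
          refine le_trans (mul_le_mul_of_nonneg_left ?_ (Nat.cast_nonneg _)) hk'
          rw [Nat.cast_sub (by omega)]
          have : (t : ℝ) ≤ N := by exact_mod_cast htN.le
          linarith
        have hA0 : (0 : ℝ) ≤ (#{x : Fin k → Equiv.Perm (Fin n) | hist x σ t = h} : ℝ) :=
          Nat.cast_nonneg _
        have h3 : ((n : ℝ) - N) * ∑ v, g v *
            ((#{x : Fin k → Equiv.Perm (Fin n) | hist x σ (t + 1) = v :: h} : ℝ) *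
            ∏ j ∈ Ico (t + 1) N, B j) ≤
            (∑ v, f1 h v) * ((#{x : Fin k → Equiv.Perm (Fin n) | hist x σ t = h} : ℝ) *
              ∏ j ∈ Ico (t + 1) N, B j) := by
          rw [mul_sum, sum_mul]
          refine sum_le_sum fun v _ => ?_
          rw [hgv v]
          have h4 := mul_le_mul_of_nonneg_right (hkey v) hP
          have h5 := mul_le_mul_of_nonneg_left h4 (hf1 v).2.2
          calc _ = f1 h v * ((#{x : Fin k → Equiv.Perm (Fin n) | hist x σ (t + 1) = v :: h} : ℝ) *
                ((n : ℝ) - N) * ∏ j ∈ Ico (t + 1) N, B j) := by ring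
            _ ≤ _ := h5
        have h6 : (∑ v, f1 h v) * ((#{x : Fin k → Equiv.Perm (Fin n) | hist x σ t = h} : ℝ) *
              ∏ j ∈ Ico (t + 1) N, B j) ≤ (((n : ℝ) - N) * B t) *
              ((#{x : Fin k → Equiv.Perm (Fin n) | hist x σ t = h} : ℝ) *
              ∏ j ∈ Ico (t + 1) N, B j) :=
          mul_le_mul_of_nonneg_right hf2 (mul_nonneg hA0 hP)
        have h7 := h3.trans h6
        have h8 : (((n : ℝ) - N) * B t) *
              ((#{x : Fin k → Equiv.Perm (Fin n) | hist x σ t = h} : ℝ) *
              ∏ j ∈ Ico (t + 1) N, B j) = ((n : ℝ) - N) *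
              ((#{x : Fin k → Equiv.Perm (Fin n) | hist x σ t = h} : ℝ) *
              (B t * ∏ j ∈ Ico (t + 1) N, B j)) := by ring
        rw [h8] at h7
        exact le_of_mul_le_mul_left h7 hpos
      · -- old query
        have hgv : ∀ v, g v ≤ B t := fun v => by
          simp only [hg]; rw [if_neg hnew]; exact (hf1 v).2.1
        rw [hcard, sum_mul]
        refine sum_le_sum fun v _ => ?_
        have h4 := mul_le_mul_of_nonneg_right (hgv v)
          (mul_nonneg (Nat.cast_nonneg
            (#{x : Fin k → Equiv.Perm (Fin n) | hist x σ (t + 1) = v :: h}) : (0 : ℝ) ≤ _) hP)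
        calc _ ≤ _ := h4
          _ = _ := by ring
  have h0 := main N 0 (by omega) [] rfl
  have e1 : ({x : Fin k → Equiv.Perm (Fin n) | hist x σ 0 = []} :
      Finset (Fin k → Equiv.Perm (Fin n))) = univ := by
    ext x; simp [hist]
  rw [e1] at h0
  have e2 : #(univ : Finset (Fin k → Equiv.Perm (Fin n))) = n.factorial ^ k := by
    simp [Fintype.card_perm]
  rw [e2] at h0
  rw [Nat.Ico_zero_eq_range] at h0
  push_cast at h0
  exact h0

end EXPL

end

end P2516
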