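import Pool.Agent.U516.R3.Spec

/-!
Project P2 (helper516), MP_75608d_al: random PAIRS.  For a random pair the gap on `r`-tuples is at
least `n ^ (-1/4)` for all `r ≤ n ^ κ`, `κ < 1 / 11`, and the diameter is at most
`n ^ (2 - κ + δ)`.  Statements of the packages.
-/

namespace P2516
open RC14 RD516 R3516 Finset Filter Topology
open Pool.Agent.R236.Den

noncomputable section

/-- the position after reading `e` letters of the positive word `p` from the point `a` -/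
def pos {n k : ℕ} (x : Fin k → Equiv.Perm (Fin n)) (p : ℕ → Fin k) (a : Fin n) : ℕ → Fin n
  | 0 => a
  | e + 1 => x (p e) (pos x p a e)

/-- the label read at step `s < 2 m`: first the word `p`, then the word `q` -/
def lab {k : ℕ} (m : ℕ) (p q : ℕ → Fin k) (s : ℕ) : Fin k := if s < m then p s else q (s - m)

/-- the point at which this label is read -/
def src {n k : ℕ} (x : Fin k → Equiv.Perm (Fin n)) (m : ℕ) (p q : ℕ → Fin k) (a : Fin n)
    (s : ℕ) : Fin n := if s < m then pos x p a s else pos x q a (s - m)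

/-- query number `j`: walker `j / (2 m)`, step `j % (2 m)` -/
def qry {n k : ℕ} (x : Fin k → Equiv.Perm (Fin n)) (m : ℕ) (p q : ℕ → Fin k) (a : ℕ → Fin n)
    (j : ℕ) : Fin k × Fin n :=
  (lab m p q (j % (2 * m)), src x m p q (a (j / (2 * m))) (j % (2 * m)))

/-- the answer to query number `j` -/
def ans {n k : ℕ} (x : Fin k → Equiv.Perm (Fin n)) (m : ℕ) (p q : ℕ → Fin k) (a : ℕ → Fin n)
    (j : ℕ) : Fin n := x (qry x m p q a j).1 (qry x m p q a j).2

/-- query number `j` was not asked before -/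
def New {n k : ℕ} (x : Fin k → Equiv.Perm (Fin n)) (m : ℕ) (p q : ℕ → Fin k) (a : ℕ → Fin n)
    (j : ℕ) : Prop := ∀ i < j, qry x m p q a i ≠ qry x m p q a j

/-- a new query whose answer is a point already visited -/
def Hit {n k : ℕ} (x : Fin k → Equiv.Perm (Fin n)) (m : ℕ) (p q : ℕ → Fin k) (a : ℕ → Fin n)
    (r j : ℕ) : Prop :=
  New x m p q a j ∧ ((∃ c < r, a c = ans x m p q a j) ∨ ∃ i < j, ans x m p q a i = ans x m p q a j)

/-- the vertex at the place `s < 2 m` of the closed walk of the walker `c`: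
`P(0), ..., P(m), Q(1), ..., Q(m-1)` -/
def ov {n k : ℕ} (x : Fin k → Equiv.Perm (Fin n)) (m : ℕ) (p q : ℕ → Fin k) (a : ℕ → Fin n)
    (c s : ℕ) : Fin n := if s ≤ m then pos x p (a c) s else pos x q (a c) (s - m)

/-- the closed walk of the walker `c` is a simple cycle, disjoint from the other ones -/
def Iso {n k : ℕ} (x : Fin k → Equiv.Perm (Fin n)) (m : ℕ) (p q : ℕ → Fin k) (a : ℕ → Fin n)
    (r c : ℕ) : Prop := ∀ s < 2 * m, ∀ c' < r, ∀ s' < 2 * m,
      ov x m p q a c s = ov x m p q a c' s' → c = c' ∧ s = s'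

/-- the edges (queries) -/
def Eset {n k : ℕ} (x : Fin k → Equiv.Perm (Fin n)) (m : ℕ) (p q : ℕ → Fin k) (a : ℕ → Fin n)
    (r : ℕ) : Finset (Fin k × Fin n) := (range (2 * m * r)).image (qry x m p q a)

/-- the visited points -/
def Vset {n k : ℕ} (x : Fin k → Equiv.Perm (Fin n)) (m : ℕ) (p q : ℕ → Fin k) (a : ℕ → Fin n)
    (r : ℕ) : Finset (Fin n) := (range r).image a ∪ (range (2 * m * r)).image (ans x m p q a)

open Classical in
/-- the isolated walkers -/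
def Iset {n k : ℕ} (x : Fin k → Equiv.Perm (Fin n)) (m : ℕ) (p q : ℕ → Fin k) (a : ℕ → Fin n)
    (r : ℕ) : Finset ℕ := (range r).filter fun c => Iso x m p q a r c

/-- the hypotheses: the two words have different first and different last letters, and the walks of
the walkers `c < r` with distinct starts are closed -/
def Hyp {n k : ℕ} (x : Fin k → Equiv.Perm (Fin n)) (m : ℕ) (p q : ℕ → Fin k) (a : ℕ → Fin n)
    (r : ℕ) : Prop := 1 ≤ m ∧ Set.InjOn a (Set.Iio r) ∧ p 0 ≠ q 0 ∧ p (m - 1) ≠ q (m - 1) ∧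
      ∀ c < r, pos x p (a c) m = pos x q (a c) m

open Classical in
/-- package DETA: counting the hits -/
def S_DETA : Prop := ∀ (n k r m : ℕ) (x : Fin k → Equiv.Perm (Fin n)) (p q : ℕ → Fin k)
    (a : ℕ → Fin n), Hyp x m p q a r →
    (∀ c ∈ Iset x m p q a r, New x m p q a (c * (2 * m) + (2 * m - 1))) ∧
    #{j ∈ range (2 * m * r) | Hit x m p q a r j ∧ j / (2 * m) ∉ Iset x m p q a r} +
      #(Iset x m p q a r) + #(Vset x m p q a r) = #(Eset x m p q a r) + r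

/-- package DETB: the number of edges (stackings) -/
def S_DETB : Prop := ∀ (n k r m : ℕ) (x : Fin k → Equiv.Perm (Fin n)) (p q : ℕ → Fin k)
    (a : ℕ → Fin n), Hyp x m p q a r →
    2 * #(Vset x m p q a r) + r ≤ 2 * #(Eset x m p q a r) + #(Iset x m p q a r)

/-- the answers to the first `j` adaptive queries, the last one first -/
def hist {n k : ℕ} (x : Fin k → Equiv.Perm (Fin n)) (σ : List (Fin n) → Fin k × Fin n) :
    ℕ → List (Fin n)
  | 0 => []
  | j + 1 => x (σ (hist x σ j)).1 (σ (hist x σ j)).2 :: hist x σ j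

/-- the adaptive query number `j` is new -/
def NewQ {n k : ℕ} (x : Fin k → Equiv.Perm (Fin n)) (σ : List (Fin n) → Fin k × Fin n)
    (j : ℕ) : Prop := ∀ i < j, σ (hist x σ i) ≠ σ (hist x σ j)

open Classical in
/-- package EXPL: adaptive exploration of `k` uniform permutations -/
def S_EXPL : Prop := ∀ (n k N : ℕ) (σ : List (Fin n) → Fin k × Fin n)
    (f0 f1 : List (Fin n) → Fin n → ℝ) (B : ℕ → ℝ), N < n →
    (∀ j < N, ∀ h : List (Fin n), h.length = j →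
      (∀ v, 0 ≤ f0 h v ∧ f0 h v ≤ B j ∧ 0 ≤ f1 h v) ∧ ∑ v, f1 h v ≤ ((n : ℝ) - N) * B j) →
    ∑ x : Fin k → Equiv.Perm (Fin n), ∏ j ∈ range N,
      (if NewQ x σ j then f1 (hist x σ j) (x (σ (hist x σ j)).1 (σ (hist x σ j)).2)
        else f0 (hist x σ j) (x (σ (hist x σ j)).1 (σ (hist x σ j)).2)) ≤
      (n.factorial : ℝ) ^ k * ∏ j ∈ range N, B j

open Classical in
/-- package ZI: the generating function of the hits -/
def S_ZI : Prop := ∀ (n k r m : ℕ) (p q : ℕ → Fin k) (a : ℕ → Fin n) (I : Finset ℕ) (lam : ℝ),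
    1 ≤ m → I ⊆ range r → 0 ≤ lam → 2 * m * r < n →
    ∑ x : Fin k → Equiv.Perm (Fin n),
      (if ∀ c ∈ I, New x m p q a (c * (2 * m) + (2 * m - 1)) ∧
          pos x p (a c) m = pos x q (a c) m then
        lam ^ #{j ∈ range (2 * m * r) | Hit x m p q a r j ∧ j / (2 * m) ∉ I} else 0) ≤
      (n.factorial : ℝ) ^ k * ((n : ℝ) / (n - (2 * m * r : ℕ))) ^ (2 * m * r) *
        (1 / n) ^ #I * (1 + 2 * lam * (2 * m * r : ℕ) / n) ^ (2 * m * (r - #I))

/-- package CNT: the number of `x` for which all the walks are closed -/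
def S_CNT : Prop := ∀ (n k r m : ℕ) (p q : ℕ → Fin k) (a : ℕ → Fin n), 1 ≤ m → 1 ≤ r →
    Set.InjOn a (Set.Iio r) → p 0 ≠ q 0 → p (m - 1) ≠ q (m - 1) → 8 * m ^ 2 * r ≤ n →
    (Nat.card {x : Fin k → Equiv.Perm (Fin n) // ∀ c < r, pos x p (a c) m = pos x q (a c) m} : ℝ) *
      (n : ℝ) ^ r ≤ (n.factorial : ℝ) ^ k *
        Real.exp (100 * Real.sqrt ((m : ℝ) ^ 6 * (r : ℝ) ^ 5 / n))

/-- the mean of two permutations acting on functions -/
def bop {Ω : Type} (y : Fin 2 → Equiv.Perm Ω) (φ : Ω → ℝ) (a : Ω) : ℝ := (φ (y 0 a) + φ (y 1 a)) / 2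

open Classical in
/-- the square of the Hilbert-Schmidt norm of the `L`-th power of `bop y` on the functions of sum
zero -/
def HS {Ω : Type} [Fintype Ω] (y : Fin 2 → Equiv.Perm Ω) (L : ℕ) : ℝ :=
  ∑ b, ∑ a, ((bop y)^[L] (fun c => if c = b then 1 else 0) a - 1 / (Fintype.card Ω : ℝ)) ^ 2

/-- package TRC: the expected Hilbert-Schmidt norm on `r`-tuples -/
def S_TRC : Prop := ∀ n r L : ℕ, 1 ≤ r → 1 ≤ L → 8 * L ^ 2 * r ≤ n →
    ∑ x : Fin 2 → Equiv.Perm (Fin n), HS (fun i => mvE (j := r) (x i)) L ≤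
      (n.factorial : ℝ) ^ 2 * ((n : ℝ) ^ r / 2 ^ L +
        (Real.exp (100 * Real.sqrt ((L : ℝ) ^ 6 * (r : ℝ) ^ 5 / n)) - 1))

/-- package HSG: from the Hilbert-Schmidt norm to the gap -/
def S_HSG : Prop := (∀ (Ω : Type) [Fintype Ω] [Nonempty Ω] (y : Fin 2 → Equiv.Perm Ω) (L : ℕ),
      1 ≤ L → HS y L ≤ 1 / 4 → HasGap y (1 / (16 * (L : ℝ) ^ 2))) ∧
    ∀ (n k r R : ℕ) (x : Fin k → Alt n) (ε : ℝ), r ≤ R → R ≤ n → TGap x ε R → TGap x ε r

/-- package TGP: the gap on tuples for random pairs -/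
def S_TGP : Prop := ∀ κ : ℝ, 0 < κ → κ < 1 / 11 → ∀ e : ℝ, 0 < e → ∀ᶠ n : ℕ in atTop,
    (Nat.card {x : Fin 2 → Alt n //
      ¬ ∀ r ≤ ⌊(n : ℝ) ^ κ⌋₊, TGap x ((n : ℝ) ^ (-(1 / 4) : ℝ)) r} : ℝ) ≤
      e * (Fintype.card (Alt n) : ℝ) ^ 2

/-- package RAT: character ratios of elements with few fixed points -/
def S_RAT : Prop := ∃ b : ℝ, 0 < b ∧ ∀ᶠ n : ℕ in atTop, ∀ z : Alt n,
    nfix (z : Equiv.Perm (Fin n)) ≤ ⌈(n : ℝ) ^ (1 / 2 : ℝ)⌉₊ →
    ∀ (V : Type) [NormedAddCommGroup V] [InnerProductSpace ℂ V] [FiniteDimensional ℂ V]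
      (ρ : Alt n →* (V ≃ₗᵢ[ℂ] V)), Irr ρ ⊤ → (∃ g v, ρ g v ≠ v) →
      ‖chr ρ z‖ ≤ (n : ℝ) ^ (-b) * Module.finrank ℂ V

/-- package VAR: correlation of a class function with its translate by `z` -/
def S_VAR : Prop := ∀ (n : ℕ) (z : Alt n) (β : ℝ), 0 ≤ β →
    (∀ (V : Type) [NormedAddCommGroup V] [InnerProductSpace ℂ V] [FiniteDimensional ℂ V]
      (ρ : Alt n →* (V ≃ₗᵢ[ℂ] V)), Irr ρ ⊤ → (∃ g v, ρ g v ≠ v) →
      ‖chr ρ z‖ ≤ β * Module.finrank ℂ V) →
    ∀ f : Alt n → ℝ, (∀ g h, f (g * h) = f (h * g)) → ∑ g, f g = 0 →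
      ∑ g, f g * f (g * z) ≤ β * ∑ g, f g ^ 2

/-- package SEC: some `x₀ x₁ ^ i` lies in a given conjugation invariant set of positive density -/
def S_SEC : Prop := ∀ c : ℝ, 0 < c → ∀ e : ℝ, 0 < e → ∀ᶠ n : ℕ in atTop,
    ∀ E : Finset (Alt n), (∀ g h : Alt n, g * h ∈ E ↔ h * g ∈ E) →
      c * Fintype.card (Alt n) ≤ (#E : ℝ) →
      (Nat.card {x : Fin 2 → Alt n // ¬ ∃ i ≤ ⌊Real.log n⌋₊, x 0 * x 1 ^ i ∈ E} : ℝ) ≤
        e * (Fintype.card (Alt n) : ℝ) ^ 2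

end

end P2516
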